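import Pool.Agent.H682.CP.Labels
import Pool.Agent.H682.CH.Correct

set_option autoImplicit false

/-!
# A basis of rows and columns
-/

namespace Pool.Agent.H682.CP

open Matrix Pool.Agent.H558R2 Pool.Agent.H622R3.SM Pool.Agent.H682.CH

/-- Translation of columns. -/
def trc (m n : ℕ) (C : List ℕ) (x : ℕ) : ℕ :=
  if x < m + (C.length + C.length) then m + n + C.getD (x - (m + C.length)) 0 else m + (n + n)

/-- Translation of queries. -/
def trq (m n : ℕ) (C : List ℕ) (q : List (ℕ × ℕ)) : List (ℕ × ℕ) :=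
  q.map fun p => (p.1, trc m n C p.2)

theorem colQ_trq (m n : ℕ) (C : List ℕ) (q : List (ℕ × ℕ)) (j : ℕ) :
    ((∃ p ∈ q, p.1 = j ∧ colQ q j = p.2) ∧ colQ (trq m n C q) j = trc m n C (colQ q j)) ∨
      (colQ q j = j ∧ colQ (trq m n C q) j = j) := by
  unfold trq
  induction q with
  | nil => exact Or.inr ⟨rfl, rfl⟩
  | cons p q ih =>
    rw [List.map_cons, colQ_cons, colQ_cons]
    by_cases h : p.1 = j
    · left
      rw [if_pos h, if_pos h]
      exact ⟨⟨p, List.mem_cons_self, h, rfl⟩, rfl⟩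
    · rw [if_neg h, if_neg h]
      rcases ih with ⟨⟨p', h1, h2, h3⟩, h4⟩ | ih
      · left
        exact ⟨⟨p', List.mem_cons_of_mem _ h1, h2, h3⟩, h4⟩
      · exact Or.inr ih

section Cols

variable {m n : ℕ} (A : Fin m → Fin n → ℝ) (C : List ℕ)

/-- The chosen columns. -/
noncomputable def colsA : Fin m → Fin C.length → ℝ := fun i c =>
  if h : C[(c : ℕ)] < n then A i ⟨C[(c : ℕ)], h⟩ else 0

variable {A C} {b : Fin m → ℝ}

theorem colsA_eq (hC : ∀ c ∈ C, c < n) (i : Fin m) (c : Fin C.length) :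
    colsA A C i c = A i ⟨C[(c : ℕ)], hC _ (List.getElem_mem _)⟩ :=
  dif_pos (hC _ (List.getElem_mem _))

/-- Good queries. -/
def GoodQ (m r : ℕ) (q : List (ℕ × ℕ)) : Prop := ∀ p ∈ q, m + r ≤ p.2

theorem w_rhs' (A : Fin m → Fin n → ℝ) (b : Fin m → ℝ) (r : Fin m) {x : ℕ}
    (hx : ¬ x < m + (n + n)) : wmat A b r (copt m n x) = -b r := by
  rw [copt, dif_neg hx]
  rfl

theorem mv_trq (hC : ∀ c ∈ C, c < n) {q : List (ℕ × ℕ)} (hq : GoodQ m C.length q) :
    mv A b (trq m n C q) = mv (colsA A C) b q := by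
  unfold mv dd
  congr 1
  ext r j
  rw [of_apply, of_apply, betaQ_apply, betaQ_apply]
  rcases colQ_trq m n C q j with ⟨⟨p, h1, h2, h3⟩, h4⟩ | ⟨h3, h4⟩
  · rw [h4]
    have h5 := hq p h1
    by_cases h6 : p.2 < m + (C.length + C.length)
    · obtain ⟨c, hc⟩ : ∃ c, colQ q j = m + C.length + c := ⟨p.2 - (m + C.length), by omega⟩
      have hcl : c < C.length := by omega
      rw [hc]
      unfold trc
      rw [if_pos (by omega), Nat.add_sub_cancel_left, List.getD_eq_getElem _ _ hcl]
      have h7 := w_col A b r ⟨C[c], hC _ (List.getElem_mem _)⟩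
      simp only at h7
      rw [h7, w_col (colsA A C) b r ⟨c, hcl⟩, colsA_eq hC]
    · rw [h3, w_rhs' (colsA A C) b r h6]
      unfold trc
      rw [if_neg h6, w_rhs]
  · rw [h3, h4, w_unit A b r j.2, w_unit (colsA A C) b r j.2]

theorem goodQ_lq (m r : ℕ) (L : List ℕ) : GoodQ m r (lq m r L) := by
  intro p hp
  unfold lq at hp
  rw [List.mem_map] at hp
  obtain ⟨⟨x, i⟩, h1, rfl⟩ := hp
  exact Nat.le_add_right _ _

/-- The minor for one more row and column. -/
theorem mv_snocC {L : List ℕ} (hL : L.Nodup) (hlen : L.length = C.length) {i k : ℕ} (hi : i < m)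
    (hiL : i ∉ L) (hk : k < n) :
    mv (colsA A (C ++ [k])) b (lq m (C ++ [k]).length (L ++ [i])) =
      ((Wl (colsA A C) b L).updateCol ⟨i, hi⟩ (fun r => A r ⟨k, hk⟩)).det := by
  rw [mv_eq_det]
  congr 1
  ext r j
  have hnd : (L ++ [i]).Nodup := by
    rw [List.nodup_append]
    refine ⟨hL, by simp, ?_⟩
    intro a ha c hc
    rw [List.mem_singleton] at hc
    rw [hc]
    rintro rfl
    exact hiL ha
  rw [updateCol_apply, w_lq hnd (by simp [hlen]), w_lq hL hlen.le]
  by_cases hj : j = ⟨i, hi⟩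
  · have h1 : ((⟨i, hi⟩ : Fin m) : ℕ) ∈ L ++ [i] := by simp
    have h2 : (L ++ [i]).idxOf i = C.length := by
      rw [List.idxOf_append_of_notMem hiL]
      simp [hlen]
    rw [if_pos hj, hj, dif_pos h1]
    unfold colsA
    simp only [h2]
    have h3 : (C ++ [k])[C.length]'(by simp) = k := by simp
    simp only [h3]
    rw [dif_pos hk]
  · rw [if_neg hj]
    by_cases hjL : (j : ℕ) ∈ L
    · have h1 : (j : ℕ) ∈ L ++ [i] := List.mem_append_left _ hjL
      have h2 : (L ++ [i]).idxOf (j : ℕ) = L.idxOf (j : ℕ) := List.idxOf_append_of_mem hjL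
      have h4 : L.idxOf (j : ℕ) < C.length := by
        rw [← hlen]
        exact List.idxOf_lt_length_iff.2 hjL
      rw [dif_pos h1, dif_pos hjL]
      unfold colsA
      simp only [h2]
      have h3 : (C ++ [k])[L.idxOf (j : ℕ)]'(by simp; omega) = C[L.idxOf (j : ℕ)] :=
        List.getElem_append_left h4
      simp only [h3]
    · have h1 : (j : ℕ) ∉ L ++ [i] := by
        rw [List.mem_append, List.mem_singleton]
        rintro (h | h)
        · exact hjL h
        · exact hj (Fin.ext h)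
      rw [dif_neg h1, dif_neg hjL]

/-- If the basis cannot be extended, the column depends on the chosen columns. -/
theorem dep_col {L : List ℕ} (hL : L.Nodup) (hlen : L.length = C.length) (hm : ∀ j ∈ L, j < m)
    (h0 : mv (colsA A C) b (lq m C.length L) ≠ 0) {k : ℕ} (hk : k < n)
    (hcon : ∀ i < m, i ∉ L → mv (colsA A (C ++ [k])) b (lq m (C ++ [k]).length (L ++ [i])) = 0) :
    ∃ u : Fin C.length → ℝ, ∀ r, A r ⟨k, hk⟩ = colsA A C r ⬝ᵥ u := by
  rw [mv_eq_det] at h0
  set W := Wl (colsA A C) b L with hW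
  set v : Fin m → ℝ := fun r => A r ⟨k, hk⟩ with hv
  set y := cramer W v with hy
  have h1 : W *ᵥ y = W.det • v := mulVec_cramer W v
  have h2 : ∀ r : Fin m, (r : ℕ) ∉ L → y r = 0 := by
    intro r hr'
    have := hcon r r.2 hr'
    rw [mv_snocC hL hlen r.2 hr' hk] at this
    rw [hy, cramer_apply]
    exact this
  refine ⟨W.det⁻¹ • xv C.length L y, fun r => ?_⟩
  have h4 := congrFun h1 r
  rw [hW, W_mulVec hL hlen.le hm, ← hW] at h4
  have h5 : (if (r : ℕ) ∈ L then 0 else y r) = 0 := by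
    split_ifs with h
    · rfl
    · exact h2 r h
  rw [h5, add_zero, Pi.smul_apply, smul_eq_mul] at h4
  rw [dotProduct_smul, h4, smul_eq_mul, ← mul_assoc, inv_mul_cancel₀ h0, one_mul]

/-- The column number `c` depends on the chosen columns. -/
def Dep (A : Fin m → Fin n → ℝ) (C : List ℕ) (c : ℕ) : Prop :=
  ∃ u : ℕ → ℝ, ∀ r : Fin m, (if h : c < n then A r ⟨c, h⟩ else 0) =
    ∑ a ∈ Finset.range C.length, (if h : C.getD a 0 < n then A r ⟨C.getD a 0, h⟩ else 0) * u a

theorem dep_iff {c : ℕ} (hc : c < n) : Dep A C c ↔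
    ∃ u : Fin C.length → ℝ, ∀ r, A r ⟨c, hc⟩ = colsA A C r ⬝ᵥ u := by
  have key : ∀ (r : Fin m) (u : ℕ → ℝ), ∑ a ∈ Finset.range C.length,
      (if h : C.getD a 0 < n then A r ⟨C.getD a 0, h⟩ else 0) * u a =
      colsA A C r ⬝ᵥ (fun a => u a) := by
    intro r u
    rw [Finset.sum_range, dotProduct]
    refine Finset.sum_congr rfl fun a _ => ?_
    unfold colsA
    have h1 : C.getD (a : ℕ) 0 = C[(a : ℕ)] := List.getD_eq_getElem _ _ a.2
    simp only [h1]
  constructor
  · rintro ⟨u, hu⟩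
    refine ⟨fun a => u a, fun r => ?_⟩
    rw [← key, ← hu r, dif_pos hc]
  · rintro ⟨u, hu⟩
    refine ⟨fun a => if h : a < C.length then u ⟨a, h⟩ else 0, fun r => ?_⟩
    rw [dif_pos hc, hu r, key]
    congr 1
    ext a
    rw [dif_pos a.2]

theorem Dep.append {c k : ℕ} (h : Dep A C c) : Dep A (C ++ [k]) c := by
  obtain ⟨u, hu⟩ := h
  refine ⟨fun a => if a < C.length then u a else 0, fun r => ?_⟩
  rw [hu r, List.length_append, List.length_singleton, Finset.sum_range_succ]
  beta_reduce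
  rw [if_neg (lt_irrefl _), mul_zero, add_zero]
  refine Finset.sum_congr rfl fun a ha => ?_
  rw [Finset.mem_range] at ha
  rw [if_pos ha]
  have h1 : (C ++ [k]).getD a 0 = C.getD a 0 := List.getD_append _ _ _ _ ha
  simp only [h1]

theorem Dep.self (k : ℕ) : Dep A (C ++ [k]) k := by
  refine ⟨fun a => if a < C.length then 0 else 1, fun r => ?_⟩
  rw [List.length_append, List.length_singleton, Finset.sum_range_succ]
  beta_reduce
  rw [if_neg (lt_irrefl _), mul_one, Finset.sum_eq_zero, zero_add]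
  · have h1 : (C ++ [k]).getD C.length 0 = k := by
      rw [List.getD_append_right _ _ _ _ le_rfl]
      simp
    simp only [h1]
  · intro a ha
    rw [Finset.mem_range] at ha
    rw [if_pos ha, mul_zero]

/-- The rank. -/
theorem rank_eq {A : Matrix (Fin m) (Fin n) ℝ} {C : List ℕ} (hC : ∀ c ∈ C, c < n)
    (hdep : ∀ c : Fin n, ∃ u : Fin C.length → ℝ, ∀ r, A r c = colsA (fun i => A i) C r ⬝ᵥ u)
    (hind : ∀ x : Fin C.length → ℝ, (∀ r, colsA (fun i => A i) C r ⬝ᵥ x = 0) → x = 0) :
    A.rank = C.length := by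
  choose u hu using hdep
  set B : Matrix (Fin m) (Fin C.length) ℝ := Matrix.of fun i => colsA (fun i => A i) C i with hB
  have h1 : A = B * Matrix.of (fun a c => u c a) := by
    ext r c
    rw [hu c r, mul_apply, dotProduct]
    rfl
  have h2 : B = A * Matrix.of (fun j c => if j = (⟨C[((c : Fin C.length) : ℕ)],
      hC _ (List.getElem_mem _)⟩ : Fin n) then (1 : ℝ) else 0) := by
    ext r c
    rw [mul_apply, hB, of_apply, colsA_eq hC]
    simp [of_apply]
  have h3 : B.rank = C.length := by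
    unfold Matrix.rank
    rw [LinearMap.finrank_range_of_inj]
    · simp
    · rw [← LinearMap.ker_eq_bot, LinearMap.ker_eq_bot']
      intro x hx
      exact hind x fun r => congrFun hx r
  refine le_antisymm ?_ ?_
  · rw [h1]
    exact (rank_mul_le_left _ _).trans h3.le
  · rw [← h3]
    conv_lhs => rw [h2]
    exact rank_mul_le_left _ _

end Cols

end Pool.Agent.H682.CP
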