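import Pool.Agent.H682.CP.Pert2
import Pool.Agent.H682.CP.Rank

set_option autoImplicit false

/-!
# The algorithm
-/

namespace Pool.Agent.H682.CP

open Matrix Pool.Agent.H558R2 Pool.Agent.H622R3.SM Pool.Agent.H682.CH Filter

/-- States: rows and columns of the basis, the number of columns which have been considered, and
the labels; the state of the snake algorithm. -/
abbrev St : Type := ((List ℕ × List ℕ) × (ℕ × List Bool)) × Ctl

/-- The answer to a question about the perturbed instances. -/
def ansM (D : ℕ) (ans : List Outcome) (j : ℕ) : Outcome :=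
  firstS ((List.range (D + 1)).map fun k => ans.getD (j * (D + 1) + k) none)

/-- The answers for the snake algorithm. -/
def g2 (m n : ℕ) (τ : List Bool) (D : ℕ) (ans : List Outcome) (i w : ℕ) : Outcome :=
  if w = 0 then some (ty τ i)
  else if w ≤ n then (if i % 2 = 0 then none else some true)
  else if w = n + 1 then none
  else ansM D ans (i * (m + n + 3) + w)

/-- A new row of the basis. -/
def newRow (m : ℕ) (L : List ℕ) (g : ℕ → Outcome) : Option ℕ :=
  ((List.range m).filter fun i => !decide (i ∈ L) && (g i).isSome).head?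

/-- The list with one element replaced. -/
def setL (L : List ℕ) (p i : ℕ) : List ℕ := L.zipIdx.map fun q => if q.2 = p then i else q.1

theorem setL_eq (L : List ℕ) (p i : ℕ) : setL L p i = L.set p i := by
  unfold setL
  refine List.ext_getElem (by simp) fun a h1 h2 => ?_
  rw [List.getElem_map, List.getElem_zipIdx, List.getElem_set]
  simp only [zero_add]
  by_cases h : a = p
  · rw [if_pos h, if_pos h.symm]
  · rw [if_neg h, if_neg (fun h' => h h'.symm)]

/-- The number of questions about the perturbed instances in a round. -/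
def Q0 (m n : ℕ) : ℕ := 2 * m * (2 * m + n + 3)

/-- The questions of the first phase. -/
def qA (m n : ℕ) (c : St) (j : ℕ) : List (ℕ × ℕ) :=
  trq m n (c.1.1.2 ++ [c.1.2.1]) (lq m (c.1.1.2 ++ [c.1.2.1]).length (c.1.1.1 ++ [j]))

/-- The questions for the labels. -/
def qB (m n : ℕ) (c : St) (j : ℕ) : List (ℕ × ℕ) :=
  if c.1.1.2.isEmpty = true then [(j, m + (n + n))]
  else trq m n c.1.1.2 (lq m c.1.1.2.length (if j % (c.1.1.2.length + 1) < c.1.1.2.length then
    setL c.1.1.1 (j % (c.1.1.2.length + 1)) (j / (c.1.1.2.length + 1)) else c.1.1.1))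

/-- The questions of the main phase. -/
def qC (m n : ℕ) (c : St) (j : ℕ) : List (ℕ × ℕ) :=
  trq (2 * m) n c.1.1.2 (qf (2 * m) c.1.1.2.length c.2.2.1 (j / (2 * m + c.1.1.2.length + 3))
    (j % (2 * m + c.1.1.2.length + 3)))

/-- The questions. -/
def qry2 (m n : ℕ) (c : St) (j : ℕ) : Qn :=
  if c.1.2.1 < n then (false, ([], (qA m n c (j / (degT m + 1)), 0)))
  else if c.1.2.2.isEmpty = true then (false, ([], (qB m n c (j / (degT m + 1)), 0)))
  else (true, (c.1.2.2, (qC m n c (j / (degT m + 1)), j % (degT m + 1))))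

/-- The new state in the first phase. -/
def uA (m : ℕ) (c : St) (g : ℕ → Outcome) : St :=
  ((newRow m c.1.1.1 g).map fun i =>
    (((c.1.1.1 ++ [i], c.1.1.2 ++ [c.1.2.1]), (c.1.2.1 + 1, c.1.2.2)), c.2)).getD
      ((c.1.1, (c.1.2.1 + 1, c.1.2.2)), c.2)

/-- The labels. -/
def uB (m : ℕ) (c : St) (g : ℕ → Outcome) : St :=
  if c.1.1.2.isEmpty = true then ((c.1.1, (c.1.2.1, [true])),
    ((((List.range m).all fun i => !decide (g i = some false)), false), c.2.2))
  else ((c.1.1, (c.1.2.1, tauL m (edges m c.1.1.2.length c.1.1.1 g))), c.2)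

/-- The main phase. -/
def uC (m r : ℕ) (c : St) (D : ℕ) (ans : List Outcome) : St :=
  if (c.1.1.2.isEmpty || !decide (r < 2 * m * (c.1.1.2.length * (2 * m) + 3))) = true then c
  else (c.1, stepA (2 * m) c.1.1.2.length (min (r / (c.1.1.2.length * (2 * m) + 3)) (2 * m))
    (r % (c.1.1.2.length * (2 * m) + 3)) c.2 (g2 (2 * m) c.1.1.2.length c.1.2.2 D ans))

/-- The new state. -/
def upd2 (m n r : ℕ) (c : St) (ans : List Outcome) : St :=
  if c.1.2.1 < n then uA m c (ansM (degT m) ans)
  else if c.1.2.2.isEmpty = true then uB m c (ansM (degT m) ans)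
  else uC m (r - (n + 1)) c (degT m) ans

/-- The strategy. -/
def strat2 : Strat St Qn where
  init := ((([], []), (0, [])), ((true, false), ([], ([], []))))
  qry := qry2
  upd := upd2
  fin c := c.2.1.1
  B m n := Q0 m n * (degT m + 1)
  T m n := n + 1 + 2 * m * (n * (2 * m) + 3)

/-! ### The run of the snake algorithm -/

theorem run_abs {n M : ℕ} {S : Sys n} (hM : S.m = M) (hn : 0 < n) (ctl : ℕ → Ctl)
    (h0 : ctl 0 = ((true, false), ([], ([], []))))
    (hstep : ∀ R < M, ∀ φ < n * M + 3, ∃ g, Truth S (ctl (R * (n * M + 3) + φ)).2.1 g ∧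
      ctl (R * (n * M + 3) + φ + 1) = stepA M n R φ (ctl (R * (n * M + 3) + φ)) g) :
    ∀ R ≤ M, S.Ok (S.Inv0 R) (ctl (R * (n * M + 3))) := by
  intro R
  induction R with
  | zero =>
    intro _
    rw [zero_mul, h0]
    left
    refine ⟨rfl, ⟨0, fun i hi => by omega⟩, fun ρ => ?_⟩
    left
    refine ⟨hn, ?_⟩
    cases ρ <;> rfl
  | succ R ih =>
    intro hR
    have h0 := ih (by omega)
    have hRm : R < S.m := by rw [hM]; exact hR
    have hty : ∀ {K K' : List ℕ} {g g' : ℕ → ℕ → Outcome}, Truth S K g → Truth S K' g' →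
        tyB g R = tyB g' R := by
      intro K K' g g' h1 h2
      rw [Bool.eq_iff_iff, h1.ty R hRm, h2.ty R hRm]
    -- phase 0
    obtain ⟨g0, hT0, e0⟩ := hstep R hR 0 (by omega)
    rw [add_zero] at hT0 e0
    have h1 : S.Ok (S.Inv1 R (tyB g0 R)) (ctl (R * (n * M + 3) + 1)) := by
      rw [e0]
      refine CH.Ok.step h0 fun hI hc => ?_
      have := Sys.step0_ok hT0 hI hc
      rw [hM] at this
      exact this
    obtain ⟨g1, hT1, e1⟩ := hstep R hR 1 (by omega)
    rw [hty hT0 hT1] at h1
    have h2 : S.Ok (S.Inv2 R (tyB g1 R)) (ctl (R * (n * M + 3) + 1 + 1)) := by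
      rw [e1]
      exact CH.Ok.step h1 fun hI hc => Sys.step1_ok hT1 hRm hI hc
    obtain ⟨g2, hT2, e2⟩ := hstep R hR 2 (by omega)
    rw [hty hT1 hT2] at h2
    have h3 : S.Ok (S.Inv3 R 0 (tyB g2 R)) (ctl (R * (n * M + 3) + 2 + 1)) := by
      rw [e2]
      exact CH.Ok.step h2 fun hI hc => Sys.step2_ok hT2 hRm hI hc
    have h4 : ∀ j, j ≤ n * M →
        S.Ok (S.Inv3 R j (tyB g2 R)) (ctl (R * (n * M + 3) + (3 + j))) := by
      intro j
      induction j with
      | zero => intro _; exact h3
      | succ j ihj =>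
        intro hj
        have h5 := ihj (by omega)
        obtain ⟨g3, hT3, e3⟩ := hstep R hR (3 + j) (by omega)
        rw [hty hT2 hT3] at h5 ⊢
        have e4 : R * (n * M + 3) + (3 + (j + 1)) = R * (n * M + 3) + (3 + j) + 1 := by omega
        rw [e4, e3]
        refine CH.Ok.step h5 fun hI hc => ?_
        have e5 : stepA M n R (3 + j) (ctl (R * (n * M + 3) + (3 + j))) g3 =
            step3 n R (ctl (R * (n * M + 3) + (3 + j))) g3 := by
          unfold stepA
          rw [if_neg (by omega), if_neg (by omega), if_neg (by omega)]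
        rw [e5]
        exact Sys.step3_ok hT3 hRm hI hc
    have h5 := h4 (n * M) le_rfl
    have e6 : (R + 1) * (n * M + 3) = R * (n * M + 3) + (3 + n * M) := by ring
    rw [e6]
    rcases h5 with ⟨h6, h7⟩ | h6
    · left
      refine ⟨h6, Sys.inv3_end hRm (ρ := tyB g2 R) ?_⟩
      rw [hM]
      exact h7
    · exact Or.inr h6

theorem run_end {n M : ℕ} {S : Sys n} (hM : S.m = M) (hn : 0 < n) (ctl : ℕ → Ctl)
    (h0 : ctl 0 = ((true, false), ([], ([], []))))
    (hstep : ∀ R < M, ∀ φ < n * M + 3, ∃ g, Truth S (ctl (R * (n * M + 3) + φ)).2.1 g ∧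
      ctl (R * (n * M + 3) + φ + 1) = stepA M n R φ (ctl (R * (n * M + 3) + φ)) g) :
    (ctl (M * (n * M + 3))).1.1 = true ↔ S.Feas S.m := by
  have h1 := run_abs hM hn ctl h0 hstep M le_rfl
  rcases h1 with ⟨h2, h3⟩ | ⟨h2, h3⟩
  · rw [hM]
    exact ⟨fun _ => h3.1, fun _ => h2⟩
  · refine ⟨fun h4 => ?_, fun h4 => absurd h4 h3⟩
    rw [h2] at h4
    exact absurd h4 (by simp)

/-! ### The answers -/

theorem firstS_const (D : ℕ) (o : Outcome) : firstS ((List.range (D + 1)).map fun _ => o) = o := by
  cases o with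
  | none =>
    refine firstS_none fun o ho => ?_
    rw [List.mem_map] at ho
    obtain ⟨_, _, rfl⟩ := ho
    rfl
  | some b =>
    rw [List.range_succ_eq_map, List.map_cons]
    exact firstS_append (A := []) (by simp) (by simp)

section Run

variable {m n : ℕ} (a : Inp m n)

/-- The answers of a round. -/
noncomputable def tans (c : St) : List Outcome :=
  (List.range (Q0 m n * (degT m + 1))).map fun j => signOut (qk.val a (qry2 m n c j))

theorem ansM_tans (c : St) {j : ℕ} (hj : j < Q0 m n) : ansM (degT m) (tans a c) j =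
    firstS ((List.range (degT m + 1)).map fun k =>
      signOut (qk.val a (qry2 m n c (j * (degT m + 1) + k)))) := by
  unfold ansM tans
  congr 1
  refine List.map_congr_left fun k hk => ?_
  rw [List.mem_range] at hk
  have h1 : j * (degT m + 1) + k < Q0 m n * (degT m + 1) := by
    calc j * (degT m + 1) + k < j * (degT m + 1) + (degT m + 1) := by omega
      _ = (j + 1) * (degT m + 1) := by ring
      _ ≤ Q0 m n * (degT m + 1) := Nat.mul_le_mul_right _ hj
  rw [List.getD_eq_getElem _ _ (by simpa using h1), List.getElem_map, List.getElem_range]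

theorem idx_div {D j k : ℕ} (hk : k < D + 1) : (j * (D + 1) + k) / (D + 1) = j := by
  rw [mul_comm, Nat.mul_add_div (by omega), Nat.div_eq_of_lt hk, add_zero]

theorem idx_mod {D j k : ℕ} (hk : k < D + 1) : (j * (D + 1) + k) % (D + 1) = k := by
  rw [mul_comm, Nat.mul_add_mod, Nat.mod_eq_of_lt hk]

theorem ans_plain {c : St} {j : ℕ} (hj : j < Q0 m n) {q : List (ℕ × ℕ)}
    (h : ∀ k < degT m + 1, qry2 m n c (j * (degT m + 1) + k) = (false, ([], (q, 0)))) :
    ansM (degT m) (tans a c) j = signOut (mv a.1 a.2 q) := by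
  rw [ansM_tans a c hj]
  have h1 : ((List.range (degT m + 1)).map fun k =>
      signOut (qk.val a (qry2 m n c (j * (degT m + 1) + k)))) =
      (List.range (degT m + 1)).map fun _ => signOut (mv a.1 a.2 q) := by
    refine List.map_congr_left fun k hk => ?_
    rw [List.mem_range] at hk
    rw [h k hk]
    rfl
  rw [h1, firstS_const]

/-- Phase 1. -/
theorem ansA {c : St} (hc : c.1.2.1 < n) {j : ℕ} (hj : j < Q0 m n) :
    ansM (degT m) (tans a c) j = signOut (mv a.1 a.2 (qA m n c j)) := by
  refine ans_plain a hj fun k hk => ?_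
  unfold qry2
  rw [if_pos hc, idx_div hk]

/-- The round for the labels. -/
theorem ansB {c : St} (hc : ¬ c.1.2.1 < n) (hτ : c.1.2.2 = []) {j : ℕ} (hj : j < Q0 m n) :
    ansM (degT m) (tans a c) j = signOut (mv a.1 a.2 (qB m n c j)) := by
  refine ans_plain a hj fun k hk => ?_
  unfold qry2
  rw [if_neg hc, if_pos (by rw [hτ]; rfl), idx_div hk]

/-- The main phase. -/
theorem ansC {c : St} (hc : ¬ c.1.2.1 < n) (hτ : c.1.2.2 ≠ []) {j : ℕ} (hj : j < Q0 m n)
    {t : ℕ} (ht : signOut (pmin c.1.2.2 (qC m n c j) a t) = firstS ((List.range (degT m + 1)).map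
      fun e => signOut (dif (pmin c.1.2.2 (qC m n c j) a) (degT m - e) 0))) :
    ansM (degT m) (tans a c) j = signOut (mv (pin c.1.2.2 a t).1 (pin c.1.2.2 a t).2
      (qC m n c j)) := by
  rw [ansM_tans a c hj]
  have h2 : signOut (mv (pin c.1.2.2 a t).1 (pin c.1.2.2 a t).2 (qC m n c j)) =
      signOut (pmin c.1.2.2 (qC m n c j) a t) := rfl
  rw [h2, ht]
  congr 1
  refine List.map_congr_left fun k hk => ?_
  rw [List.mem_range] at hk
  have h1 : qry2 m n c (j * (degT m + 1) + k) = (true, (c.1.2.2, (qC m n c j, k))) := by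
    unfold qry2
    rw [if_neg hc, if_neg (by rw [List.isEmpty_iff]; exact hτ), idx_div hk, idx_mod hk]
  rw [h1]
  rfl

theorem tst_succ (r : ℕ) : strat2.tst qk a (r + 1) =
    upd2 m n r (strat2.tst qk a r) (tans a (strat2.tst qk a r)) := rfl

theorem mv_nil (A : Fin m → Fin n → ℝ) (b : Fin m → ℝ) : mv A b (lq m n []) = 1 := by
  rw [mv_eq_det]
  have : Wl A b [] = 1 := by
    ext r j
    rw [w_lq List.nodup_nil (Nat.zero_le _), dif_neg (by simp), one_apply]
  rw [this, det_one]

theorem mQ0 {j : ℕ} (hj : j < m) : j < Q0 m n := by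
  unfold Q0
  nlinarith

/-- The first phase. -/
theorem phaseA : ∀ k ≤ n, ∃ L C : List ℕ,
    strat2.tst qk a k = (((L, C), (k, [])), ((true, false), ([], ([], [])))) ∧
    L.length = C.length ∧ L.Nodup ∧ (∀ j ∈ L, j < m) ∧ (∀ c ∈ C, c < k) ∧
    mv (colsA a.1 C) a.2 (lq m C.length L) ≠ 0 ∧ ∀ c < k, Dep a.1 C c := by
  intro k
  induction k with
  | zero =>
    intro _
    refine ⟨[], [], rfl, rfl, List.nodup_nil, by simp, by simp, ?_, by simp⟩
    exact ne_of_eq_of_ne (mv_nil (colsA a.1 []) a.2) one_ne_zero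
  | succ k ih =>
    intro hkn
    obtain ⟨L, C, h1, h2, h3, h4, h5, h6, h7⟩ := ih (by omega)
    set c := strat2.tst qk a k with hc
    have hk : c.1.2.1 < n := by rw [h1]; exact hkn
    have hCn : ∀ x ∈ C ++ [k], x < n := by
      intro x hx
      rw [List.mem_append, List.mem_singleton] at hx
      rcases hx with hx | rfl
      · exact (h5 x hx).trans hkn
      · exact hkn
    have hans : ∀ i < m, ansM (degT m) (tans a c) i =
        signOut (mv (colsA a.1 (C ++ [k])) a.2 (lq m (C ++ [k]).length (L ++ [i]))) := by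
      intro i hi
      rw [ansA a hk (mQ0 hi)]
      unfold qA
      rw [h1]
      simp only
      rw [mv_trq hCn (goodQ_lq _ _ _)]
    have e : strat2.tst qk a (k + 1) = uA m c (ansM (degT m) (tans a c)) := by
      rw [tst_succ, ← hc]
      unfold upd2
      rw [if_pos hk]
    rw [e]
    unfold uA
    cases hrow : newRow m c.1.1.1 (ansM (degT m) (tans a c)) with
    | some i =>
      rw [Option.map_some, Option.getD_some]
      unfold newRow at hrow
      have hi2 := List.mem_of_mem_head? hrow
      have hL : c.1.1.1 = L := by rw [h1]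
      rw [hL, List.mem_filter, List.mem_range, Bool.and_eq_true] at hi2
      obtain ⟨k1, k2, k3⟩ := hi2
      rw [hans i k1, Option.isSome_iff_ne_none, Ne, signOut_none] at k3
      have k2 : i ∉ L := by simpa using k2
      refine ⟨L ++ [i], C ++ [k], by rw [h1], ?_, ?_, ?_, ?_, k3, ?_⟩
      · rw [List.length_append, List.length_append, h2]
        rfl
      · rw [List.nodup_append]
        refine ⟨h3, by simp, ?_⟩
        intro a ha c hc
        rw [List.mem_singleton] at hc
        rw [hc]
        rintro rfl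
        exact k2 ha
      · intro j hj
        rw [List.mem_append, List.mem_singleton] at hj
        rcases hj with hj | rfl
        · exact h4 j hj
        · exact k1
      · intro x hx
        rw [List.mem_append, List.mem_singleton] at hx
        rcases hx with hx | rfl
        · have := h5 x hx
          omega
        · omega
      · intro x hx
        rcases Nat.lt_succ_iff_lt_or_eq.1 hx with hx | rfl
        · exact (h7 x hx).append
        · exact Dep.self x
    | none =>
      rw [Option.map_none, Option.getD_none]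
      have hL : c.1.1.1 = L := by rw [h1]
      refine ⟨L, C, by rw [h1], h2, h3, h4, fun x hx => (h5 x hx).trans (Nat.lt_succ_self k), h6,
        ?_⟩
      intro x hx
      rcases Nat.lt_succ_iff_lt_or_eq.1 hx with hx | rfl
      · exact h7 x hx
      · refine (dep_iff hkn).2 (dep_col h3 h2 h4 h6 hkn fun i hi hiL => ?_)
        by_contra hne
        unfold newRow at hrow
        rw [List.head?_eq_none_iff] at hrow
        have hmem : i ∈ (List.range m).filter fun i => !decide (i ∈ c.1.1.1) &&
            (ansM (degT m) (tans a c) i).isSome := by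
          rw [List.mem_filter, List.mem_range, Bool.and_eq_true, hans i hi,
            Option.isSome_iff_ne_none, hL]
          exact ⟨hi, by simpa using hiL, fun h => hne (signOut_none.1 h)⟩
        rw [hrow] at hmem
        simp at hmem

variable {σ : ℝ} {τ0 : ℕ → Bool} {L C : List ℕ}

/-- The labels. -/
theorem phaseB (hm : 1 ≤ m)
    (h1 : strat2.tst qk a n = (((L, C), (n, [])), ((true, false), ([], ([], [])))))
    (h2 : L.length = C.length) (h3 : L.Nodup) (h4 : ∀ j ∈ L, j < m) (h6 : ∀ c ∈ C, c < n)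
    (h5 : mv (colsA a.1 C) a.2 (lq m C.length L) ≠ 0) (hCn : C.length ≤ n) (hC0 : C ≠ [])
    (hV : Weak C.length m (fun i => sg (τ0 i) • An (colsA a.1 C) i) σ) :
    ∃ (τ : List Bool) (σ' : ℝ),
      strat2.tst qk a (n + 1) = (((L, C), (n, τ)), ((true, false), ([], ([], [])))) ∧
      τ ≠ [] ∧ Weak C.length m (fun i => sg (tf τ i) • An (colsA a.1 C) i) σ' := by
  set c := strat2.tst qk a n with hc
  have hnlt : ¬ c.1.2.1 < n := by rw [h1]; exact lt_irrefl n
  have hτe : c.1.2.2 = [] := by rw [h1]
  have hCe : ¬ c.1.1.2.isEmpty = true := by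
    rw [h1, List.isEmpty_iff]
    exact hC0
  set g := ansM (degT m) (tans a c) with hg
  have hL : c.1.1.1 = L := by rw [h1]
  have hC : c.1.1.2 = C := by rw [h1]
  have hgv : ∀ j, j < Q0 m n → g j = signOut (mv (colsA a.1 C) a.2 (lq m C.length
      (if j % (C.length + 1) < C.length then L.set (j % (C.length + 1)) (j / (C.length + 1))
        else L))) := by
    intro j hj
    rw [hg, ansB a hnlt hτe hj]
    unfold qB
    rw [if_neg hCe, hC, hL, setL_eq, mv_trq h6 (goodQ_lq _ _ _)]
  have hg1 : ∀ i < m, ∀ p < C.length, g (i * (C.length + 1) + p) =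
      signOut (mv (colsA a.1 C) a.2 (lq m C.length (L.set p i))) := by
    intro i hi p hp
    have hj : i * (C.length + 1) + p < Q0 m n := by
      unfold Q0
      calc i * (C.length + 1) + p < i * (C.length + 1) + (C.length + 1) := by omega
        _ = (i + 1) * (C.length + 1) := by ring
        _ ≤ m * (C.length + 1) := Nat.mul_le_mul_right _ hi
        _ ≤ 2 * m * (2 * m + n + 3) := Nat.mul_le_mul (by omega) (by omega)
    rw [hgv _ hj, idx_mod (by omega), idx_div (by omega), if_pos hp]
  have hgn : g C.length = signOut (mv (colsA a.1 C) a.2 (lq m C.length L)) := by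
    have hj : C.length < Q0 m n := by
      unfold Q0
      have : 1 * (2 * m + n + 3) ≤ 2 * m * (2 * m + n + 3) := Nat.mul_le_mul_right _ (by omega)
      omega
    have e1 : C.length % (C.length + 1) = C.length := Nat.mod_eq_of_lt (Nat.lt_succ_self _)
    rw [hgv _ hj, e1, if_neg (lt_irrefl _)]
  have hind : ∀ x : Fin C.length → ℝ,
      (∀ r : Fin m, (r : ℕ) ∈ L → colsA a.1 C r ⬝ᵥ x = 0) → x = 0 :=
    fun x hx => indep_of_mv h3 h2 h4 h5 hx
  have hs0 : Sol (edges m C.length L g) τ0 :=
    (sol_iff h3 h2 h4 h5 hg1 hgn τ0).2 (goodLab_of_weak h3 h2 h4 hind hV)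
  have hsym : ∀ e ∈ edges m C.length L g, ∃ e' ∈ edges m C.length L g,
      e'.1 = e.2.1 ∧ e'.2.1 = e.1 := by
    intro e he
    obtain ⟨i, hi, p, hp, k1, k2, rfl | rfl⟩ := mem_edges.1 he
    · exact ⟨_, mem_edges.2 ⟨i, hi, p, hp, k1, k2, Or.inr rfl⟩, rfl, rfl⟩
    · exact ⟨_, mem_edges.2 ⟨i, hi, p, hp, k1, k2, Or.inl rfl⟩, rfl, rfl⟩
  have hlt : ∀ e ∈ edges m C.length L g, e.1 < m := by
    intro e he
    obtain ⟨i, hi, p, hp, k1, k2, rfl | rfl⟩ := mem_edges.1 he
    · exact hi
    · simp only
      rw [List.getD_eq_getElem _ _ (by omega)]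
      exact h4 _ (List.getElem_mem _)
  have hs1 := tauL_ok hsym hlt hs0
  have hG := (sol_iff h3 h2 h4 h5 hg1 hgn _).1 hs1
  obtain ⟨σ', hW⟩ := weak_of_goodLab h3 h2 h4 hind hV hG
  refine ⟨tauL m (edges m C.length L g), σ', ?_, ?_, hW⟩
  · rw [tst_succ, ← hc]
    unfold upd2 uB
    rw [if_neg hnlt, if_pos (by rw [hτe]; rfl), if_neg hCe, ← hg, hL, hC, h1]
  · intro h
    have h6 := congrArg List.length h
    unfold tauL at h6
    rw [List.length_map, List.length_range, List.length_nil] at h6
    omega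

/-- The chosen columns of the perturbed instance. -/
theorem pin_cols (hC : ∀ c ∈ C, c < n) (τ : List Bool) (t : ℕ) :
    colsA (pin τ a t).1 C = (pin τ ((colsA a.1 C, a.2) : Inp m C.length) t).1 ∧
      (pin τ a t).2 = (pin τ ((colsA a.1 C, a.2) : Inp m C.length) t).2 := by
  have hps : ∀ (c : Fin C.length) (i : ℕ), psum τ a t i C[(c : ℕ)] m =
      psum τ ((colsA a.1 C, a.2) : Inp m C.length) t i c m := by
    intro c i
    have hc : C[(c : ℕ)] < n := hC _ (List.getElem_mem _)
    have h1 := psum_eq τ a t i ⟨C[(c : ℕ)], hc⟩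
    simp only at h1
    rw [h1, psum_eq]
    refine Finset.sum_congr rfl fun j _ => ?_
    simp only
    rw [colsA_eq hC]
  constructor
  · funext r c
    rw [colsA_eq hC]
    unfold pin
    simp only
    rw [hps]
  · rfl

/-- The answer is correct, for positive rank. -/
theorem fin_iff1 (hm : 1 ≤ m)
    (h1 : strat2.tst qk a n = (((L, C), (n, [])), ((true, false), ([], ([], [])))))
    (h2 : L.length = C.length) (h3 : L.Nodup) (h4 : ∀ j ∈ L, j < m) (h6 : ∀ c ∈ C, c < n)
    (h5 : mv (colsA a.1 C) a.2 (lq m C.length L) ≠ 0) (hCn : C.length ≤ n) (hC0 : C ≠ [])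
    (hV : Weak C.length m (fun i => sg (τ0 i) • An (colsA a.1 C) i) σ) :
    strat2.fin (strat2.tst qk a (strat2.T m n)) = true ↔
      ∃ x : Fin C.length → ℝ, ∀ i, a.2 i ≤ colsA a.1 C i ⬝ᵥ x := by
  obtain ⟨τ, σ', k1, k2, hW⟩ := phaseB a hm h1 h2 h3 h4 h6 h5 hCn hC0 hV
  have hr : 0 < C.length := List.length_pos_iff.2 hC0
  set N := C.length with hN
  set P := N * (2 * m) + 3 with hP
  set a' : Inp m N := (colsA a.1 C, a.2) with ha'
  -- the state in the main phase
  have hup : ∀ (k : ℕ) (c : St), c.1 = ((L, C), (n, τ)) → ∀ ans,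
      upd2 m n (n + 1 + k) c ans = uC m k c (degT m) ans := by
    intro k c hc ans
    unfold upd2
    rw [if_neg (by rw [hc]; exact lt_irrefl n), if_neg (by
      rw [hc, List.isEmpty_iff]
      exact k2), Nat.add_sub_cancel_left]
  have hst : ∀ k, (strat2.tst qk a (n + 1 + k)).1 = ((L, C), (n, τ)) := by
    intro k
    induction k with
    | zero => rw [add_zero, k1]
    | succ k ih =>
      rw [← add_assoc, tst_succ, hup k _ ih]
      unfold uC
      split_ifs
      · exact ih
      · exact ih
  -- choice of the parameter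
  have hev : ∀ᶠ t : ℕ in atTop, ∀ k ∈ Finset.range (2 * m * P), ∀ j ∈ Finset.range (Q0 m n),
      signOut (pmin τ (qC m n (strat2.tst qk a (n + 1 + k)) j) a t) =
      firstS ((List.range (degT m + 1)).map fun e =>
      signOut (dif (pmin τ (qC m n (strat2.tst qk a (n + 1 + k)) j) a) (degT m - e) 0)) := by
    rw [eventually_all_finset]
    intro k _
    rw [eventually_all_finset]
    intro j _
    exact pmin_eventually τ a _
  have hev2 : ∀ᶠ t : ℕ in atTop, ∀ i : Fin m, a'.2 i ≤ t := by
    rw [eventually_all]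
    intro i
    exact tendsto_natCast_atTop_atTop.eventually (eventually_ge_atTop (a'.2 i))
  obtain ⟨t, ht1, ht2, ht3, ht4⟩ := (hev.and (hev2.and ((pf_eventually τ a' hm).and
    (eventually_ge_atTop 2)))).exists
  change _ ↔ ∃ x : Fin N → ℝ, ∀ i, a'.2 i ≤ a'.1 i ⬝ᵥ x
  rw [← ht3, ← pS_feas (hV := hW) (hn := hr) (ht := ht4)]
  set S := pS τ a' hW hr t ht4 with hS
  have hfin : strat2.fin (strat2.tst qk a (strat2.T m n)) =
      (strat2.tst qk a (n + 1 + 2 * m * P)).2.1.1 := by
    have hT : ∀ d, strat2.tst qk a (n + 1 + (2 * m * P + d)) =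
        strat2.tst qk a (n + 1 + 2 * m * P) := by
      intro d
      induction d with
      | zero => rfl
      | succ d ih =>
        rw [← ih, ← add_assoc (2 * m * P), ← add_assoc (n + 1), tst_succ, hup _ _ (hst _)]
        unfold uC
        rw [if_pos]
        rw [hst, Bool.or_eq_true, Bool.not_eq_true', decide_eq_false_iff_not]
        right
        simp only
        rw [← hN, ← hP]
        omega
    have hle : 2 * m * P ≤ 2 * m * (n * (2 * m) + 3) :=
      Nat.mul_le_mul_left _ (Nat.add_le_add_right (Nat.mul_le_mul_right _ hCn) 3)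
    obtain ⟨d, hd⟩ := Nat.exists_eq_add_of_le hle
    have e1 : strat2.T m n = n + 1 + (2 * m * P + d) := by
      rw [← hd]
      rfl
    rw [e1, hT d]
    rfl
  rw [hfin]
  refine run_end (S := S) (M := 2 * m) rfl hr (fun k => (strat2.tst qk a (n + 1 + k)).2) ?_ ?_
  · rw [add_zero, k1]
  · intro R hR φ hφ
    rw [← hP] at hφ ⊢
    set k := R * P + φ with hk
    have hkT : k < 2 * m * P := by
      calc k < R * P + P := by omega
        _ = (R + 1) * P := by ring
        _ ≤ 2 * m * P := Nat.mul_le_mul_right _ hR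
    set c := strat2.tst qk a (n + 1 + k) with hc
    have hc1 : c.1 = ((L, C), (n, τ)) := hst k
    have hc11 : ¬ c.1.2.1 < n := by rw [hc1]; exact lt_irrefl n
    have hc12 : c.1.2.2 ≠ [] := by rw [hc1]; exact k2
    have hcτ : c.1.2.2 = τ := by rw [hc1]
    have hcC : c.1.1.2 = C := by rw [hc1]
    refine ⟨g2 (2 * m) N τ (degT m) (tans a c), ?_, ?_⟩
    · have key : ∀ i < 2 * m, ∀ w, N + 1 < w → w < 2 * m + N + 3 →
          GoodQ (2 * m) N (qf (2 * m) N c.2.2.1 i w) →
          g2 (2 * m) N τ (degT m) (tans a c) i w = signOut (mv (pin τ a' t).1 (pin τ a' t).2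
            (qf (2 * m) N c.2.2.1 i w)) := by
        intro i hi w hw1 hw2 hgood
        have hj : i * (2 * m + N + 3) + w < Q0 m n := by
          unfold Q0
          calc i * (2 * m + N + 3) + w < i * (2 * m + N + 3) + (2 * m + N + 3) := by omega
            _ = (i + 1) * (2 * m + N + 3) := by ring
            _ ≤ 2 * m * (2 * m + N + 3) := Nat.mul_le_mul_right _ hi
            _ ≤ 2 * m * (2 * m + n + 3) := Nat.mul_le_mul_left _ (by omega)
        have e1 : (i * (2 * m + N + 3) + w) / (2 * m + N + 3) = i := by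
          rw [mul_comm, Nat.mul_add_div (by omega), Nat.div_eq_of_lt hw2, add_zero]
        have e2 : (i * (2 * m + N + 3) + w) % (2 * m + N + 3) = w := by
          rw [mul_comm, Nat.mul_add_mod, Nat.mod_eq_of_lt hw2]
        have e3 : qC m n c (i * (2 * m + N + 3) + w) =
            trq (2 * m) n C (qf (2 * m) N c.2.2.1 i w) := by
          unfold qC
          rw [hcC, ← hN, e1, e2]
        have h4 := ansC a hc11 hc12 hj (t := t) (by
          rw [hcτ]
          exact ht1 k (Finset.mem_range.2 hkT) _ (Finset.mem_range.2 hj))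
        rw [e3, hcτ, mv_trq h6 hgood, (pin_cols a h6 τ t).1, (pin_cols a h6 τ t).2] at h4
        unfold g2
        rw [if_neg (by omega), if_neg (by omega), if_neg (by omega)]
        exact h4
      refine pS_truth ht2 ?_ ?_ ?_ ?_ ?_
      · intro i _
        unfold g2
        rw [if_pos rfl]
      · intro i _ w hw1 hw2
        unfold g2
        rw [if_neg (by omega), if_pos hw2]
      · intro i _
        unfold g2
        rw [if_neg (by omega), if_neg (by omega), if_pos rfl]
      · intro i hi
        have e1 : qf (2 * m) N c.2.2.1 i (N + 2) = lq (2 * m) N (c.2.2.1 ++ [i]) := by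
          unfold qf
          rw [if_neg (by omega), if_neg (by omega), if_neg (by omega), if_pos rfl]
        rw [key i hi (N + 2) (by omega) (by omega) (by rw [e1]; exact goodQ_lq _ _ _), e1]
      · intro i hi k' hk'
        have e2 : qf (2 * m) N c.2.2.1 i (N + 3 + k') =
            lq (2 * m) N (c.2.2.1 ++ [i]) ++ [(k', 2 * m + (N + N))] := by
          unfold qf
          rw [if_neg (by omega), if_neg (by omega), if_neg (by omega), if_neg (by omega),
            Nat.add_sub_cancel_left]
        rw [key i hi (N + 3 + k') (by omega) (by omega) (by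
          rw [e2]
          intro p hp
          rw [List.mem_append, List.mem_singleton] at hp
          rcases hp with hp | rfl
          · exact goodQ_lq _ _ _ p hp
          · simp only
            omega), e2]
    · rw [← add_assoc, tst_succ, ← hc, hup k c hc1]
      unfold uC
      have h5 : k / P = R := by
        rw [hk, mul_comm, Nat.mul_add_div (by omega), Nat.div_eq_of_lt hφ, add_zero]
      have h6 : k % P = φ := by
        rw [hk, mul_comm, Nat.mul_add_mod, Nat.mod_eq_of_lt hφ]
      rw [hcC, hcτ, ← hN, ← hP, if_neg, h5, h6, min_eq_left hR.le]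
      rw [Bool.or_eq_true, Bool.not_eq_true', decide_eq_false_iff_not, List.isEmpty_iff]
      rintro (h | h)
      · exact hC0 h
      · exact h hkT

/-- The answer is correct, for rank `0`. -/
theorem fin_iff0 (h1 : strat2.tst qk a n = (((L, C), (n, [])), ((true, false), ([], ([], [])))))
    (hC0 : C = []) : strat2.fin (strat2.tst qk a (strat2.T m n)) = true ↔ ∀ i, a.2 i ≤ 0 := by
  subst hC0
  set c := strat2.tst qk a n with hc
  have hnlt : ¬ c.1.2.1 < n := by rw [h1]; exact lt_irrefl n
  have hτe : c.1.2.2 = [] := by rw [h1]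
  have hCe : c.1.1.2.isEmpty = true := by rw [h1]; rfl
  set al := (List.range m).all fun i => !decide (ansM (degT m) (tans a c) i = some false) with hal
  have h2 : strat2.tst qk a (n + 1) = (((L, []), (n, [true])), ((al, false), ([], ([], [])))) := by
    rw [tst_succ, ← hc]
    unfold upd2 uB
    rw [if_neg hnlt, if_pos (by rw [hτe]; rfl), if_pos hCe, ← hal, h1]
  have hT : ∀ d, strat2.tst qk a (n + 1 + d) = strat2.tst qk a (n + 1) := by
    intro d
    induction d with
    | zero => rfl
    | succ d ih =>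
      rw [← add_assoc, tst_succ, ih, h2]
      unfold upd2 uC
      rw [if_neg (lt_irrefl n), if_neg (by simp), if_pos (by simp)]
  have hfin : strat2.fin (strat2.tst qk a (strat2.T m n)) = al := by
    have e1 : strat2.T m n = n + 1 + 2 * m * (n * (2 * m) + 3) := rfl
    rw [e1, hT, h2]
    rfl
  rw [hfin, hal, List.all_eq_true]
  have key : ∀ i : Fin m, ansM (degT m) (tans a c) i = signOut (-a.2 i) := by
    intro i
    rw [ansB a hnlt hτe (mQ0 i.2)]
    unfold qB
    rw [if_pos hCe, mv_one, w_rhs]
  constructor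
  · intro h i
    have h3 := h i (List.mem_range.2 i.2)
    rw [Bool.not_eq_true', decide_eq_false_iff_not, key, signOut_false] at h3
    linarith
  · intro h i hi
    rw [List.mem_range] at hi
    have h3 := h ⟨i, hi⟩
    have h4 := key ⟨i, hi⟩
    simp only at h4
    rw [Bool.not_eq_true', decide_eq_false_iff_not, h4, signOut_false]
    linarith

end Run

/-! ### The class -/

/-- After sign changes of rows, for every choice of `A.rank` columns the maximal minors in these
columns (with increasing rows) have weakly the same sign. In other words, the column space of `A`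
is, up to sign changes of coordinates, a point of the totally nonnegative Grassmannian. -/
def SignCoherent (m n : ℕ) (A : Matrix (Fin m) (Fin n) ℝ) : Prop :=
  ∃ τ : Fin m → ℝ, (∀ i, τ i = 1 ∨ τ i = -1) ∧ ∀ C : Fin A.rank → Fin n,
    (∀ s : Fin A.rank → Fin m, StrictMono s →
      0 ≤ (Matrix.of fun k j => τ (s k) * A (s k) (C j)).det) ∨
    (∀ s : Fin A.rank → Fin m, StrictMono s →
      (Matrix.of fun k j => τ (s k) * A (s k) (C j)).det ≤ 0)

theorem weak_of_coherent {m n : ℕ} {A : Matrix (Fin m) (Fin n) ℝ} (h : SignCoherent m n A)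
    {C L : List ℕ} (hC : ∀ c ∈ C, c < n) (hrk : A.rank = C.length) (hL : L.Nodup)
    (hlen : L.length = C.length) (hm : ∀ j ∈ L, j < m)
    (hind : ∀ x : Fin C.length → ℝ,
      (∀ r : Fin m, (r : ℕ) ∈ L → colsA (fun i => A i) C r ⬝ᵥ x = 0) → x = 0) :
    ∃ (σ : ℝ) (τ : ℕ → Bool),
      Weak C.length m (fun i => sg (τ i) • An (colsA (fun i => A i) C) i) σ := by
  obtain ⟨τ, h1, h2⟩ := h
  have h3 : ∀ r, r = A.rank → ∀ C : Fin r → Fin n,
      (∀ s : Fin r → Fin m, StrictMono s →
        0 ≤ (Matrix.of fun k j => τ (s k) * A (s k) (C j)).det) ∨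
      (∀ s : Fin r → Fin m, StrictMono s →
        (Matrix.of fun k j => τ (s k) * A (s k) (C j)).det ≤ 0) := by
    rintro _ rfl
    exact h2
  have h4 := h3 C.length hrk.symm fun c => ⟨C[(c : ℕ)], hC _ (List.getElem_mem _)⟩
  set τb : ℕ → Bool := fun i => if h : i < m then decide (τ ⟨i, h⟩ = 1) else true with hτb
  have hsg : ∀ i : Fin m, sg (τb i) = τ i := by
    intro i
    rw [hτb]
    simp only
    rw [dif_pos i.2]
    rcases h1 i with h4 | h4
    · rw [h4, decide_eq_true rfl]
      simp [sg]
    · rw [h4, decide_eq_false (by norm_num)]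
      simp [sg]
  have hdet : ∀ (s : Fin C.length → ℕ) (hs : ∀ k, s k < m),
      (Matrix.of fun (k : Fin C.length) (j : Fin C.length) =>
      (sg (τb (s k)) • An (colsA (fun i => A i) C) (s k)) j) =
      Matrix.of fun (k : Fin C.length) (j : Fin C.length) => τ ⟨s k, hs k⟩ * A ⟨s k, hs k⟩
        ⟨C[(j : ℕ)], hC _ (List.getElem_mem _)⟩ := by
    intro s hs
    ext k j
    rw [of_apply, of_apply, Pi.smul_apply, smul_eq_mul, An_lt (hs k), colsA_eq hC]
    rw [← hsg ⟨s k, hs k⟩]
  -- a nonzero minor
  have hcard : L.toFinset.card = C.length := by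
    rw [List.toFinset_card_of_nodup hL, hlen]
  set s0 := L.toFinset.orderEmbOfFin hcard with hs0
  have hs0m : ∀ k, s0 k < m := fun k =>
    hm _ (List.mem_toFinset.1 (Finset.orderEmbOfFin_mem _ hcard k))
  have hne : (Matrix.of fun (k : Fin C.length) (j : Fin C.length) =>
      (sg (τb (s0 k)) • An (colsA (fun i => A i) C) (s0 k)) j).det ≠ 0 := by
    intro h0
    obtain ⟨y, hy0, hy⟩ := exists_mulVec_eq_zero_iff.2 h0
    apply hy0
    refine hind y fun r hr => ?_
    have h5 : (r : ℕ) ∈ Set.range s0 := by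
      rw [hs0, Finset.range_orderEmbOfFin]
      exact List.mem_toFinset.2 hr
    obtain ⟨k, hk⟩ := h5
    have h6 := congrFun hy k
    have h7 : (sg (τb (s0 k)) • An (colsA (fun i => A i) C) (s0 k)) ⬝ᵥ y = 0 := h6
    rw [smul_dotProduct, smul_eq_mul, An_lt (hs0m k)] at h7
    have h8 := (mul_eq_zero.1 h7).resolve_left (sg_ne _)
    have h9 : (⟨s0 k, hs0m k⟩ : Fin m) = r := Fin.ext hk
    rwa [h9] at h8
  rcases h4 with h4 | h4
  · refine ⟨1, τb, ⟨?_, s0, s0.strictMono, hs0m, ?_⟩⟩
    · intro s hs hsm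
      rw [one_mul, hdet s hsm]
      exact h4 (fun k => ⟨s k, hsm k⟩) (fun a b hab => hs hab)
    · rw [one_mul]
      refine lt_of_le_of_ne ?_ (Ne.symm hne)
      rw [hdet _ hs0m]
      exact h4 (fun k => ⟨s0 k, hs0m k⟩) (fun a b hab => s0.strictMono hab)
  · refine ⟨-1, τb, ⟨?_, s0, s0.strictMono, hs0m, ?_⟩⟩
    · intro s hs hsm
      rw [hdet s hsm]
      have := h4 (fun k => ⟨s k, hsm k⟩) (fun a b hab => hs hab)
      linarith
    · have h5 : (Matrix.of fun (k : Fin C.length) (j : Fin C.length) =>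
          (sg (τb (s0 k)) • An (colsA (fun i => A i) C) (s0 k)) j).det ≤ 0 := by
        rw [hdet _ hs0m]
        exact h4 (fun k => ⟨s0 k, hs0m k⟩) (fun a b hab => s0.strictMono hab)
      have h6 := lt_of_le_of_ne h5 hne
      linarith

/-- The answer is correct. -/
theorem fin_iff {m n : ℕ} (hm : 1 ≤ m) {A : Matrix (Fin m) (Fin n) ℝ} (b : Fin m → ℝ)
    (h : SignCoherent m n A) :
    strat2.fin (strat2.tst qk ((fun i => A i, b) : Inp m n) (strat2.T m n)) = true ↔
      ∃ x : Fin n → ℝ, ∀ i, b i ≤ A i ⬝ᵥ x := by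
  set a : Inp m n := (fun i => A i, b) with ha
  obtain ⟨L, C, h1, h2, h3, h4, h5, h6, h7⟩ := phaseA a n le_rfl
  have hind : ∀ x : Fin C.length → ℝ,
      (∀ r : Fin m, (r : ℕ) ∈ L → colsA a.1 C r ⬝ᵥ x = 0) → x = 0 :=
    fun x hx => indep_of_mv h3 h2 h4 h6 hx
  have hdep : ∀ c : Fin n, ∃ u : Fin C.length → ℝ, ∀ r, A r c = colsA (fun i => A i) C r ⬝ᵥ u :=
    fun c => (dep_iff c.2).1 (h7 c c.2)
  have hrk : A.rank = C.length := rank_eq h5 hdep fun x hx => hind x fun r _ => hx r
  have hCn : C.length ≤ n := by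
    rw [← hrk]
    exact (rank_le_card_width A).trans (by simp)
  -- feasibility only depends on the chosen columns
  have hfeas : (∃ x : Fin C.length → ℝ, ∀ i, b i ≤ colsA a.1 C i ⬝ᵥ x) ↔
      ∃ x : Fin n → ℝ, ∀ i, b i ≤ A i ⬝ᵥ x := by
    choose u hu using hdep
    constructor
    · rintro ⟨x, hx⟩
      refine ⟨fun j => ∑ c : Fin C.length, if j = (⟨C[(c : ℕ)], h5 _ (List.getElem_mem _)⟩ :
        Fin n) then x c else 0, fun i => ?_⟩
      refine (hx i).trans (le_of_eq ?_)
      simp only [dotProduct, Finset.mul_sum]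
      rw [Finset.sum_comm]
      refine Finset.sum_congr rfl fun c _ => ?_
      rw [colsA_eq h5]
      simp only [mul_ite, mul_zero, Finset.sum_ite_eq', Finset.mem_univ, if_true]
      rfl
    · rintro ⟨x, hx⟩
      refine ⟨fun c => ∑ j, u j c * x j, fun i => ?_⟩
      refine (hx i).trans (le_of_eq ?_)
      simp only [dotProduct, Finset.mul_sum]
      rw [Finset.sum_comm]
      refine Finset.sum_congr rfl fun j _ => ?_
      rw [hu j i, dotProduct, Finset.sum_mul]
      refine Finset.sum_congr rfl fun c _ => ?_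
      ring
  rw [← hfeas]
  by_cases hC0 : C = []
  · rw [fin_iff0 a h1 hC0]
    subst hC0
    constructor
    · intro h8
      exact ⟨0, fun i => by rw [dotProduct_zero]; exact h8 i⟩
    · rintro ⟨x, hx⟩ i
      have h8 := hx i
      rw [dotProduct, Finset.sum_eq_zero] at h8
      · exact h8
      · intro c _
        exact absurd c.2 (Nat.not_lt_zero _)
  · obtain ⟨σ, τ, hV⟩ := weak_of_coherent h h5 hrk h3 h2 h4 hind
    exact fin_iff1 a hm h1 h2 h3 h4 h5 h6 hCn hC0 hV

/-- The algorithm decides the class. -/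
theorem decides : Pool.Agent.R533.GU.DecidesOn ∅ (fun m n A _ => SignCoherent m n A)
    (strat2.alg qk) := by
  refine Strat.decidesOn spec ((Polynomial.X + 1 + 2 * Polynomial.X *
    (Polynomial.X * (2 * Polynomial.X) + 3)) * ((2 * Polynomial.X * (2 * Polynomial.X +
    Polynomial.X + 3)) * (2 * Polynomial.X * (2 * Polynomial.X * Polynomial.X + 1) + 1))) ?_ ?_ ?_
  · intro m n hm hn
    have e : ((Polynomial.X + 1 + 2 * Polynomial.X *
      (Polynomial.X * (2 * Polynomial.X) + 3)) * ((2 * Polynomial.X * (2 * Polynomial.X +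
      Polynomial.X + 3)) * (2 * Polynomial.X * (2 * Polynomial.X * Polynomial.X + 1) + 1)) :
        Polynomial ℕ).eval (m + n) =
        ((m + n) + 1 + 2 * (m + n) * ((m + n) * (2 * (m + n)) + 3)) *
        ((2 * (m + n) * (2 * (m + n) + (m + n) + 3)) *
          (2 * (m + n) * (2 * (m + n) * (m + n) + 1) + 1)) := by
      simp
    rw [e]
    change (n + 1 + 2 * m * (n * (2 * m) + 3)) * ((2 * m * (2 * m + n + 3)) *
      (2 * m * (2 * m * m + 1) + 1)) ≤ _
    gcongr <;> omega
  · intro m n hm
    change 0 < 2 * m * (2 * m + n + 3) * (degT m + 1)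
    positivity
  · intro m n hm hn A b hA
    exact fin_iff hm b hA

end Pool.Agent.H682.CP
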