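import Pool.Agent.H682.CP.ProgPoly
import Pool.Agent.H682.CP.Algo
import Pool.Agent.H682.CH.AlgoPoly

set_option autoImplicit false

/-!
# The algorithm is controlled in polynomial time
-/

namespace Pool.Agent.H682.CP

open Pool.Agent.NPC Pool.Agent.NPC.ER Pool.Agent.NPC.H612 Pool.Agent.H558R2
open Pool.Agent.H622R3.SM Pool.Agent.H682.CH

attribute [local fun_prop] Poly.range_length Poly.isSome range_succ'

/-- The answers are computed in polynomial time. -/
def PG {α : Type} [TEnc α] (g : α → ℕ → ℕ → Outcome) : Prop :=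
  Poly (fun p : α × (ℕ × ℕ) => g p.1 p.2.1 p.2.2)

theorem PG.fst {α β : Type} [TEnc α] [TEnc β] {g : α → ℕ → ℕ → Outcome} (hg : PG g) :
    PG (fun p : α × β => g p.1) :=
  Poly.comp (g := fun p : α × (ℕ × ℕ) => g p.1 p.2.1 p.2.2)
    (f := fun p : (α × β) × (ℕ × ℕ) => (p.1.1, p.2)) hg (by fun_prop)

theorem PG.app {α : Type} [TEnc α] {g : α → ℕ → ℕ → Outcome} (hg : PG g) {i w : α → ℕ}
    (hi : Poly i) (hw : Poly w) : Poly (fun a => g a (i a) (w a)) :=
  Poly.comp (g := fun p : α × (ℕ × ℕ) => g p.1 p.2.1 p.2.2)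
    (f := fun a => (a, (i a, w a))) hg (by fun_prop)

section Parts

variable {α : Type} [TEnc α] {U V : α → List Unit} {g : α → ℕ → ℕ → Outcome} {K L : α → List ℕ}
  {i k : α → ℕ} {ρ : α → Bool}

theorem qTy (hg : PG g) (hi : Poly i) : Poly (fun a => tyB (g a) (i a)) := by
  unfold tyB
  exact Poly.decide_eq (hg.app hi (NPC.Poly.const 0)) (NPC.Poly.const _)

theorem qPar (hV : Poly V) (hg : PG g) (hi : Poly i) :
    Poly (fun a => parB (V a).length (g a) (i a)) := by
  unfold parB
  refine Poly.all (Poly.range_length hV) (Poly.decide_eq ?_ (NPC.Poly.const _))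
  exact hg.fst.app (i := fun p : α × ℕ => i p.1) (w := fun p => p.2 + 1) (by fun_prop)
    (by fun_prop)

theorem qBad (hV : Poly V) (hg : PG g) (hi : Poly i) :
    Poly (fun a => badB (V a).length (g a) (i a)) := by
  unfold badB
  refine Poly.and (qPar hV hg hi) (Poly.and (Poly.xor (qTy hg hi)
    (qTy hg (Poly.succ hi))) ?_)
  refine Poly.decide_eq ?_ (Poly.some (Poly.not (qTy hg hi)))
  exact hg.app hi (by fun_prop)

theorem qViol (hV : Poly V) (hg : PG g) (hK : Poly K) (hi : Poly i)
    (hk : Poly k) : Poly (fun a => violB (V a).length (K a) (g a) (i a) (k a)) := by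
  unfold violB
  have h1 : Poly (fun a => g a (i a) ((V a).length + 2)) := hg.app hi (by fun_prop)
  have h2 : Poly (fun a => g a (i a) ((V a).length + 3 + k a)) := hg.app hi (by fun_prop)
  refine Poly.and (by fun_prop) (Poly.and (by fun_prop) (Poly.and (Poly.isSome h1)
    (Poly.decide_eq h2 (Poly.optMap_fp h1 (by fun_prop)))))

theorem qGstep (hV : Poly V) (hg : PG g) (hρ : Poly ρ) (hL : Poly L)
    (hi : Poly i) : Poly (fun a => gstepB (V a).length (g a) (ρ a) (L a) (i a)) := by
  unfold gstepB
  refine Poly.ite (Poly.decide_bool (Poly.and (by fun_prop) (Poly.and (Poly.decide_eq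
    (qTy hg hi) (by fun_prop)) (Poly.not (Poly.optGetD (Poly.optMap_fp (by fun_prop)
    (Poly.and (by fun_prop) ?_)) (by fun_prop)))))) (by fun_prop) hL
  exact qPar (V := fun p : α × ℕ => V p.1) (i := fun p => p.2) (by fun_prop) hg.fst
    (by fun_prop)

theorem qGreedy {R : α → ℕ} (hV : Poly V) (hg : PG g) (hρ : Poly ρ)
    (hR : UPoly R) : Poly (fun a => greedyB (V a).length (g a) (ρ a) (R a)) := by
  unfold greedyB
  obtain ⟨q1, hq1⟩ := CH.UPoly.bound hR
  obtain ⟨q2, hq2⟩ := CH.UPoly.bound (UPoly.length hV)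
  refine Poly.foldl (F := fun a L i =>
    gstepB (V a).length (g a) (ρ a) L i) hR.range
    (NPC.Poly.const []) ?_ (q2 * (4 * q1 + 2) + 1) ?_
  · exact qGstep (V := fun p : α × List ℕ × ℕ => V p.1) (ρ := fun p : α × List ℕ × ℕ => ρ p.1)
      (L := fun p : α × List ℕ × ℕ => p.2.1) (i := fun p : α × List ℕ × ℕ => p.2.2)
      (by fun_prop) hg.fst (by fun_prop) (by fun_prop) (by fun_prop)
  · intro a k hk
    rw [List.length_range] at hk
    rw [List.take_range, min_eq_left hk]
    obtain ⟨h1, h2⟩ := greedyB_small (V a).length (g a) (ρ a) k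
    have h3 : CH.Small (q2.eval (sz a)) (q1.eval (sz a))
        (greedyB (V a).length (g a) (ρ a) k) := by
      refine ⟨h1.trans (hq2 a), fun x hx => ?_⟩
      have := h2 x hx
      have := hq1 a
      omega
    have e : (q2 * (4 * q1 + 2) + 1).eval (sz a) =
        q2.eval (sz a) * (4 * q1.eval (sz a) + 2) + 1 := by
      simp [Polynomial.eval_add, Polynomial.eval_mul]
    rw [e]
    exact h3.sz

theorem qCands {R : α → ℕ} (hV : Poly V) (hg : PG g) (hK : Poly K)
    (hR : UPoly R) : Poly (fun a => cands (V a).length (R a) (K a) (g a)) := by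
  unfold cands
  have hR' : UPoly (fun p : α × ℕ => R p.1) := hR.comp (Poly.fst Poly.id)
  have hRp := hR.toPoly
  refine Poly.filter hR.range (Poly.and (by fun_prop) (Poly.and ?_ (Poly.all hR'.range
    (Poly.not ?_))))
  · exact qViol (V := fun p : α × ℕ => V p.1) (K := fun p : α × ℕ => K p.1)
      (i := fun p : α × ℕ => R p.1) (k := fun p : α × ℕ => p.2)
      (by fun_prop) hg.fst (by fun_prop) (by fun_prop) (by fun_prop)
  · exact qViol (V := fun p : (α × ℕ) × ℕ => V p.1.1) (K := fun p : (α × ℕ) × ℕ => K p.1.1)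
      (i := fun p : (α × ℕ) × ℕ => p.1.2) (k := fun p : (α × ℕ) × ℕ => p.2)
      (by fun_prop) hg.fst.fst (by fun_prop) (by fun_prop) (by fun_prop)

variable {c : α → Ctl}

theorem qStep0 {R : α → ℕ} (hU : Poly U) (hV : Poly V) (hg : PG g) (hc : Poly c)
    (hR : UPoly R) : Poly (fun a => step0 (U a).length (V a).length (R a) (c a) (g a)) := by
  unfold step0
  have hRp := hR.toPoly
  have hm : UPoly (fun a => (U a).length - 1) :=
    UPoly.of_le (by fun_prop) (UPoly.length hU) (fun a => Nat.sub_le _ _)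
  refine Poly.pair (Poly.pair (Poly.and (by fun_prop) (Poly.all hm.range (Poly.not ?_)))
    (by fun_prop)) (Poly.pair (Poly.tail (pSn hc (Poly.not (qTy hg hRp)))) (by fun_prop))
  exact qBad (V := fun p : α × ℕ => V p.1) (i := fun p : α × ℕ => p.2)
    (by fun_prop) hg.fst (by fun_prop)

theorem qHead {R : α → ℕ} (hV : Poly V) (hg : PG g) (hK : Poly K)
    (hL : Poly L) (hR : Poly R) : Poly (fun a => ((L a).head?.map fun l =>
      violB (V a).length (K a) (g a) l (R a)).getD false) := by
  refine Poly.optGetD (Poly.optMap_fp (by fun_prop) ?_) (by fun_prop)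
  exact qViol (V := fun p : α × ℕ => V p.1) (K := fun p : α × ℕ => K p.1)
      (i := fun p : α × ℕ => p.2) (k := fun p : α × ℕ => R p.1)
      (by fun_prop) hg.fst (by fun_prop) (by fun_prop) (by fun_prop)

theorem qStep1 {R : α → ℕ} (hV : Poly V) (hg : PG g) (hc : Poly c)
    (hR : UPoly R) : Poly (fun a => step1 (V a).length (R a) (c a) (g a)) := by
  unfold step1
  have hRp := hR.toPoly
  have hty := qTy hg hRp
  refine Poly.pair (Poly.pair (Poly.and (by fun_prop) (Poly.not
    (qHead hV hg (K := fun a => (c a).2.1) (by fun_prop) (pSn hc (Poly.not hty)) hRp)))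
    (by fun_prop)) (Poly.pair (Poly.tail (pSn hc hty)) (by fun_prop))

theorem qStep2 {R : α → ℕ} (hV : Poly V) (hg : PG g) (hc : Poly c)
    (hR : UPoly R) : Poly (fun a => step2 (V a).length (R a) (c a) (g a)) := by
  unfold step2
  have hRp := hR.toPoly
  have hty := qTy hg hRp
  have hgr := qGreedy hV hg hty (UPoly.add hR (UPoly.const 1))
  refine Poly.ite (Poly.decide_bool (Poly.isEmpty (pSn hc hty))) ?_ ?_
  · exact Poly.pair (Poly.pair (by fun_prop) (Poly.decide_le (by fun_prop) (Poly.length hgr)))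
      (Poly.pair (Poly.tail hgr) (by fun_prop))
  · exact Poly.pair (Poly.pair (by fun_prop)
      (qHead hV hg (K := fun a => (c a).2.1) (by fun_prop) (pSn hc hty) hRp)) (by fun_prop)

theorem qStep3 {R : α → ℕ} (hV : Poly V) (hg : PG g) (hc : Poly c)
    (hR : UPoly R) : Poly (fun a => step3 (V a).length (R a) (c a) (g a)) := by
  unfold step3
  have hRp := hR.toPoly
  have hty := qTy hg hRp
  refine Poly.ite (by fun_prop) (Poly.ite (Poly.decide_bool (Poly.all hR.range
    (Poly.not ?_))) ?_ ?_) hc
  · exact qViol (V := fun p : α × ℕ => V p.1) (K := fun p : α × ℕ => (c p.1).2.1)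
      (i := fun p : α × ℕ => R p.1) (k := fun p : α × ℕ => p.2)
      (by fun_prop) hg.fst (by fun_prop) (by fun_prop) (by fun_prop)
  · exact Poly.pair (by fun_prop) (Poly.pair (by fun_prop)
      (pSetSn hc hty (pCut hV (by fun_prop))))
  · refine Poly.optGetD (Poly.optMap_fp (Poly.head? (qCands hV hg (by fun_prop) hR)) ?_) hc
    refine Poly.pair (by fun_prop) (Poly.pair ?_ (by fun_prop))
    exact pCut (V := fun p : α × ℕ => V p.1) (L := fun p : α × ℕ => exch (c p.1).2.1 p.2)
      (by fun_prop) (pExch (by fun_prop) (by fun_prop))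

theorem qStepA {R φ : α → ℕ} (hU : Poly U) (hV : Poly V) (hg : PG g) (hc : Poly c)
    (hR : UPoly R) (hφ : Poly φ) : Poly (fun a =>
      stepA (U a).length (V a).length (R a) (φ a) (c a) (g a)) := by
  unfold stepA
  refine Poly.ite (by fun_prop) (qStep0 hU hV hg hc hR) (Poly.ite (by fun_prop)
    (qStep1 hV hg hc hR) (Poly.ite (by fun_prop) (qStep2 hV hg hc hR)
    (qStep3 hV hg hc hR)))

end Parts

/-! ### The new parts -/

/-- The answers are computed in polynomial time. -/
def PG1 {α : Type} [TEnc α] (g : α → ℕ → Outcome) : Prop :=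
  Poly (fun p : α × ℕ => g p.1 p.2)

theorem PG1.fst {α β : Type} [TEnc α] [TEnc β] {g : α → ℕ → Outcome} (hg : PG1 g) :
    PG1 (fun p : α × β => g p.1) :=
  Poly.comp (g := fun p : α × ℕ => g p.1 p.2)
    (f := fun p : (α × β) × ℕ => (p.1.1, p.2)) hg (by fun_prop)

theorem PG1.app {α : Type} [TEnc α] {g : α → ℕ → Outcome} (hg : PG1 g) {i : α → ℕ}
    (hi : Poly i) : Poly (fun a => g a (i a)) :=
  Poly.comp (g := fun p : α × ℕ => g p.1 p.2)
    (f := fun a => (a, i a)) hg (by fun_prop)

section New

variable {α : Type} [TEnc α] {U V W : α → List Unit} {ans : α → List Outcome} {L C : α → List ℕ}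
  {τ : α → List Bool} {i j p k w r : α → ℕ} {g : α → ℕ → Outcome}

theorem qFirst {l : α → List Outcome} (hl : Poly l) : Poly (fun a => firstS (l a)) := by
  unfold firstS
  fun_prop

theorem qAns (hW : Poly W) (ha : Poly ans) (hj : Poly j) :
    Poly (fun a => ansM (W a).length (ans a) (j a)) := by
  unfold ansM
  exact qFirst (by fun_prop)

theorem qAnsD (hU : Poly U) (ha : Poly ans) (hj : Poly j) :
    Poly (fun a => ansM (degT (U a).length) (ans a) (j a)) := by
  have h1 := qAns (W := fun a => List.replicate (degT (U a).length) ()) (uDeg hU) ha hj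
  refine h1.congr fun a => ?_
  rw [List.length_replicate]

theorem qAnsG (hU : Poly U) (ha : Poly ans) :
    PG1 (fun a => ansM (degT (U a).length) (ans a)) :=
  qAnsD (U := fun p : α × ℕ => U p.1) (ans := fun p => ans p.1) (j := fun p => p.2)
    (by fun_prop) (by fun_prop) (by fun_prop)

theorem qTf (hτ : Poly τ) (hi : Poly i) : Poly (fun a => ty (τ a) (i a)) := by
  unfold ty tf
  fun_prop

theorem qG2 (hU : Poly U) (hr : Poly r) (hτ : Poly τ) (ha : Poly ans) :
    PG (fun a => g2 (2 * (U a).length) (r a) (τ a) (degT (U a).length) (ans a)) := by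
  unfold PG g2
  have h1 := qTf (τ := fun p : α × (ℕ × ℕ) => τ p.1) (i := fun p => p.2.1) (by fun_prop)
    (by fun_prop)
  have h2 := qAnsD (U := fun p : α × (ℕ × ℕ) => U p.1) (ans := fun p => ans p.1)
    (j := fun p => p.2.1 * (2 * (U p.1).length + r p.1 + 3) + p.2.2) (by fun_prop)
    (by fun_prop) (by fun_prop)
  exact Poly.ite (by fun_prop) (Poly.some h1) (Poly.ite (by fun_prop) (by fun_prop)
    (Poly.ite (by fun_prop) (by fun_prop) h2))

theorem qRow (hU : Poly U) (hL : Poly L) (hg : PG1 g) :
    Poly (fun a => newRow (U a).length (L a) (g a)) := by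
  unfold newRow
  have h1 := hg.fst.app (i := fun p : α × ℕ => p.2) (by fun_prop)
  exact Poly.head? (Poly.filter (Poly.range_length hU)
    (Poly.and (by fun_prop) (Poly.isSome h1)))

theorem qRk {b : α → ℕ} (hL : Poly L) (hb : Poly b) (hi : Poly i) :
    Poly (fun a => rkB (L a) (b a) (i a)) := by
  unfold rkB
  fun_prop

theorem qSame (hr : Poly r) (hL : Poly L) (hg : PG1 g) (hi : Poly i)
    (hp : Poly p) : Poly (fun a => sameB (r a) (L a) (g a) (i a) (p a)) := by
  unfold sameB
  have h1 := hg.app (i := fun a => i a * (r a + 1) + p a) (by fun_prop)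
  have h2 := hg.app (i := r) hr
  have h3 := qRk (L := L) (b := fun a => (L a).getD (p a) 0) (i := i) hL (by fun_prop) hi
  have h4 := qRk (L := L) (b := fun a => (L a).getD (p a) 0)
    (i := fun a => (L a).getD (p a) 0) hL (by fun_prop) (by fun_prop)
  refine Poly.xor (Poly.decide_eq h1 h2) (Poly.decide_eq (Poly.mod (Poly.add h3 h4)
    (NPC.Poly.const 2)) (NPC.Poly.const 1))

theorem uLen (hC : Poly C) : Poly (fun a => (C a).map fun _ => ()) := by
  fun_prop

theorem qEdges (hU : Poly U) (hV : Poly V) (hL : Poly L) (hg : PG1 g) :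
    Poly (fun a => edges (U a).length (V a).length (L a) (g a)) := by
  unfold edges
  refine Poly.flatMap (Poly.range_length hU) (Poly.flatMap (Poly.range_length (by fun_prop)) ?_)
  have h1 := qSame (r := fun x : (α × ℕ) × ℕ => (V x.1.1).length) (g := fun x => g x.1.1)
    (L := fun x => L x.1.1) (i := fun x => x.1.2)
    (p := fun x => x.2) (by fun_prop) (by fun_prop) hg.fst.fst (by fun_prop) (by fun_prop)
  have h2 := hg.fst.fst.app (i := fun x : (α × ℕ) × ℕ =>
    x.1.2 * ((V x.1.1).length + 1) + x.2) (by fun_prop)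
  refine Poly.ite (Poly.decide_bool (Poly.and (by fun_prop) (Poly.isSome h2)))
    (Poly.cons (Poly.pair (by fun_prop) (Poly.pair (by fun_prop) h1))
    (Poly.cons (Poly.pair (by fun_prop) (Poly.pair (by fun_prop) h1)) (NPC.Poly.const []))) 
    (NPC.Poly.const [])

theorem qEdgesC (hU : Poly U) (hC : Poly C) (hL : Poly L) (hg : PG1 g) :
    Poly (fun a => edges (U a).length (C a).length (L a) (g a)) := by
  refine (qEdges hU (uLen hC) hL hg).congr fun a => ?_
  rw [List.length_map]

variable {E : α → List (ℕ × (ℕ × Bool))} {lab : α → List (ℕ × Bool)}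

theorem qLb (hl : Poly lab) (hi : Poly i) : Poly (fun a => lb (lab a) (i a)) := by
  unfold lb
  fun_prop

theorem qLabStep (hU : Poly U) (hE : Poly E) (hl : Poly lab) :
    Poly (fun a => labStep (U a).length (E a) (lab a)) := by
  unfold labStep
  have h1 := qLb (lab := fun x : α × (ℕ × (ℕ × Bool)) => lab x.1) (i := fun x => x.2.1)
    (by fun_prop) (by fun_prop)
  have h2 := qLb (lab := fun x : α × (ℕ × (ℕ × Bool)) => lab x.1) (i := fun x => x.2.2.1)
    (by fun_prop) (by fun_prop)
  have h3 := qLb (lab := fun x : α × ℕ => lab x.1) (i := fun x => x.2)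
    (by fun_prop) (by fun_prop)
  refine Poly.optGetD (Poly.optMap_fp (Poly.head? (Poly.filter hE (Poly.and
    (Poly.not (Poly.isSome h1)) (Poly.isSome h2)))) ?_) (Poly.optGetD (Poly.optMap_fp
    (Poly.head? (Poly.filter (Poly.range_length hU) (Poly.not (Poly.isSome h3)))) ?_) hl)
  · exact Poly.cons (Poly.pair (by fun_prop) (Poly.xor (Poly.optGetD h2 (NPC.Poly.const true))
      (by fun_prop))) (by fun_prop)
  · fun_prop

theorem labs_small (m : ℕ) (E : List (ℕ × (ℕ × Bool))) (k : ℕ) :
    ((List.range k).foldl (fun lab _ => labStep m E lab) []).length ≤ k ∧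
    ∀ x ∈ (List.range k).foldl (fun lab _ => labStep m E lab) [], sz x ≤ sz E + (4 * m + 8) := by
  induction k with
  | zero => exact ⟨Nat.zero_le _, by simp⟩
  | succ k ih =>
    rw [List.range_succ, List.foldl_append]
    set lab := (List.range k).foldl (fun lab _ => labStep m E lab) [] with hlab
    change (labStep m E lab).length ≤ k + 1 ∧ ∀ x ∈ labStep m E lab, sz x ≤ sz E + (4 * m + 8)
    unfold labStep
    cases h1 : (E.filter fun e => (!(lb lab e.1).isSome) && (lb lab e.2.1).isSome).head? with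
    | some e =>
      rw [Option.map_some, Option.getD_some]
      refine ⟨by rw [List.length_cons]; omega, fun x hx => ?_⟩
      rcases List.mem_cons.1 hx with rfl | hx
      · have h2 := List.mem_of_mem_head? h1
        rw [List.mem_filter] at h2
        have h3 := sz_le_of_mem h2.1
        have h4 : sz e = sz e.1 + sz e.2 + 1 := by rw [← sz_pair]
        have h5 := sz_bool_le ((lb lab e.2.1).getD true ^^ !e.2.2)
        rw [sz_pair]
        omega
      · exact ih.2 x hx
    | none =>
      rw [Option.map_none, Option.getD_none]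
      cases h3 : ((List.range m).filter fun v => !(lb lab v).isSome).head? with
      | some v =>
        rw [Option.map_some, Option.getD_some]
        refine ⟨by rw [List.length_cons]; omega, fun x hx => ?_⟩
        rcases List.mem_cons.1 hx with rfl | hx
        · have h2 := List.mem_of_mem_head? h3
          rw [List.mem_filter, List.mem_range] at h2
          have h4 := sz_nat_le v
          have h5 : v.size ≤ v := Nat.size_le.2 Nat.lt_two_pow_self
          have h6 := sz_bool_le true
          rw [sz_pair]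
          omega
        · exact ih.2 x hx
      | none =>
        rw [Option.map_none, Option.getD_none]
        exact ⟨by omega, ih.2⟩

theorem qLabs (hU : Poly U) (hE : Poly E) : Poly (fun a => labs (U a).length (E a)) := by
  unfold labs
  obtain ⟨q1, hq1⟩ := CH.UPoly.bound (UPoly.length hU)
  obtain ⟨q2, hq2⟩ := Poly.sz_le hE
  refine Poly.foldl (F := fun a lab _ => labStep (U a).length (E a) lab)
    (Poly.range_length hU) (NPC.Poly.const []) ?_ (q1 * (q2 + (4 * q1 + 8) + 1) + 1) ?_
  · exact qLabStep (U := fun p : α × List (ℕ × Bool) × ℕ => U p.1)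
      (E := fun p => E p.1) (lab := fun p => p.2.1) (by fun_prop) (by fun_prop) (by fun_prop)
  · intro a k hk
    rw [List.length_range] at hk
    rw [List.take_range, min_eq_left hk]
    obtain ⟨h1, h2⟩ := labs_small (U a).length (E a) k
    have h3 := sz_le_length_mul _ _ h2
    have e : (q1 * (q2 + (4 * q1 + 8) + 1) + 1).eval (sz a) =
        q1.eval (sz a) * (q2.eval (sz a) + (4 * q1.eval (sz a) + 8) + 1) + 1 := by
      simp [Polynomial.eval_add, Polynomial.eval_mul]
    rw [e]
    refine h3.trans (Nat.add_le_add_right (Nat.mul_le_mul ?_ ?_) 1)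
    · exact h1.trans (hk.trans (hq1 a))
    · have h4 := hq1 a
      have h5 := hq2 a
      omega

theorem qTau (hU : Poly U) (hE : Poly E) : Poly (fun a => tauL (U a).length (E a)) := by
  unfold tauL
  have h1 := qLabs hU hE
  refine NPC.Poly.map (Poly.range_length hU) (Poly.optGetD ?_ (NPC.Poly.const true))
  exact qLb (lab := fun x : α × ℕ => labs (U x.1).length (E x.1)) (i := fun x => x.2)
    (Poly.comp (g := fun a => labs (U a).length (E a)) h1 (by fun_prop)) (by fun_prop)

theorem qSet (hL : Poly L) (hp : Poly p) (hi : Poly i) :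
    Poly (fun a => setL (L a) (p a) (i a)) := by
  unfold setL
  fun_prop

theorem qTrq {q : α → List (ℕ × ℕ)} (hi : Poly i) (hj : Poly j) (hC : Poly C) (hq : Poly q) :
    Poly (fun a => trq (i a) (j a) (C a) (q a)) := by
  unfold trq trc
  fun_prop

theorem qLq (hU : Poly U) (hC : Poly C) (hL : Poly L) :
    Poly (fun a => lq (U a).length (C a).length (L a)) := by
  refine (pLq hU (uLen hC) hL).congr fun a => ?_
  rw [List.length_map]

theorem qQf {K : α → List ℕ} (hU : Poly U) (hC : Poly C) (hK : Poly K) (hi : Poly i)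
    (hw : Poly w) : Poly (fun a => qf (2 * (U a).length) (C a).length (K a) (i a) (w a)) := by
  have h1 := pQf (U := fun a => U a ++ U a) (V := fun a => (C a).map fun _ => ())
    (by fun_prop) (uLen hC) hK hi hw
  refine h1.congr fun a => ?_
  rw [List.length_append, ← two_mul, List.length_map]

variable {c : α → St}

theorem qQA (hU : Poly U) (hV : Poly V) (hc : Poly c) (hj : Poly j) :
    Poly (fun a => qA (U a).length (V a).length (c a) (j a)) := by
  unfold qA
  exact qTrq (by fun_prop) (by fun_prop) (by fun_prop)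
    (qLq (C := fun a => (c a).1.1.2 ++ [(c a).1.2.1]) (L := fun a => (c a).1.1.1 ++ [j a])
      hU (by fun_prop) (by fun_prop))

theorem qQB (hU : Poly U) (hV : Poly V) (hc : Poly c) (hj : Poly j) :
    Poly (fun a => qB (U a).length (V a).length (c a) (j a)) := by
  unfold qB
  have hs := qSet (L := fun a => (c a).1.1.1) (p := fun a => j a % ((c a).1.1.2.length + 1))
    (i := fun a => j a / ((c a).1.1.2.length + 1)) (by fun_prop) (by fun_prop) (by fun_prop)
  refine Poly.ite (Poly.decide_bool (Poly.isEmpty (by fun_prop))) (by fun_prop)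
    (qTrq (by fun_prop) (by fun_prop) (by fun_prop)
    (qLq (C := fun a => (c a).1.1.2) hU (by fun_prop)
      (Poly.ite (by fun_prop) hs (by fun_prop))))

theorem qQC (hU : Poly U) (hV : Poly V) (hc : Poly c) (hj : Poly j) :
    Poly (fun a => qC (U a).length (V a).length (c a) (j a)) := by
  unfold qC
  exact qTrq (by fun_prop) (by fun_prop) (by fun_prop)
    (qQf (C := fun a => (c a).1.1.2) (K := fun a => (c a).2.2.1)
      (i := fun a => j a / (2 * (U a).length + (c a).1.1.2.length + 3))
      (w := fun a => j a % (2 * (U a).length + (c a).1.1.2.length + 3))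
      hU (by fun_prop) (by fun_prop) (by fun_prop) (by fun_prop))

theorem qQry (hU : Poly U) (hV : Poly V) (hc : Poly c) (hj : Poly j) :
    Poly (fun a => qry2 (U a).length (V a).length (c a) (j a)) := by
  unfold qry2
  have hD := pDeg hU
  have h1 := qQA (j := fun a => j a / (degT (U a).length + 1)) hU hV hc (by fun_prop)
  have h2 := qQB (j := fun a => j a / (degT (U a).length + 1)) hU hV hc (by fun_prop)
  have h3 := qQC (j := fun a => j a / (degT (U a).length + 1)) hU hV hc (by fun_prop)
  refine Poly.ite (by fun_prop) (Poly.pair (NPC.Poly.const _) (Poly.pair (NPC.Poly.const _)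
    (Poly.pair h1 (NPC.Poly.const _)))) (Poly.ite
    (Poly.decide_bool (Poly.isEmpty (by fun_prop))) (Poly.pair (NPC.Poly.const _)
    (Poly.pair (NPC.Poly.const _) (Poly.pair h2 (NPC.Poly.const _)))) (Poly.pair
    (NPC.Poly.const _) (Poly.pair (by fun_prop) (Poly.pair h3 (by fun_prop)))))

theorem qUA (hU : Poly U) (hc : Poly c) (hg : PG1 g) :
    Poly (fun a => uA (U a).length (c a) (g a)) := by
  unfold uA
  refine Poly.optGetD (Poly.optMap_fp (qRow (L := fun a => (c a).1.1.1) hU (by fun_prop) hg) ?_)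
    (by fun_prop)
  fun_prop

theorem qUB (hU : Poly U) (hc : Poly c) (hg : PG1 g) :
    Poly (fun a => uB (U a).length (c a) (g a)) := by
  unfold uB
  have h1 := qTau hU (qEdgesC (C := fun a => (c a).1.1.2) (L := fun a => (c a).1.1.1) hU
    (by fun_prop) (by fun_prop) hg)
  have h2 : Poly (fun a => (List.range (U a).length).all fun i =>
      !decide (g a i = some false)) := by
    refine Poly.all (Poly.range_length hU) (Poly.not (Poly.decide_eq ?_ (NPC.Poly.const _)))
    exact hg.fst.app (i := fun p : α × ℕ => p.2) (by fun_prop)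
  exact Poly.ite (Poly.decide_bool (Poly.isEmpty (by fun_prop)))
    (Poly.pair (by fun_prop) (Poly.pair (Poly.pair h2 (NPC.Poly.const _)) (by fun_prop)))
    (Poly.pair (Poly.pair (by fun_prop) (Poly.pair (by fun_prop) h1)) (by fun_prop))

theorem qUC (hU : Poly U) (hr : Poly r) (hc : Poly c) (ha : Poly ans) :
    Poly (fun a => uC (U a).length (r a) (c a) (degT (U a).length) (ans a)) := by
  unfold uC
  have hm : UPoly (fun a => 2 * (U a).length) := UPoly.mul (UPoly.const 2) (UPoly.length hU)
  have h1 := qStepA (U := fun a => U a ++ U a) (V := fun a => (c a).1.1.2.map fun _ => ())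
    (g := fun a => g2 (2 * (U a).length) (c a).1.1.2.length (c a).1.2.2 (degT (U a).length)
      (ans a)) (c := fun a => (c a).2)
    (R := fun a => min (r a / ((c a).1.1.2.length * (2 * (U a).length) + 3))
      (2 * (U a).length))
    (φ := fun a => r a % ((c a).1.1.2.length * (2 * (U a).length) + 3))
    (by fun_prop) (uLen (by fun_prop)) (qG2 hU (by fun_prop) (by fun_prop) ha) (by fun_prop)
    (UPoly.of_le (by fun_prop) hm (fun a => min_le_right _ _)) (by fun_prop)
  have h2 : Poly (fun a => stepA (2 * (U a).length) (c a).1.1.2.length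
      (min (r a / ((c a).1.1.2.length * (2 * (U a).length) + 3)) (2 * (U a).length))
      (r a % ((c a).1.1.2.length * (2 * (U a).length) + 3)) (c a).2
      (g2 (2 * (U a).length) (c a).1.1.2.length (c a).1.2.2 (degT (U a).length) (ans a))) := by
    refine h1.congr fun a => ?_
    rw [List.length_append, ← two_mul, List.length_map]
  exact Poly.ite (Poly.decide_bool (Poly.or (Poly.isEmpty (by fun_prop))
    (Poly.not (by fun_prop)))) hc (Poly.pair (by fun_prop) h2)

theorem qUpd (hU : Poly U) (hV : Poly V) (hr : Poly r) (hc : Poly c)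
    (ha : Poly ans) :
    Poly (fun a => upd2 (U a).length (V a).length (r a) (c a) (ans a)) := by
  unfold upd2
  exact Poly.ite (by fun_prop) (qUA hU hc (qAnsG hU ha)) (Poly.ite
    (Poly.decide_bool (Poly.isEmpty (by fun_prop))) (qUB hU hc (qAnsG hU ha))
    (qUC (r := fun a => r a - ((V a).length + 1)) hU (by fun_prop) hc ha))

end New

/-! ### The size of the states -/

theorem SmallC.mono {n n' M : ℕ} {c : Ctl} (h : SmallC n M c) (hn : n ≤ n') : SmallC n' M c :=
  ⟨⟨h.1.1.trans hn, h.1.2⟩, ⟨h.2.1.1.trans hn, h.2.1.2⟩, ⟨h.2.2.1.trans hn, h.2.2.2⟩⟩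

/-- The states are small. -/
def StInv (m n : ℕ) (c : St) : Prop :=
  CH.Small c.1.2.1 m c.1.1.1 ∧ CH.Small c.1.2.1 n c.1.1.2 ∧ c.1.2.1 ≤ n ∧
    c.1.2.2.length ≤ m + 1 ∧ SmallC c.1.1.2.length (2 * m) c.2

theorem Small.mono {n n' M : ℕ} {L : List ℕ} (h : CH.Small n M L) (hn : n ≤ n') :
    CH.Small n' M L := ⟨h.1.trans hn, h.2⟩

theorem Small.snoc {n M x : ℕ} {L : List ℕ} (h : CH.Small n M L) (hx : x ≤ M) :
    CH.Small (n + 1) M (L ++ [x]) := by
  refine ⟨by rw [List.length_append, List.length_singleton]; exact Nat.add_le_add_right h.1 1,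
    fun y hy => ?_⟩
  rw [List.mem_append, List.mem_singleton] at hy
  rcases hy with hy | rfl
  · exact h.2 y hy
  · exact hx

theorem uA_inv {m n : ℕ} {c : St} (h : StInv m n c) (hc : c.1.2.1 < n) (g : ℕ → Outcome) :
    StInv m n (uA m c g) := by
  obtain ⟨h1, h2, h3, h4, h5⟩ := h
  unfold uA
  cases hrow : newRow m c.1.1.1 g with
  | some i =>
    rw [Option.map_some, Option.getD_some]
    have hi : i < m := by
      have h6 := List.mem_of_mem_head? hrow
      rw [List.mem_filter, List.mem_range] at h6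
      exact h6.1
    refine ⟨Small.snoc h1 hi.le, Small.snoc h2 h3, hc, h4, SmallC.mono h5 ?_⟩
    simp
  | none =>
    rw [Option.map_none, Option.getD_none]
    exact ⟨Small.mono h1 (Nat.le_succ _), Small.mono h2 (Nat.le_succ _), hc, h4, h5⟩

theorem uB_inv {m n : ℕ} {c : St} (h : StInv m n c) (g : ℕ → Outcome) :
    StInv m n (uB m c g) := by
  obtain ⟨h1, h2, h3, h4, h5⟩ := h
  unfold uB
  split_ifs
  · exact ⟨h1, h2, h3, by simp, h5⟩
  · refine ⟨h1, h2, h3, ?_, h5⟩
    simp only
    unfold tauL
    rw [List.length_map, List.length_range]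
    exact Nat.le_succ _

theorem uC_inv {m n r : ℕ} {c : St} (h : StInv m n c) (D : ℕ) (ans : List Outcome) :
    StInv m n (uC m r c D ans) := by
  unfold uC
  split_ifs
  · exact h
  · exact ⟨h.1, h.2.1, h.2.2.1, h.2.2.2.1, stepA_small h.2.2.2.2 (min_le_right _ _)⟩

theorem st_inv (m n : ℕ) (h : List Outcome) (k : ℕ) : StInv m n (strat2.st m n h k) := by
  induction k with
  | zero =>
    have e : ∀ N M, CH.Small N M [] := fun N M => ⟨Nat.zero_le _, by simp⟩
    exact ⟨e _ _, e _ _, Nat.zero_le _, Nat.zero_le _, e _ _, e _ _, e _ _⟩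
  | succ k ih =>
    rw [Strat.st_succ]
    set c := strat2.st m n h k
    set ans := strat2.chunk m n h k
    change StInv m n (upd2 m n k c ans)
    unfold upd2
    split_ifs with h1 h2
    · exact uA_inv ih h1 _
    · exact uB_inv ih _
    · exact uC_inv ih _ _

theorem isPoly : strat2.IsPoly qk where
  qry := by
    exact qQry (U := fun x : ((List Unit × List Unit) × St) × ℕ => x.1.1.1)
      (V := fun x => x.1.1.2) (c := fun x => x.1.2) (j := fun x => x.2)
      (by fun_prop) (by fun_prop) (by fun_prop) (by fun_prop)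
  prog := by
    exact pProg (U := fun x : (List Unit × List Unit) × Qn => x.1.1)
      (V := fun x => x.1.2) (Q := fun x => x.2) (by fun_prop) (by fun_prop) (by fun_prop)
  upd := by
    exact qUpd (U := fun x : ((List Unit × List Unit) × ℕ) × (St × List Outcome) => x.1.1.1)
      (V := fun x => x.1.1.2) (ans := fun x => x.2.2) (c := fun x => x.2.1)
      (r := fun x => x.1.2) (by fun_prop) (by fun_prop) (by fun_prop) (by fun_prop)
      (by fun_prop)
  fin := by
    change Poly (fun c : St => c.2.1.1)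
    fun_prop
  B := by
    change UPoly (fun u : List Unit × List Unit =>
      2 * u.1.length * (2 * u.1.length + u.2.length + 3) * (degT u.1.length + 1))
    have h1 : UPoly (fun u : List Unit × List Unit => u.1.length) := UPoly.length (by fun_prop)
    have h2 : UPoly (fun u : List Unit × List Unit => u.2.length) := UPoly.length (by fun_prop)
    have h3 : UPoly (fun u : List Unit × List Unit => degT u.1.length) := uDeg (by fun_prop)
    exact UPoly.mul (UPoly.mul (UPoly.mul (UPoly.const 2) h1) (UPoly.add (UPoly.add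
      (UPoly.mul (UPoly.const 2) h1) h2) (UPoly.const 3))) (UPoly.add h3 (UPoly.const 1))
  T := by
    change UPoly (fun u : List Unit × List Unit =>
      u.2.length + 1 + 2 * u.1.length * (u.2.length * (2 * u.1.length) + 3))
    have h1 : UPoly (fun u : List Unit × List Unit => u.1.length) := UPoly.length (by fun_prop)
    have h2 : UPoly (fun u : List Unit × List Unit => u.2.length) := UPoly.length (by fun_prop)
    exact UPoly.add (UPoly.add h2 (UPoly.const 1)) (UPoly.mul (UPoly.mul (UPoly.const 2) h1)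
      (UPoly.add (UPoly.mul h2 (UPoly.mul (UPoly.const 2) h1)) (UPoly.const 3)))
  size := by
    refine ⟨5 * (Polynomial.X * (4 * (2 * Polynomial.X) + 2) + 1) +
      (4 * Polynomial.X + 1) + (4 * (Polynomial.X + 1) + 1) + 20, fun m n h k _ => ?_⟩
    obtain ⟨h0, hC, hk, hτ, h1, h2, h3⟩ := st_inv m n h k
    set c := strat2.st m n h k
    have e : (5 * (Polynomial.X * (4 * (2 * Polynomial.X) + 2) + 1) +
        (4 * Polynomial.X + 1) + (4 * (Polynomial.X + 1) + 1) + 20 : Polynomial ℕ).eval (m + n) =
        5 * ((m + n) * (4 * (2 * (m + n)) + 2) + 1) + (4 * (m + n) + 1) +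
          (4 * ((m + n) + 1) + 1) + 20 := by
      simp
    rw [e]
    have e0 : sz c = sz c.1 + sz c.2 + 1 := by rw [← sz_pair]
    have e5 : sz c.1 = sz c.1.1 + sz c.1.2 + 1 := by rw [← sz_pair]
    have e6 : sz c.1.1 = sz c.1.1.1 + sz c.1.1.2 + 1 := by rw [← sz_pair]
    have e7 : sz c.1.2 = sz c.1.2.1 + sz c.1.2.2 + 1 := by rw [← sz_pair]
    have e1 : sz c.2 = sz c.2.1 + sz c.2.2 + 1 := by rw [← sz_pair]
    have e2 : sz c.2.1 = sz c.2.1.1 + sz c.2.1.2 + 1 := by rw [← sz_pair]
    have e3 : sz c.2.2 = sz c.2.2.1 + sz c.2.2.2 + 1 := by rw [← sz_pair]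
    have e4 : sz c.2.2.2 = sz c.2.2.2.1 + sz c.2.2.2.2 + 1 := by rw [← sz_pair]
    have f1 := sz_bool_le c.2.1.1
    have f2 := sz_bool_le c.2.1.2
    have hCl : c.1.1.2.length ≤ n := hC.1.trans hk
    have g1 : c.1.1.2.length * (4 * (2 * m) + 2) + 1 ≤
        (m + n) * (4 * (2 * (m + n)) + 2) + 1 :=
      Nat.add_le_add_right (Nat.mul_le_mul (by omega) (by omega)) 1
    have g2 : c.1.2.1 * (4 * m + 2) + 1 ≤ (m + n) * (4 * (2 * (m + n)) + 2) + 1 :=
      Nat.add_le_add_right (Nat.mul_le_mul (by omega) (by omega)) 1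
    have g3 : c.1.2.1 * (4 * n + 2) + 1 ≤ (m + n) * (4 * (2 * (m + n)) + 2) + 1 :=
      Nat.add_le_add_right (Nat.mul_le_mul (by omega) (by omega)) 1
    have f4 := h1.sz
    have f5 := h2.sz
    have f6 := h3.sz
    have f7 := h0.sz
    have f8 := hC.sz
    have f9 := sz_le_length_mul c.1.2.2 3 (fun x _ => sz_bool_le x)
    have f10 : c.1.2.2.length * (3 + 1) + 1 ≤ 4 * ((m + n) + 1) + 1 := by omega
    have f11 := sz_nat_le c.1.2.1
    have f12 : c.1.2.1.size ≤ c.1.2.1 := Nat.size_le.2 Nat.lt_two_pow_self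
    omega

/-- The algorithm. -/
theorem main : ∃ α : Alg, PolyControl α ∧ OracleFree α ∧
    Pool.Agent.R533.GU.DecidesOn ∅ (fun m n A _ => SignCoherent m n A) α :=
  ⟨strat2.alg qk, Strat.polyControl isPoly, Strat.oracleFree, decides⟩

end Pool.Agent.H682.CP
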