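import Pool.Agent.H682.CP.Weak
import Pool.Agent.H682.CH.Det

set_option autoImplicit false

/-!
# Minors of the original instance
-/

namespace Pool.Agent.H682.CP

open Matrix Pool.Agent.H558R2 Pool.Agent.H622R3.SM Pool.Agent.H682.CH

variable {m n : ℕ} {A : Fin m → Fin n → ℝ} {b : Fin m → ℝ} {L : List ℕ}

/-- The vector of the values at the positions of `L`. -/
noncomputable def xv (n : ℕ) (L : List ℕ) (y : Fin m → ℝ) : Fin n → ℝ := fun c =>
  if h : (c : ℕ) < L.length then (if h' : L[(c : ℕ)] < m then y ⟨L[(c : ℕ)], h'⟩ else 0) else 0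

/-- The matrix of a list of rows. -/
noncomputable def Wl (A : Fin m → Fin n → ℝ) (b : Fin m → ℝ) (L : List ℕ) :
    Matrix (Fin m) (Fin m) ℝ :=
  Matrix.of fun r j => wmat A b r (betaQ m n (lq m n L) j)

theorem mv_eq_det : mv A b (lq m n L) = (Wl A b L).det := rfl

theorem w_lq (hL : L.Nodup) (hlen : L.length ≤ n) (r j : Fin m) :
    Wl A b L r j = if h : (j : ℕ) ∈ L then
        A r ⟨L.idxOf (j : ℕ), (List.idxOf_lt_length_iff.2 h).trans_le hlen⟩
      else if r = j then 1 else 0 := by
  unfold Wl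
  rw [of_apply, betaQ_apply]
  by_cases hj : (j : ℕ) ∈ L
  · rw [dif_pos hj]
    have h4 : L.idxOf (j : ℕ) < L.length := List.idxOf_lt_length_iff.2 hj
    have h5 := colQ_lq_mem (m := m) (n := n) hL h4
    rw [List.getElem_idxOf] at h5
    rw [h5]
    exact w_col A b r ⟨L.idxOf (j : ℕ), h4.trans_le hlen⟩
  · rw [dif_neg hj, colQ_lq_not hj, w_unit A b r j.2]
    by_cases h : r = j
    · rw [if_pos h, if_pos (by rw [h])]
    · rw [if_neg h, if_neg (fun h3 => h (Fin.ext h3))]

theorem W_mulVec (hL : L.Nodup) (hlen : L.length ≤ n) (hm : ∀ j ∈ L, j < m) (y : Fin m → ℝ)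
    (r : Fin m) : (Wl A b L *ᵥ y) r = A r ⬝ᵥ xv n L y + if (r : ℕ) ∈ L then 0 else y r := by
  set pos : Fin L.length → Fin m := fun a => ⟨L[(a : ℕ)], hm _ (List.getElem_mem _)⟩ with hpos
  have hinj : Function.Injective pos := by
    intro a c hac
    have h4 := congrArg Fin.val hac
    simp only [hpos] at h4
    exact Fin.ext ((List.Nodup.getElem_inj_iff hL).1 h4)
  rw [mulVec, dotProduct,
    ← Finset.sum_filter_add_sum_filter_not Finset.univ (fun j : Fin m => (j : ℕ) ∈ L)]
  congr 1
  · have h5 : (Finset.univ : Finset (Fin m)).filter (fun j : Fin m => (j : ℕ) ∈ L) =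
        Finset.univ.image pos := by
      ext j
      simp only [Finset.mem_filter, Finset.mem_univ, Finset.mem_image, true_and]
      constructor
      · intro hj
        have h5 : L.idxOf (j : ℕ) < L.length := List.idxOf_lt_length_iff.2 hj
        refine ⟨⟨L.idxOf (j : ℕ), h5⟩, Fin.ext ?_⟩
        simp only [hpos]
        exact List.getElem_idxOf h5
      · rintro ⟨a, rfl⟩
        exact List.getElem_mem _
    have h6 : A r ⬝ᵥ xv n L y = ∑ a : Fin L.length, A r (Fin.castLE hlen a) * y (pos a) := by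
      rw [dotProduct]
      have h7 : ∑ a : Fin L.length, A r (Fin.castLE hlen a) * y (pos a) =
          ∑ c ∈ Finset.univ.image (Fin.castLE hlen), A r c * xv n L y c := by
        rw [Finset.sum_image fun a _ c _ h => Fin.castLE_injective hlen h]
        refine Finset.sum_congr rfl fun a _ => ?_
        congr 1
        unfold xv
        have h8 : ((Fin.castLE hlen a : Fin n) : ℕ) < L.length := a.2
        rw [dif_pos h8]
        have h9 : L[((Fin.castLE hlen a : Fin n) : ℕ)] < m := hm _ (List.getElem_mem _)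
        rw [dif_pos h9]
        rfl
      rw [h7]
      symm
      refine Finset.sum_subset (Finset.subset_univ _) fun c _ hc => ?_
      have h8 : ¬ (c : ℕ) < L.length := by
        intro h9
        apply hc
        rw [Finset.mem_image]
        exact ⟨⟨c, h9⟩, Finset.mem_univ _, rfl⟩
      unfold xv
      rw [dif_neg h8, mul_zero]
    rw [h5, Finset.sum_image fun a _ c _ h => hinj h, h6]
    refine Finset.sum_congr rfl fun a _ => ?_
    have h6 : ((pos a : Fin m) : ℕ) ∈ L := List.getElem_mem _
    have h7 : L.idxOf ((pos a : Fin m) : ℕ) = a := by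
      simp only [hpos]
      exact List.Nodup.idxOf_getElem hL _ _
    rw [w_lq hL hlen, dif_pos h6]
    congr 2
    exact Fin.ext h7
  · have h5 : ∀ j ∈ (Finset.univ : Finset (Fin m)).filter (fun j : Fin m => ¬ (j : ℕ) ∈ L),
        Wl A b L r j * y j = if r = j then y r else 0 := by
      intro j hj
      rw [w_lq hL hlen, dif_neg (Finset.mem_filter.1 hj).2]
      by_cases h : r = j
      · rw [if_pos h, if_pos h, one_mul, h]
      · rw [if_neg h, if_neg h, zero_mul]
    rw [Finset.sum_congr rfl h5, Finset.sum_ite_eq]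
    by_cases h6 : (r : ℕ) ∈ L
    · rw [if_pos h6, if_neg (by simp [h6])]
    · rw [if_neg h6, if_pos (by simp [h6])]

theorem lq_snoc (L : List ℕ) (i : ℕ) : lq m n (L ++ [i]) = lq m n L ++ [(i, m + n + L.length)] := by
  unfold lq
  rw [List.zipIdx_append, List.map_append]
  simp

/-- The minor for one more row. -/
theorem mv_snoc {i : ℕ} (hi : i < m) (hiL : i ∉ L) (hlen : L.length < n) :
    mv A b (lq m n (L ++ [i])) =
      ((Wl A b L).updateCol ⟨i, hi⟩ (fun r => A r ⟨L.length, hlen⟩)).det := by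
  unfold mv dd
  congr 1
  ext r j
  rw [of_apply, updateCol_apply, betaQ_apply, lq_snoc]
  by_cases hj : j = ⟨i, hi⟩
  · rw [if_pos hj, hj, colQ_append_right _ _ _ (fun p hp h2 =>
      hiL (mem_lq_fst.1 ⟨p, hp, h2⟩)), colQ_cons, if_pos rfl]
    exact w_col A b r ⟨L.length, hlen⟩
  · rw [if_neg hj]
    unfold Wl
    rw [of_apply, betaQ_apply]
    by_cases hjL : (j : ℕ) ∈ L
    · rw [colQ_append_left _ _ _ (mem_lq_fst.2 hjL)]
    · rw [colQ_append_right _ _ _ (fun p hp h2 => hjL (mem_lq_fst.1 ⟨p, hp, h2⟩)), colQ_cons,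
        colQ_nil, if_neg (fun h2 => hj (Fin.ext h2.symm)), colQ_lq_not hjL]

/-- The basis can be extended. -/
theorem exists_snoc (hL : L.Nodup) (hlen : L.length < n) (hm : ∀ j ∈ L, j < m)
    (h0 : mv A b (lq m n L) ≠ 0) (hr : ∀ x : Fin n → ℝ, (∀ r, A r ⬝ᵥ x = 0) → x = 0) :
    ∃ i < m, i ∉ L ∧ mv A b (lq m n (L ++ [i])) ≠ 0 := by
  by_contra hcon
  push Not at hcon
  rw [mv_eq_det] at h0
  set W := Wl A b L with hW
  set v : Fin m → ℝ := fun r => A r ⟨L.length, hlen⟩ with hv
  set y := cramer W v with hy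
  have h1 : W *ᵥ y = W.det • v := mulVec_cramer W v
  have h2 : ∀ r : Fin m, (r : ℕ) ∉ L → y r = 0 := by
    intro r hr'
    have := hcon r r.2 hr'
    rw [mv_snoc r.2 hr' hlen] at this
    rw [hy, cramer_apply]
    exact this
  have h3 : xv n L y - W.det • Pi.single ⟨L.length, hlen⟩ 1 = 0 := by
    refine hr _ fun r => ?_
    have h4 := congrFun h1 r
    rw [hW, W_mulVec hL hlen.le hm, ← hW] at h4
    have h5 : (if (r : ℕ) ∈ L then 0 else y r) = 0 := by
      split_ifs with h
      · rfl
      · exact h2 r h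
    rw [h5, add_zero, Pi.smul_apply, smul_eq_mul] at h4
    rw [dotProduct_sub, dotProduct_smul, dotProduct_single, h4, hv]
    simp
  have h4 := congrFun h3 ⟨L.length, hlen⟩
  rw [Pi.sub_apply, Pi.smul_apply, Pi.single_eq_same, Pi.zero_apply] at h4
  unfold xv at h4
  rw [dif_neg (lt_irrefl _)] at h4
  apply h0
  simp only [smul_eq_mul, mul_one] at h4
  linarith

/-- Rows with a nonzero minor are independent. -/
theorem indep_of_mv (hL : L.Nodup) (hlen : L.length = n) (hm : ∀ j ∈ L, j < m)
    (h0 : mv A b (lq m n L) ≠ 0) {x : Fin n → ℝ}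
    (hx : ∀ r : Fin m, (r : ℕ) ∈ L → A r ⬝ᵥ x = 0) : x = 0 := by
  rw [mv_eq_det] at h0
  set y : Fin m → ℝ := fun j => if h : (j : ℕ) ∈ L then
    x ⟨L.idxOf (j : ℕ), (List.idxOf_lt_length_iff.2 h).trans_le hlen.le⟩ else -(A j ⬝ᵥ x) with hy
  have hxv : xv n L y = x := by
    ext c
    have hc : (c : ℕ) < L.length := by
      rw [hlen]
      exact c.2
    unfold xv
    rw [dif_pos hc, dif_pos (hm _ (List.getElem_mem _)), hy]
    simp only
    rw [dif_pos (List.getElem_mem _)]
    congr 1
    exact Fin.ext (List.Nodup.idxOf_getElem hL _ _)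
  have h1 : Wl A b L *ᵥ y = 0 := by
    ext r
    rw [W_mulVec hL hlen.le hm, hxv, Pi.zero_apply]
    by_cases h : (r : ℕ) ∈ L
    · rw [if_pos h, hx r h, add_zero]
    · rw [if_neg h, hy]
      simp only
      rw [dif_neg h]
      ring
  have h2 : y = 0 := eq_zero_of_mulVec_eq_zero h0 h1
  rw [← hxv, h2]
  ext c
  unfold xv
  split_ifs <;> rfl

theorem nodup_set (hL : L.Nodup) {p i : ℕ} (hi : i ∉ L) :
    (L.set p i).Nodup := by
  rw [List.nodup_iff_injective_get]
  intro a c hac
  have ha : (a : ℕ) < L.length := a.2.trans_eq List.length_set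
  have hc : (c : ℕ) < L.length := c.2.trans_eq List.length_set
  simp only [List.get_eq_getElem, List.getElem_set] at hac
  refine Fin.ext ?_
  split_ifs at hac with h1 h2 h2
  · rw [← h1, ← h2]
  · exact absurd (hac ▸ List.getElem_mem hc) hi
  · exact absurd (hac.symm ▸ List.getElem_mem ha) hi
  · exact (List.Nodup.getElem_inj_iff hL).1 hac

theorem getElem_notMem_set (hL : L.Nodup) {p i : ℕ} (hp : p < L.length) (hi : i ∉ L) :
    L[p] ∉ L.set p i := by
  intro h
  obtain ⟨a, ha, h2⟩ := List.mem_iff_getElem.1 h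
  rw [List.getElem_set] at h2
  split_ifs at h2 with h3
  · exact hi (h2 ▸ List.getElem_mem hp)
  · rw [List.length_set] at ha
    exact h3 ((List.Nodup.getElem_inj_iff hL).1 h2).symm

/-- The minor in which the row `i` replaces the row `p` of the basis. -/
theorem mv_set (hL : L.Nodup) (hlen : L.length = n) (hm : ∀ j ∈ L, j < m)
    (h0 : mv A b (lq m n L) ≠ 0) {i p : ℕ} (hi : i < m) (hiL : i ∉ L) (hp : p < L.length)
    {z : Fin n → ℝ} (hz : ∀ r : Fin m, (r : ℕ) ∈ L → A r ⬝ᵥ z = if (r : ℕ) = L[p] then 1 else 0) :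
    mv A b (lq m n (L.set p i)) = (A ⟨i, hi⟩ ⬝ᵥ z) * mv A b (lq m n L) := by
  have hpm : L[p] < m := hm _ (List.getElem_mem _)
  have hne : (⟨i, hi⟩ : Fin m) ≠ ⟨L[p], hpm⟩ := by
    intro h
    apply hiL
    have := congrArg Fin.val h
    simp only at this
    rw [this]
    exact List.getElem_mem _
  set W := Wl A b L with hW
  set e : Fin m → ℝ := Pi.single ⟨L[p], hpm⟩ 1 with he
  set y := cramer W e with hy
  have h1 : W *ᵥ y = W.det • e := mulVec_cramer W e
  have h2 : ∀ r : Fin m, A r ⬝ᵥ xv n L y + (if (r : ℕ) ∈ L then 0 else y r) =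
      W.det * e r := by
    intro r
    have h4 := congrFun h1 r
    rw [hW, W_mulVec hL hlen.le hm, ← hW] at h4
    exact h4
  have h3 : xv n L y = W.det • z := by
    rw [← sub_eq_zero]
    refine indep_of_mv hL hlen hm h0 fun r hr => ?_
    have h4 := h2 r
    rw [if_pos hr, add_zero] at h4
    rw [dotProduct_sub, dotProduct_smul, h4, hz r hr, he]
    by_cases h : (r : ℕ) = L[p]
    · have h5 : r = ⟨L[p], hpm⟩ := Fin.ext h
      rw [if_pos h, h5, Pi.single_eq_same]
      simp
    · have h5 : r ≠ ⟨L[p], hpm⟩ := fun h6 => h (congrArg Fin.val h6)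
      rw [if_neg h, Pi.single_eq_of_ne h5]
      simp
  have h4 : (W.updateCol ⟨i, hi⟩ e).det = -(W.det * (A ⟨i, hi⟩ ⬝ᵥ z)) := by
    have h5 := h2 ⟨i, hi⟩
    rw [if_neg hiL, h3, dotProduct_smul, he, Pi.single_eq_of_ne hne, mul_zero] at h5
    rw [← cramer_apply, ← hy]
    simp only [smul_eq_mul] at h5
    linarith
  have h5 : (Wl A b (L.set p i)) =
      ((W.updateCol ⟨i, hi⟩ e).submatrix id (Equiv.swap ⟨i, hi⟩ ⟨L[p], hpm⟩)) := by
    ext r j
    have hnd := nodup_set (p := p) hL hiL
    have hlen' : (L.set p i).length ≤ n := by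
      rw [List.length_set, hlen]
    rw [submatrix_apply, id, updateCol_apply]
    by_cases hj1 : j = ⟨i, hi⟩
    · rw [hj1, Equiv.swap_apply_left, if_neg hne.symm, w_lq hnd hlen', hW, w_lq hL hlen.le]
      have h6 : ((⟨i, hi⟩ : Fin m) : ℕ) ∈ L.set p i := List.mem_iff_getElem.2 ⟨p, by
        rw [List.length_set]; exact hp, by rw [List.getElem_set_self]⟩
      have h7 : ((⟨L[p], hpm⟩ : Fin m) : ℕ) ∈ L := List.getElem_mem _
      rw [dif_pos h6, dif_pos h7]
      congr 1
      refine Fin.ext ?_
      simp only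
      rw [List.Nodup.idxOf_getElem hL]
      have h8 : (L.set p i).idxOf i = p := by
        have h9 : (L.set p i)[p]'(by rw [List.length_set]; exact hp) = i :=
          List.getElem_set_self _
        have h10 := List.Nodup.idxOf_getElem hnd p (by rw [List.length_set]; exact hp)
        rwa [h9] at h10
      exact h8
    · by_cases hj2 : j = ⟨L[p], hpm⟩
      · rw [hj2, Equiv.swap_apply_right, if_pos rfl, w_lq hnd hlen',
          dif_neg (getElem_notMem_set hL hp hiL), he, Pi.single_apply]
      · rw [Equiv.swap_apply_of_ne_of_ne hj1 hj2, if_neg hj1, w_lq hnd hlen', hW,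
          w_lq hL hlen.le]
        have h6 : (j : ℕ) ∈ L.set p i ↔ (j : ℕ) ∈ L := by
          constructor
          · intro h
            rcases List.mem_or_eq_of_mem_set h with h | h
            · exact h
            · exact absurd (Fin.ext h) hj1
          · intro h
            obtain ⟨a, ha, h7⟩ := List.mem_iff_getElem.1 h
            refine List.mem_iff_getElem.2 ⟨a, by rw [List.length_set]; exact ha, ?_⟩
            rw [List.getElem_set, if_neg, h7]
            rintro rfl
            exact hj2 (Fin.ext h7.symm)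
        by_cases h7 : (j : ℕ) ∈ L
        · rw [dif_pos (h6.2 h7), dif_pos h7]
          congr 1
          refine Fin.ext ?_
          simp only
          obtain ⟨a, ha, h8⟩ := List.mem_iff_getElem.1 h7
          have hap : p ≠ a := by
            rintro rfl
            exact hj2 (Fin.ext h8.symm)
          have h9 : (L.set p i)[a]'(by rw [List.length_set]; exact ha) = (j : ℕ) := by
            rw [List.getElem_set, if_neg hap, h8]
          have h10 := List.Nodup.idxOf_getElem hnd a (by rw [List.length_set]; exact ha)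
          rw [h9] at h10
          have h11 := List.Nodup.idxOf_getElem hL a ha
          rw [h8] at h11
          rw [h10, h11]
        · rw [dif_neg (fun h => h7 (h6.1 h)), dif_neg h7]
  rw [mv_eq_det, mv_eq_det, h5, det_permute', h4, Equiv.Perm.sign_swap hne, ← hW]
  push_cast
  ring

end Pool.Agent.H682.CP
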