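import Pool.Agent.H682.CP.Basis

set_option autoImplicit false

/-!
# The signs of the rows
-/

namespace Pool.Agent.H682.CP

open Matrix Pool.Agent.H558R2 Pool.Agent.H622R3.SM Pool.Agent.H682.CH

/-! ### Labels of a graph -/

/-- The label of a vertex. -/
def lb (lab : List (ℕ × Bool)) (v : ℕ) : Outcome :=
  ((lab.filter fun p => decide (p.1 = v)).head?).map fun p => p.2

/-- One step: a forced label, or a new one. -/
def labStep (m : ℕ) (E : List (ℕ × (ℕ × Bool))) (lab : List (ℕ × Bool)) : List (ℕ × Bool) :=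
  (((E.filter fun e => (!(lb lab e.1).isSome) && (lb lab e.2.1).isSome).head?).map fun e =>
    (e.1, ((lb lab e.2.1).getD true ^^ !e.2.2)) :: lab).getD
      ((((List.range m).filter fun v => !(lb lab v).isSome).head?.map fun v =>
        (v, true) :: lab).getD lab)

/-- All labels. -/
def labs (m : ℕ) (E : List (ℕ × (ℕ × Bool))) : List (ℕ × Bool) :=
  (List.range m).foldl (fun lab _ => labStep m E lab) []

/-- All labels, as a list. -/
def tauL (m : ℕ) (E : List (ℕ × (ℕ × Bool))) : List Bool :=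
  (List.range m).map fun v => (lb (labs m E) v).getD true

/-- A solution of the constraints. -/
def Sol (E : List (ℕ × (ℕ × Bool))) (τ : ℕ → Bool) : Prop :=
  ∀ e ∈ E, (τ e.1 = τ e.2.1 ↔ e.2.2 = true)

theorem lb_cons (v : ℕ) (x : Bool) (lab : List (ℕ × Bool)) (w : ℕ) :
    lb ((v, x) :: lab) w = if v = w then some x else lb lab w := by
  unfold lb
  by_cases h : v = w
  · rw [List.filter_cons_of_pos (by simpa using h), if_pos h]
    rfl
  · rw [List.filter_cons_of_neg (by simpa using h), if_neg h]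

/-- The number of vertices without label. -/
def Un (m : ℕ) (lab : List (ℕ × Bool)) : ℕ :=
  ((Finset.range m).filter fun v => lb lab v = none).card

/-- The solution extends the labels. -/
def Ext (τ : ℕ → Bool) (lab : List (ℕ × Bool)) : Prop := ∀ v x, lb lab v = some x → τ v = x

theorem un_cons {m v : ℕ} {x : Bool} {lab : List (ℕ × Bool)} (hv : v < m)
    (h : lb lab v = none) : Un m ((v, x) :: lab) ≤ Un m lab - 1 := by
  unfold Un
  have h1 : v ∈ (Finset.range m).filter fun v => lb lab v = none := by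
    rw [Finset.mem_filter, Finset.mem_range]
    exact ⟨hv, h⟩
  rw [← Finset.card_erase_of_mem h1]
  refine Finset.card_le_card fun w hw => ?_
  rw [Finset.mem_filter, lb_cons] at hw
  rw [Finset.mem_erase, Finset.mem_filter]
  obtain ⟨h2, h3⟩ := hw
  split_ifs at h3 with h4
  exact ⟨fun h5 => h4 h5.symm, h2, h3⟩

theorem labStep_ok {m : ℕ} {E : List (ℕ × (ℕ × Bool))} {lab : List (ℕ × Bool)}
    (hsym : ∀ e ∈ E, ∃ e' ∈ E, e'.1 = e.2.1 ∧ e'.2.1 = e.1) (hm : ∀ e ∈ E, e.1 < m)
    {τ : ℕ → Bool} (hS : Sol E τ) (hE : Ext τ lab) :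
    Un m (labStep m E lab) ≤ Un m lab - 1 ∧ ∃ τ', Sol E τ' ∧ Ext τ' (labStep m E lab) := by
  unfold labStep
  cases h1 : (E.filter fun e => (!(lb lab e.1).isSome) && (lb lab e.2.1).isSome).head? with
  | some e =>
    rw [Option.map_some, Option.getD_some]
    have h2 := List.mem_of_mem_head? h1
    rw [List.mem_filter, Bool.and_eq_true, Bool.not_eq_true', Option.isSome_eq_false_iff,
      Option.isNone_iff_eq_none, Option.isSome_iff_exists] at h2
    obtain ⟨h3, h4, x, h5⟩ := h2
    refine ⟨un_cons (hm e h3) h4, τ, hS, fun v y hv => ?_⟩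
    rw [lb_cons] at hv
    split_ifs at hv with h6
    · rw [← h6]
      have h7 := hE _ _ h5
      have h8 := hS e h3
      rw [h7] at h8
      rw [h5, Option.getD_some, Option.some.injEq] at hv
      rw [← hv]
      cases h9 : e.2.2 <;> cases h10 : τ e.1 <;> cases x <;> simp_all
    · exact hE v y hv
  | none =>
    rw [Option.map_none, Option.getD_none]
    have h2 : ∀ e ∈ E, lb lab e.1 = none → lb lab e.2.1 = none := by
      intro e he h3
      by_contra h4
      rw [List.head?_eq_none_iff] at h1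
      have h5 : e ∈ E.filter fun e => (!(lb lab e.1).isSome) && (lb lab e.2.1).isSome := by
        rw [List.mem_filter, Bool.and_eq_true, Bool.not_eq_true', Option.isSome_eq_false_iff,
          Option.isNone_iff_eq_none]
        exact ⟨he, h3, Option.isSome_iff_ne_none.2 h4⟩
      rw [h1] at h5
      simp at h5
    cases h3 : ((List.range m).filter fun v => !(lb lab v).isSome).head? with
    | some v =>
      rw [Option.map_some, Option.getD_some]
      have h4 := List.mem_of_mem_head? h3
      rw [List.mem_filter, List.mem_range, Bool.not_eq_true', Option.isSome_eq_false_iff,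
        Option.isNone_iff_eq_none] at h4
      obtain ⟨h5, h6⟩ := h4
      refine ⟨un_cons h5 h6, ?_⟩
      by_cases h7 : τ v = true
      · refine ⟨τ, hS, fun w y hw => ?_⟩
        rw [lb_cons] at hw
        split_ifs at hw with h8
        · rw [← h8, h7]
          simpa using hw
        · exact hE w y hw
      · refine ⟨fun w => if lb lab w = none then !(τ w) else τ w, fun e he => ?_, fun w y hw => ?_⟩
        · simp only
          have h8 : lb lab e.1 = none ↔ lb lab e.2.1 = none := by
            refine ⟨h2 e he, fun h9 => ?_⟩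
            obtain ⟨e', he', h10, h11⟩ := hsym e he
            rw [← h11]
            exact h2 e' he' (by rw [h10]; exact h9)
          have h12 := hS e he
          by_cases h9 : lb lab e.1 = none
          · rw [if_pos h9, if_pos (h8.1 h9), Bool.not_inj_iff]
            exact h12
          · rw [if_neg h9, if_neg (fun h => h9 (h8.2 h))]
            exact h12
        · rw [lb_cons] at hw
          simp only
          split_ifs at hw with h8
          · rw [← h8, if_pos h6]
            rw [Bool.not_eq_true] at h7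
            rw [h7]
            simpa using hw
          · rw [if_neg (by rw [hw]; simp)]
            exact hE w y hw
    | none =>
      rw [Option.map_none, Option.getD_none]
      refine ⟨?_, τ, hS, hE⟩
      have h4 : Un m lab = 0 := by
        unfold Un
        rw [Finset.card_eq_zero, Finset.filter_eq_empty_iff]
        intro v hv h5
        rw [List.head?_eq_none_iff] at h3
        have h6 : v ∈ (List.range m).filter fun v => !(lb lab v).isSome := by
          rw [List.mem_filter, List.mem_range, Bool.not_eq_true', Option.isSome_eq_false_iff,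
            Option.isNone_iff_eq_none]
          exact ⟨Finset.mem_range.1 hv, h5⟩
        rw [h3] at h6
        simp at h6
      omega

theorem tauL_ok {m : ℕ} {E : List (ℕ × (ℕ × Bool))}
    (hsym : ∀ e ∈ E, ∃ e' ∈ E, e'.1 = e.2.1 ∧ e'.2.1 = e.1) (hm : ∀ e ∈ E, e.1 < m)
    {τ : ℕ → Bool} (hS : Sol E τ) : Sol E fun v => (tauL m E).getD v true := by
  have key : ∀ k, Un m ((List.range k).foldl (fun lab _ => labStep m E lab) []) ≤ m - k ∧
      ∃ τ', Sol E τ' ∧ Ext τ' ((List.range k).foldl (fun lab _ => labStep m E lab) []) := by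
    intro k
    induction k with
    | zero =>
      refine ⟨?_, τ, hS, fun v x hv => ?_⟩
      · unfold Un
        refine (Finset.card_filter_le _ _).trans ?_
        rw [Finset.card_range, Nat.sub_zero]
      · exact absurd hv (by simp [lb])
    | succ k ih =>
      obtain ⟨h1, τ', h2, h3⟩ := ih
      rw [List.range_succ, List.foldl_append]
      obtain ⟨h4, h5⟩ := labStep_ok hsym hm h2 h3
      refine ⟨?_, h5⟩
      have h6 : Un m (labStep m E ((List.range k).foldl (fun lab _ => labStep m E lab) [])) ≤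
          m - (k + 1) := by omega
      exact h6
  obtain ⟨h1, τ', h2, h3⟩ := key m
  rw [Nat.sub_self, Nat.le_zero] at h1
  have h4 : ∀ v < m, (tauL m E).getD v true = τ' v := by
    intro v hv
    have h5 : lb (labs m E) v ≠ none := by
      intro h5
      unfold Un at h1
      rw [Finset.card_eq_zero, Finset.filter_eq_empty_iff] at h1
      exact h1 (Finset.mem_range.2 hv) h5
    obtain ⟨x, hx⟩ := Option.ne_none_iff_exists'.1 h5
    have h6 := h3 v x hx
    unfold tauL
    rw [List.getD_eq_getElem _ _ (by simpa using hv), List.getElem_map, List.getElem_range, hx, h6]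
    rfl
  intro e he
  obtain ⟨e', he', h5, h6⟩ := hsym e he
  simp only
  rw [h4 _ (hm e he), h4 _ (by rw [← h5]; exact hm e' he')]
  exact h2 e he

/-! ### The constraints -/

/-- The number of elements of `L` above `i`, without `b`. -/
def rkB (L : List ℕ) (b i : ℕ) : ℕ := (L.filter fun j => !decide (j = b) && decide (i < j)).length

/-- Whether the rows `i` and `L p` have the same label. -/
def sameB (n : ℕ) (L : List ℕ) (g : ℕ → Outcome) (i p : ℕ) : Bool :=
  decide (g (i * (n + 1) + p) = g n) ^^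
    decide ((rkB L (L.getD p 0) i + rkB L (L.getD p 0) (L.getD p 0)) % 2 = 1)

/-- The constraints. -/
def edges (m n : ℕ) (L : List ℕ) (g : ℕ → Outcome) : List (ℕ × (ℕ × Bool)) :=
  (List.range m).flatMap fun i => (List.range n).flatMap fun p =>
    if (!decide (i ∈ L) && (g (i * (n + 1) + p)).isSome) = true then
      [(i, (L.getD p 0, sameB n L g i p)), (L.getD p 0, (i, sameB n L g i p))] else []

theorem mem_edges {m n : ℕ} {L : List ℕ} {g : ℕ → Outcome} {e : ℕ × (ℕ × Bool)} :
    e ∈ edges m n L g ↔ ∃ i < m, ∃ p < n, i ∉ L ∧ g (i * (n + 1) + p) ≠ none ∧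
      (e = (i, (L.getD p 0, sameB n L g i p)) ∨ e = (L.getD p 0, (i, sameB n L g i p))) := by
  unfold edges
  simp only [List.mem_flatMap, List.mem_range]
  constructor
  · rintro ⟨i, hi, p, hp, h⟩
    split_ifs at h with h1
    · rw [Bool.and_eq_true, Option.isSome_iff_ne_none] at h1
      simp only [List.mem_cons, List.not_mem_nil, or_false] at h
      exact ⟨i, hi, p, hp, by simpa using h1.1, h1.2, h⟩
    · simp at h
  · rintro ⟨i, hi, p, hp, h1, h2, h⟩
    refine ⟨i, hi, p, hp, ?_⟩
    rw [if_pos (by rw [Bool.and_eq_true, Option.isSome_iff_ne_none]; exact ⟨by simpa using h1, h2⟩)]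
    simp only [List.mem_cons, List.not_mem_nil, or_false]
    exact h

theorem rkB_eq {L : List ℕ} (hL : L.Nodup) (b i : ℕ) :
    rkB L b i = rk (L.toFinset.erase b) i := by
  unfold rkB rk
  have h : (L.toFinset.erase b).filter (fun j => i < j) =
      (L.filter fun j => !decide (j = b) && decide (i < j)).toFinset := by
    ext j
    simp only [Finset.mem_filter, Finset.mem_erase, List.mem_toFinset, List.mem_filter,
      Bool.and_eq_true, Bool.not_eq_true', decide_eq_false_iff_not, decide_eq_true_eq]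
    tauto
  rw [h, List.toFinset_card_of_nodup (hL.filter _)]

theorem sg_mul_self (x : Bool) : sg x * sg x = 1 := by
  cases x <;> simp [sg]

theorem sg4 (a b c d : Bool) (h : 0 < sg a * sg b * (sg c * sg d)) :
    sg a * sg b = sg c * sg d := by
  cases a <;> cases b <;> cases c <;> cases d <;>
    first
    | (norm_num [sg]; done)
    | (norm_num [sg] at h; done)

theorem rel_iff {c D : ℝ} (hc : c ≠ 0) (hD : D ≠ 0) (r : ℕ) (x y : Bool) :
    ((x = y) ↔ (decide (signOut (c * D) = signOut D) ^^ decide (r % 2 = 1)) = true) ↔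
      0 < (-1 : ℝ) ^ r * (sg x * sg y) * c := by
  have h1 : signOut (c * D) = signOut D ↔ 0 < c := by
    rcases lt_or_gt_of_ne hD with h | h
    · rw [signOut_false.2 h, signOut_false]
      constructor
      · intro h2
        by_contra h3
        push Not at h3
        have := mul_nonneg_of_nonpos_of_nonpos h3 h.le
        linarith
      · intro h2
        exact mul_neg_of_pos_of_neg h2 h
    · rw [signOut_true.2 h, signOut_true]
      exact mul_pos_iff_of_pos_right h
  have h2 : decide (signOut (c * D) = signOut D) = decide (0 < c) := by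
    rw [decide_eq_decide]
    exact h1
  rw [h2]
  rcases Nat.mod_two_eq_zero_or_one r with h5 | h5
  · have h6 : (-1 : ℝ) ^ r = 1 := Even.neg_one_pow (Nat.even_iff.2 h5)
    rw [h6, h5]
    rcases lt_or_gt_of_ne hc with h | h
    · rw [decide_eq_false (not_lt.2 h.le)]
      cases x <;> cases y <;> simp [sg] <;> linarith
    · rw [decide_eq_true h]
      cases x <;> cases y <;> simp [sg] <;> linarith
  · have h6 : (-1 : ℝ) ^ r = -1 := Odd.neg_one_pow (Nat.odd_iff.2 h5)
    rw [h6, h5]
    rcases lt_or_gt_of_ne hc with h | h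
    · rw [decide_eq_false (not_lt.2 h.le)]
      cases x <;> cases y <;> simp [sg] <;> linarith
    · rw [decide_eq_true h]
      cases x <;> cases y <;> simp [sg] <;> linarith

section Real

variable {m n : ℕ} (A : Fin m → Fin n → ℝ) (b : Fin m → ℝ) (L : List ℕ)

/-- The rows, for natural indices. -/
noncomputable def An (i : ℕ) : Fin n → ℝ := if h : i < m then A ⟨i, h⟩ else 0

/-- `z` is dual to the row number `p` of the basis. -/
def Dual (p : ℕ) (z : Fin n → ℝ) : Prop := ∀ r : Fin m, (r : ℕ) ∈ L → ∀ hp : p < L.length,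
  A r ⬝ᵥ z = if (r : ℕ) = L[p] then 1 else 0

/-- The labels satisfy the constraints. -/
def GoodLab (τ : ℕ → Bool) : Prop := ∀ i : Fin m, (i : ℕ) ∉ L → ∀ (p : ℕ) (hp : p < L.length),
  ∀ z : Fin n → ℝ, Dual A L p z → A i ⬝ᵥ z ≠ 0 →
    0 < (-1 : ℝ) ^ (rk (L.toFinset.erase L[p]) i + rk (L.toFinset.erase L[p]) L[p]) *
      (sg (τ i) * sg (τ L[p])) * (A i ⬝ᵥ z)

variable {A b L}

theorem An_lt {i : ℕ} (hi : i < m) : An A i = A ⟨i, hi⟩ := dif_pos hi

/-- The matrix of the basis is invertible. -/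
theorem det_basis (hlen : L.length = n)
    (hind : ∀ x : Fin n → ℝ, (∀ r : Fin m, (r : ℕ) ∈ L → A r ⬝ᵥ x = 0) → x = 0)
    (D : ℕ → ℝ) (hD : ∀ i, D i ≠ 0) :
    (Matrix.of fun (p : Fin n) (j : Fin n) =>
      (D (L[(p : ℕ)]'(by rw [hlen]; exact p.2)) •
        An A (L[(p : ℕ)]'(by rw [hlen]; exact p.2))) j).det ≠ 0 := by
  intro h0
  obtain ⟨y, hy0, hy⟩ := exists_mulVec_eq_zero_iff.2 h0
  apply hy0
  refine hind y fun r hr => ?_
  obtain ⟨a, ha, h1⟩ := List.mem_iff_getElem.1 hr
  have h2 := congrFun hy ⟨a, by omega⟩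
  have h3 : (D (L[a]) • An A (L[a])) ⬝ᵥ y = 0 := h2
  rw [smul_dotProduct, h1, An_lt r.2, smul_eq_mul] at h3
  exact (mul_eq_zero.1 h3).resolve_left (hD _)

/-- The dual vectors exist. -/
theorem exists_dual (hL : L.Nodup) (hlen : L.length = n)
    (hind : ∀ x : Fin n → ℝ, (∀ r : Fin m, (r : ℕ) ∈ L → A r ⬝ᵥ x = 0) → x = 0) {p : ℕ}
    (hp : p < L.length) : ∃ z, Dual A L p z := by
  have h1 := det_basis hlen hind (fun _ => 1) (fun _ => one_ne_zero)
  set B : Matrix (Fin n) (Fin n) ℝ := Matrix.of fun (p : Fin n) (j : Fin n) =>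
      ((1 : ℝ) • An A (L[(p : ℕ)]'(by rw [hlen]; exact p.2))) j with hB
  have hBu : IsUnit B.det := isUnit_iff_ne_zero.2 h1
  refine ⟨fun k => B⁻¹ k ⟨p, by omega⟩, fun r hr _ => ?_⟩
  obtain ⟨a, ha, h2⟩ := List.mem_iff_getElem.1 hr
  have h3 : (B * B⁻¹) ⟨a, by omega⟩ ⟨p, by omega⟩ =
      (1 : Matrix (Fin n) (Fin n) ℝ) ⟨a, by omega⟩ ⟨p, by omega⟩ := by
    rw [mul_nonsing_inv _ hBu]
  rw [mul_apply, one_apply] at h3
  have h4 : ∀ k, B ⟨a, by omega⟩ k = A r k := by
    intro k
    rw [hB, of_apply, one_smul]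
    simp only
    rw [h2, An_lt r.2]
  simp only [h4] at h3
  rw [dotProduct, h3]
  by_cases h5 : a = p
  · subst h5
    rw [if_pos rfl, if_pos h2.symm]
  · rw [if_neg (fun h6 => h5 (congrArg Fin.val h6)), if_neg]
    intro h6
    rw [← h2] at h6
    exact h5 ((List.Nodup.getElem_inj_iff hL).1 h6)

/-- The meaning of the constraints. -/
theorem sol_iff (hL : L.Nodup) (hlen : L.length = n) (hm : ∀ j ∈ L, j < m)
    (h0 : mv A b (lq m n L) ≠ 0) {g : ℕ → Outcome}
    (hg : ∀ i < m, ∀ p < n, g (i * (n + 1) + p) = signOut (mv A b (lq m n (L.set p i))))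
    (hgn : g n = signOut (mv A b (lq m n L))) (τ : ℕ → Bool) :
    Sol (edges m n L g) τ ↔ GoodLab A L τ := by
  have hind : ∀ x : Fin n → ℝ, (∀ r : Fin m, (r : ℕ) ∈ L → A r ⬝ᵥ x = 0) → x = 0 :=
    fun x hx => indep_of_mv hL hlen hm h0 hx
  have key : ∀ (i : Fin m), (i : ℕ) ∉ L → ∀ (p : ℕ) (hp : p < L.length), ∀ z : Fin n → ℝ,
      Dual A L p z → (g (i * (n + 1) + p) = none ↔ A i ⬝ᵥ z = 0) ∧ (A i ⬝ᵥ z ≠ 0 →
      ((τ i = τ L[p] ↔ sameB n L g i p = true) ↔
      0 < (-1 : ℝ) ^ (rk (L.toFinset.erase L[p]) i + rk (L.toFinset.erase L[p]) L[p]) *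
      (sg (τ i) * sg (τ L[p])) * (A i ⬝ᵥ z))) := by
    intro i hi p hp z hz
    have h1 := mv_set (b := b) hL hlen hm h0 i.2 hi hp (z := z) fun r hr => hz r hr hp
    have h2 := hg i i.2 p (by omega)
    rw [h1] at h2
    refine ⟨?_, fun hne => ?_⟩
    · rw [h2, signOut_none]
      constructor
      · intro h3
        exact (mul_eq_zero.1 h3).resolve_right h0
      · intro h3
        have h4 : A ⟨(i : ℕ), i.2⟩ ⬝ᵥ z = 0 := h3
        rw [h4, zero_mul]
    · unfold sameB
      rw [h2, hgn, List.getD_eq_getElem _ _ hp, rkB_eq hL, rkB_eq hL]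
      exact rel_iff hne h0 _ _ _
  constructor
  · intro hS i hi p hp z hz hne
    obtain ⟨h1, h2⟩ := key i hi p hp z hz
    refine (h2 hne).1 ?_
    have h3 := hS (i, (L.getD p 0, sameB n L g i p)) (mem_edges.2 ⟨i, i.2, p, by omega, hi,
      fun h => hne (h1.1 h), Or.inl rfl⟩)
    simp only at h3
    rwa [List.getD_eq_getElem _ _ hp] at h3
  · intro hG e he
    obtain ⟨i, hi, p, hp, h1, h2, h3⟩ := mem_edges.1 he
    have hp' : p < L.length := by omega
    obtain ⟨z, hz⟩ := exists_dual hL hlen hind hp'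
    obtain ⟨h4, h5⟩ := key ⟨i, hi⟩ h1 p hp' z hz
    have hne : A ⟨i, hi⟩ ⬝ᵥ z ≠ 0 := fun h => h2 (h4.2 h)
    have h6 := (h5 hne).2 (hG ⟨i, hi⟩ h1 p hp' z hz hne)
    simp only at h6
    rcases h3 with rfl | rfl
    · simp only
      rw [List.getD_eq_getElem _ _ hp']
      exact h6
    · simp only
      rw [List.getD_eq_getElem _ _ hp', eq_comm]
      exact h6

variable {σ : ℝ}

/-- The labels of a weak system satisfy the constraints. -/
theorem goodLab_of_weak (hL : L.Nodup) (hlen : L.length = n) (hm : ∀ j ∈ L, j < m)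
    (hind : ∀ x : Fin n → ℝ, (∀ r : Fin m, (r : ℕ) ∈ L → A r ⬝ᵥ x = 0) → x = 0) {τ : ℕ → Bool}
    (hV : Weak n m (fun i => sg (τ i) • An A i) σ) : GoodLab A L τ := by
  intro i hi p hp z hz hne
  have hb : L[p] ∈ L := List.getElem_mem _
  have hbm : L[p] < m := hm _ hb
  have h1 := hV.sign (K := L.toFinset.erase L[p]) (i := i) (j := L[p])
    (fun k hk => hm k (List.mem_toFinset.1 (Finset.mem_of_mem_erase hk))) i.2 hbm
    (fun h => hi (List.mem_toFinset.1 (Finset.mem_of_mem_erase h)))
    (Finset.notMem_erase _ _) (by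
      rw [Finset.card_erase_of_mem (List.mem_toFinset.2 hb), List.toFinset_card_of_nodup hL]
      omega) (fun y hy => by
      refine hind y fun r hr => ?_
      have h2 := hy r (by
        rw [Finset.insert_erase (List.mem_toFinset.2 hb)]
        exact List.mem_toFinset.2 hr)
      rw [smul_dotProduct, An_lt r.2, smul_eq_mul] at h2
      exact (mul_eq_zero.1 h2).resolve_left (sg_ne _)) (x := z) (fun k hk => by
      have h2 := List.mem_toFinset.1 (Finset.mem_of_mem_erase hk)
      rw [smul_dotProduct, An_lt (hm k h2), hz ⟨k, hm k h2⟩ h2 hp,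
        if_neg (Finset.ne_of_mem_erase hk), smul_zero])
  simp only [smul_dotProduct, smul_eq_mul] at h1
  rw [An_lt i.2, An_lt hbm, hz ⟨L[p], hbm⟩ hb hp, if_pos rfl, mul_one] at h1
  have e : (-1 : ℝ) ^ (rk (L.toFinset.erase L[p]) i + rk (L.toFinset.erase L[p]) L[p]) *
      (sg (τ i) * sg (τ L[p])) * (A i ⬝ᵥ z) =
      (-1 : ℝ) ^ (rk (L.toFinset.erase L[p]) i + rk (L.toFinset.erase L[p]) L[p]) *
      (sg (τ i) * (A i ⬝ᵥ z) * sg (τ L[p])) := by ring
  rw [e]
  refine lt_of_le_of_ne h1 (Ne.symm ?_)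
  exact mul_ne_zero (pow_ne_zero _ (by norm_num)) (mul_ne_zero (mul_ne_zero (sg_ne _) hne)
    (sg_ne _))

/-- Labels which satisfy the constraints give a weak system. -/
theorem weak_of_goodLab (hL : L.Nodup) (hlen : L.length = n) (hm : ∀ j ∈ L, j < m)
    (hind : ∀ x : Fin n → ℝ, (∀ r : Fin m, (r : ℕ) ∈ L → A r ⬝ᵥ x = 0) → x = 0)
    {τ τ' : ℕ → Bool} (hV : Weak n m (fun i => sg (τ i) • An A i) σ) (hG : GoodLab A L τ') :
    ∃ σ', Weak n m (fun i => sg (τ' i) • An A i) σ' := by
  have hG0 := goodLab_of_weak hL hlen hm hind hV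
  have hB := det_basis hlen hind (fun i => sg (τ i)) (fun i => sg_ne _)
  set B : Matrix (Fin n) (Fin n) ℝ := Matrix.of fun (p : Fin n) (j : Fin n) =>
      (sg (τ (L[(p : ℕ)]'(by rw [hlen]; exact p.2))) •
        An A (L[(p : ℕ)]'(by rw [hlen]; exact p.2))) j with hBdef
  have hBu : IsUnit B.det := isUnit_iff_ne_zero.2 hB
  obtain ⟨σ', h1⟩ := hV.relabel (fun p => L[(p : ℕ)]'(by rw [hlen]; exact p.2)) hB
    (fun i => sg (τ' i) * sg (τ i)) (fun p => mul_ne_zero (sg_ne _) (sg_ne _)) (by
    intro i hi p hne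
    have hp : (p : ℕ) < L.length := by
      rw [hlen]
      exact p.2
    set z' : Fin n → ℝ := fun k => B⁻¹ k p with hz'
    have hBz : ∀ (a : ℕ) (ha : a < L.length), sg (τ L[a]) * (An A L[a] ⬝ᵥ z') =
        if a = (p : ℕ) then 1 else 0 := by
      intro a ha
      have h3 : (B * B⁻¹) ⟨a, by omega⟩ p =
          (1 : Matrix (Fin n) (Fin n) ℝ) ⟨a, by omega⟩ p := by
        rw [mul_nonsing_inv _ hBu]
      rw [mul_apply, one_apply] at h3
      have h4 : sg (τ L[a]) * (An A L[a] ⬝ᵥ z') = (sg (τ L[a]) • An A L[a]) ⬝ᵥ z' := by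
        rw [smul_dotProduct, smul_eq_mul]
      rw [h4]
      refine h3.trans ?_
      by_cases h5 : a = p
      · rw [if_pos (Fin.ext h5), if_pos h5]
      · rw [if_neg (fun h6 => h5 (congrArg Fin.val h6)), if_neg h5]
    have hne' : (sg (τ i) • An A i) ⬝ᵥ z' ≠ 0 := hne
    rw [smul_dotProduct, smul_eq_mul] at hne'
    by_cases hiL : i ∈ L
    · obtain ⟨a, ha, h2⟩ := List.mem_iff_getElem.1 hiL
      have h3 := hBz a ha
      rw [h2] at h3
      by_cases h4 : a = p
      · have h5 : i = L[(p : ℕ)] := by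
          rw [← h2]
          simp only [h4]
        rw [← h5]
      · rw [if_neg h4] at h3
        exact absurd h3 hne'
    · have hdual : Dual A L p (sg (τ L[(p : ℕ)]) • z') := by
        intro r hr _
        obtain ⟨a, ha, h2⟩ := List.mem_iff_getElem.1 hr
        have h3 := hBz a ha
        rw [h2, An_lt r.2] at h3
        rw [dotProduct_smul, smul_eq_mul]
        by_cases h4 : a = p
        · rw [if_pos h4] at h3
          have h5 : (r : ℕ) = L[(p : ℕ)] := by
            rw [← h2]
            simp only [h4]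
          rw [if_pos h5, ← h5]
          exact h3
        · rw [if_neg h4] at h3
          have h5 : A ⟨(r : ℕ), r.2⟩ ⬝ᵥ z' = 0 := (mul_eq_zero.1 h3).resolve_left (sg_ne _)
          rw [if_neg, h5, mul_zero]
          intro h6
          rw [← h2] at h6
          exact h4 ((List.Nodup.getElem_inj_iff hL).1 h6)
      rw [An_lt hi] at hne'
      have hc : A ⟨i, hi⟩ ⬝ᵥ (sg (τ L[(p : ℕ)]) • z') ≠ 0 := by
        rw [dotProduct_smul, smul_eq_mul]
        exact mul_ne_zero (sg_ne _) (right_ne_zero_of_mul hne')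
      have g1 := hG ⟨i, hi⟩ hiL p hp _ hdual hc
      have g2 := hG0 ⟨i, hi⟩ hiL p hp _ hdual hc
      have g3 := mul_pos g1 g2
      simp only at g3
      set s := (-1 : ℝ) ^ (rk (L.toFinset.erase L[(p : ℕ)]) i +
        rk (L.toFinset.erase L[(p : ℕ)]) L[(p : ℕ)]) with hs
      have e1 : s * (sg (τ' i) * sg (τ' L[(p : ℕ)])) *
          (A ⟨i, hi⟩ ⬝ᵥ (sg (τ L[(p : ℕ)]) • z')) * (s * (sg (τ i) * sg (τ L[(p : ℕ)])) *
          (A ⟨i, hi⟩ ⬝ᵥ (sg (τ L[(p : ℕ)]) • z'))) =
          (s * (A ⟨i, hi⟩ ⬝ᵥ (sg (τ L[(p : ℕ)]) • z'))) ^ 2 * ((sg (τ' i) * sg (τ i)) *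
          (sg (τ' L[(p : ℕ)]) * sg (τ L[(p : ℕ)]))) := by ring
      rw [e1] at g3
      have g4 := pos_of_mul_pos_right g3 (sq_nonneg _)
      exact sg4 _ _ _ _ g4)
  refine ⟨σ', ?_⟩
  have h2 : (fun i => (sg (τ' i) * sg (τ i)) • (fun i => sg (τ i) • An A i) i) =
      fun i => sg (τ' i) • An A i := by
    funext i
    simp only [smul_smul]
    rw [mul_assoc, sg_mul_self, mul_one]
  rw [h2] at h1
  exact h1

end Real

end Pool.Agent.H682.CP
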