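import Pool.Agent.H682.CH.Machine

set_option autoImplicit false

/-!
# Algorithms which ask for signs of numbers computed by straight-line programs

As `Pool/Agent/H682/CH/Machine.lean`, with an arbitrary kind of questions.
-/

namespace Pool.Agent.H682.CP

open Pool.Agent.NPC Pool.Agent.NPC.ER Pool.Agent.NPC.H612 Pool.Agent.H558R2
open Pool.Agent.H622R3.SM

/-- A kind of questions: programs, with the register of the result, and the intended result. -/
structure QK (Q : Type) where
  /-- the program -/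
  prog : ℕ → ℕ → Q → List Instr
  /-- the register with the result -/
  out : Reg
  /-- the result -/
  val : ∀ {m n : ℕ}, Inp m n → Q → ℝ

/-- All numbers are small on rational inputs. -/
def SmallNums (pb : Polynomial ℕ) {m n : ℕ} (a : Inp m n) (nums : List ℝ) : Prop :=
  ∀ (A' : Matrix (Fin m) (Fin n) ℚ) (b' : Fin m → ℚ), (∀ i j, ((A' i j : ℚ) : ℝ) = a.1 i j) →
    (∀ i, ((b' i : ℚ) : ℝ) = a.2 i) → ∀ v ∈ nums, ∃ r : ℚ, (r : ℝ) = v ∧
      bitLength r ≤ pb.eval (inputLength A' b')

/-- The programs are correct. -/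
def QK.Spec {Q : Type} (κ : QK Q) (pl pb : Polynomial ℕ) : Prop :=
  ∀ (m n : ℕ) (q : Q) (a : Inp m n) (ρ : Reg → ℝ), 1 ≤ m →
    (∀ r ∈ baseReg, ρ r = start a.1 a.2 r) →
    ∃ ρ' nums, exec (κ.prog m n q) ρ = some (ρ', nums) ∧
      (∀ r ∈ baseReg, ρ' r = start a.1 a.2 r) ∧ ρ' κ.out = κ.val a q ∧
      nums.length ≤ pl.eval (m + n) ∧ SmallNums pb a nums

/-- A strategy with states in `C` and questions in `Q`. -/
structure Strat (C Q : Type) where
  /-- initial state -/
  init : C
  /-- the questions of a round -/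
  qry : ℕ → ℕ → C → ℕ → Q
  /-- the new state -/
  upd : ℕ → ℕ → ℕ → C → List Outcome → C
  /-- the answer -/
  fin : C → Bool
  /-- number of questions in a round -/
  B : ℕ → ℕ → ℕ
  /-- number of rounds -/
  T : ℕ → ℕ → ℕ

namespace Strat

variable {C Q : Type} (σ : Strat C Q) (κ : QK Q)

/-- The outcomes of the round `i`. -/
def chunk (m n : ℕ) (h : List Outcome) (i : ℕ) : List Outcome :=
  (List.range (σ.B m n)).map fun j => h.getD (i * σ.B m n + j) none

/-- The state after `k` rounds, as a function of the history. -/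
def st (m n : ℕ) (h : List Outcome) (k : ℕ) : C :=
  (List.range k).foldl (fun c i => σ.upd m n i c (σ.chunk m n h i)) σ.init

/-- The algorithm of a strategy. -/
def alg : Alg := fun m n h =>
  if h.length < σ.T m n * σ.B m n then
    (κ.prog m n (σ.qry m n (σ.st m n h (min (h.length / σ.B m n) (σ.T m n)))
      (h.length % σ.B m n)), Test.sign κ.out)
  else ([], Test.answer (σ.fin (σ.st m n h (min (h.length / σ.B m n) (σ.T m n)))))

/-- The true outcome of a question. -/
noncomputable def tr {m n : ℕ} (a : Inp m n) (q : Q) : Outcome := signOut (κ.val a q)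

/-- The true state after `k` rounds. -/
noncomputable def tst {m n : ℕ} (a : Inp m n) : ℕ → C
  | 0 => σ.init
  | k + 1 => σ.upd m n k (tst a k)
      ((List.range (σ.B m n)).map fun j => tr κ a (σ.qry m n (tst a k) j))

theorem st_succ (m n : ℕ) (h : List Outcome) (k : ℕ) :
    σ.st m n h (k + 1) = σ.upd m n k (σ.st m n h k) (σ.chunk m n h k) := by
  rw [st, List.range_succ, List.foldl_append]
  rfl

/-- The outcomes in the history are true. -/
def Good {m n : ℕ} (a : Inp m n) (h : List Outcome) : Prop :=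
  ∀ j < h.length, h.getD j none =
    tr κ a (σ.qry m n (σ.tst κ a (j / σ.B m n)) (j % σ.B m n))

variable {σ κ}

theorem st_eq {m n : ℕ} (hB : 0 < σ.B m n) {a : Inp m n} {h : List Outcome}
    (hg : σ.Good κ a h) : ∀ k, k * σ.B m n ≤ h.length → σ.st m n h k = σ.tst κ a k
  | 0, _ => rfl
  | k + 1, hk => by
    have h1 : k * σ.B m n ≤ h.length := by
      refine le_trans ?_ hk
      exact Nat.mul_le_mul_right _ (Nat.le_succ k)
    rw [st_succ, st_eq hB hg k h1, tst]
    congr 1
    unfold chunk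
    refine List.map_congr_left fun j hj => ?_
    rw [List.mem_range] at hj
    have h2 : k * σ.B m n + j < h.length := by
      rw [Nat.succ_mul] at hk
      omega
    rw [hg _ h2]
    have h3 : (k * σ.B m n + j) / σ.B m n = k := by
      rw [mul_comm, Nat.mul_add_div hB, Nat.div_eq_of_lt hj, add_zero]
    have h4 : (k * σ.B m n + j) % σ.B m n = j := by
      rw [mul_comm, Nat.mul_add_mod, Nat.mod_eq_of_lt hj]
    rw [h3, h4]

theorem good_append {m n : ℕ} {a : Inp m n} {h : List Outcome} (hg : σ.Good κ a h) {o : Outcome}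
    (ho : o = tr κ a (σ.qry m n (σ.tst κ a (h.length / σ.B m n)) (h.length % σ.B m n))) :
    σ.Good κ a (h ++ [o]) := by
  intro j hj
  rw [List.length_append, List.length_singleton] at hj
  rcases Nat.lt_succ_iff_lt_or_eq.1 hj with hj | rfl
  · rw [List.getD_append _ _ _ _ hj]
    exact hg j hj
  · rw [List.getD_append_right _ _ _ _ le_rfl, Nat.sub_self]
    exact ho

theorem run_alg {pl pb : Polynomial ℕ} (hκ : κ.Spec pl pb) {m n : ℕ} (hm : 1 ≤ m)
    (hB : 0 < σ.B m n) (a : Inp m n) :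
    ∀ (r : ℕ) (h : List Outcome) (k : ℕ) (ρ : Reg → ℝ), h.length + r = σ.T m n * σ.B m n →
      r + 1 ≤ k → σ.Good κ a h → (∀ x ∈ baseReg, ρ x = start a.1 a.2 x) →
      ∃ nums steps, run ∅ (σ.alg κ m n) k h ρ =
          some (σ.fin (σ.tst κ a (σ.T m n)), nums, steps) ∧
        steps ≤ r * (pl.eval (m + n) + 1) ∧ SmallNums pb a nums := by
  intro r
  induction r with
  | zero =>
    intro h k ρ hlen hk hg _
    obtain ⟨k, rfl⟩ : ∃ k', k = k' + 1 := ⟨k - 1, by omega⟩
    have h1 : h.length = σ.T m n * σ.B m n := by omega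
    have h2 : min (h.length / σ.B m n) (σ.T m n) = σ.T m n := by
      rw [h1, Nat.mul_div_cancel _ hB, min_self]
    have hα : σ.alg κ m n h = ([], Test.answer (σ.fin (σ.tst κ a (σ.T m n)))) := by
      unfold alg
      rw [if_neg (by omega), h2, st_eq hB hg _ h1.ge]
    refine ⟨[], 0, TRUN.run_answer _ _ _ _ _ _ hα, by omega, ?_⟩
    intro A' b' _ _ v hv
    simp at hv
  | succ r ih =>
    intro h k ρ hlen hk hg hρ
    obtain ⟨k, rfl⟩ : ∃ k', k = k' + 1 := ⟨k - 1, by omega⟩
    have h1 : h.length < σ.T m n * σ.B m n := by omega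
    have h3 : h.length / σ.B m n < σ.T m n := by
      rw [Nat.div_lt_iff_lt_mul hB]
      exact h1
    have h2 : min (h.length / σ.B m n) (σ.T m n) = h.length / σ.B m n := min_eq_left h3.le
    set q := σ.qry m n (σ.tst κ a (h.length / σ.B m n)) (h.length % σ.B m n) with hq
    have hα : σ.alg κ m n h = (κ.prog m n q, Test.sign κ.out) := by
      unfold alg
      rw [if_pos h1, h2, st_eq hB hg _ (Nat.div_mul_le_self _ _)]
    obtain ⟨ρ', nums', hex, hb, h11, hl, hs⟩ := hκ m n q a ρ hm hρ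
    obtain ⟨nums, steps, h4, h5, h6⟩ := ih (h ++ [signOut (ρ' κ.out)]) k ρ'
      (by rw [List.length_append, List.length_singleton]; omega) (by omega)
      (good_append hg (by rw [h11]; rfl)) hb
    refine ⟨_, _, TRUN.run_sign _ _ _ _ _ _ _ _ _ hα hex _ _ _ h4, ?_, ?_⟩
    · rw [Nat.succ_mul]
      omega
    · intro A' b' hA hb' v hv
      rw [List.mem_append] at hv
      rcases hv with hv | hv
      · exact hs A' b' hA hb' v hv
      · exact h6 A' b' hA hb' v hv

/-- A strategy which is correct on a class gives an algorithm which decides the class. -/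
theorem decidesOn {pl pb : Polynomial ℕ} (hκ : κ.Spec pl pb)
    {K : ∀ m n : ℕ, Matrix (Fin m) (Fin n) ℝ → (Fin m → ℝ) → Prop}
    (p : Polynomial ℕ) (hp : ∀ m n, 1 ≤ m → 1 ≤ n → σ.T m n * σ.B m n ≤ p.eval (m + n))
    (hB : ∀ m n, 1 ≤ m → 0 < σ.B m n)
    (hfin : ∀ m n : ℕ, 1 ≤ m → 1 ≤ n → ∀ (A : Matrix (Fin m) (Fin n) ℝ) (b : Fin m → ℝ),
      K m n A b → (σ.fin (σ.tst κ (A, b) (σ.T m n)) = true ↔
        ∃ x : Fin n → ℝ, b ≤ A.mulVec x)) :
    Pool.Agent.R533.GU.DecidesOn ∅ K (σ.alg κ) := by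
  refine ⟨p * (pl + 1) + 1 + pb, fun m n hm hn A b hK => ?_⟩
  have e1 : ∀ x : ℕ, (p * (pl + 1) + 1 + pb).eval x =
      p.eval x * (pl.eval x + 1) + 1 + pb.eval x := by
    intro x
    simp [Polynomial.eval_add, Polynomial.eval_mul]
  have h1 := hp m n hm hn
  have h2 : σ.T m n * σ.B m n * (pl.eval (m + n) + 1) ≤ p.eval (m + n) * (pl.eval (m + n) + 1) :=
    Nat.mul_le_mul_right _ h1
  have h3 : p.eval (m + n) ≤ p.eval (m + n) * (pl.eval (m + n) + 1) := Nat.le_mul_of_pos_right _
    (by omega)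
  obtain ⟨nums, steps, h4, h5, h6⟩ := run_alg (σ := σ) hκ hm (hB m n hm) (A, b)
    (σ.T m n * σ.B m n) [] ((p * (pl + 1) + 1 + pb).eval (m + n)) (start A b) (by simp)
    (by rw [e1]; omega) (by intro j hj; simp at hj) (fun _ _ => rfl)
  refine ⟨_, nums, steps, h4, hfin m n hm hn A b hK, by rw [e1]; omega, ?_⟩
  intro A' b' hA hb v hv
  obtain ⟨r, hr1, hr2⟩ := h6 A' b' hA hb v hv
  refine ⟨r, hr1, ?_⟩
  rw [e1]
  omega

end Strat

end Pool.Agent.H682.CP
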