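import Pool.Agent.H682.CP.Labels
import Pool.Agent.H682.CH.Correct

set_option autoImplicit false

/-!
# The perturbed instances
-/

namespace Pool.Agent.H682.CP

open Matrix Pool.Agent.H558R2 Pool.Agent.H622R3.SM Pool.Agent.H682.CH Filter

/-- The label of a row. -/
def tf (τ : List Bool) (i : ℕ) : Bool := τ.getD i true

/-- The type of a row of the perturbed instance. -/
def ty (τ : List Bool) (i : ℕ) : Bool := if i % 2 = 0 then tf τ (i / 2) else !(tf τ (i / 2))

theorem sg_eqS (τ : List Bool) (i j : ℕ) :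
    sg (tf τ i) * sg (tf τ j) = if eqS τ i j = true then 1 else -1 := by
  unfold eqS
  change _ = if decide (tf τ i = tf τ j) = true then (1 : ℝ) else -1
  cases tf τ i <;> cases tf τ j <;> simp [sg]

variable {m n : ℕ}

/-- The coefficients of the perturbation. -/
noncomputable def cf (τ : List Bool) (m t i j : ℕ) : ℝ :=
  sg (tf τ i) * sg (tf τ j) * (t : ℝ) ^ ex m i j

theorem psum_eq (τ : List Bool) (a : Inp m n) (t i : ℕ) (c : Fin n) :
    psum τ a t i c m = ∑ j : Fin m, cf τ m t i j * a.1 j c := by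
  unfold psum
  rw [Finset.sum_range]
  refine Finset.sum_congr rfl fun j _ => ?_
  have h1 : start a.1 a.2 [0, (j : ℕ), (c : ℕ)] = a.1 j c := by
    change (if h : (j : ℕ) < m ∧ (c : ℕ) < n then a.1 ⟨j, h.1⟩ ⟨c, h.2⟩ else 0) = _
    rw [dif_pos ⟨j.2, c.2⟩]
  unfold trm cf
  rw [h1, sg_eqS]
  split_ifs <;> ring

theorem psum_dot (τ : List Bool) (a : Inp m n) (t i : ℕ) (x : Fin n → ℝ) :
    ∑ c : Fin n, psum τ a t i c m * x c = ∑ j : Fin m, cf τ m t i j * (a.1 j ⬝ᵥ x) := by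
  simp only [psum_eq, dotProduct, Finset.sum_mul, Finset.mul_sum]
  rw [Finset.sum_comm]
  refine Finset.sum_congr rfl fun j _ => Finset.sum_congr rfl fun c _ => ?_
  ring

theorem psum_pV (τ : List Bool) (a : Inp m n) (t i : ℕ) (c : Fin n) :
    psum τ a t i c m = sg (tf τ i) * pV m t (fun i => sg (tf τ i) • An a.1 i) i c := by
  rw [psum_eq, pV, Finset.sum_range, Finset.mul_sum]
  refine Finset.sum_congr rfl fun j _ => ?_
  rw [Pi.smul_apply, An_lt j.2, smul_eq_mul]
  unfold cf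
  ring

theorem pin_row (τ : List Bool) (a : Inp m n) (t : ℕ) (r : Fin (2 * m)) (c : Fin n) :
    (pin τ a t).1 r c = sg (ty τ r) * pV m t (fun i => sg (tf τ i) • An a.1 i) (r / 2) c := by
  unfold pin ty
  simp only
  split_ifs with h
  · rw [psum_pV]
  · rw [psum_pV, sg_not]
    ring

/-! ### Feasibility -/

theorem ex_self (m i : ℕ) : ex m i i = 2 * m * m := by
  unfold ex
  simp

theorem ex_le2 {m i j : ℕ} (h : i ≠ j) : ex m i j ≤ 2 * m * m - 2 := by
  unfold ex
  have : 1 ≤ (i - j) * (i - j) + (j - i) * (j - i) := by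
    rcases lt_or_gt_of_ne h with h | h
    · have : 0 < (j - i) * (j - i) := by
        have : 0 < j - i := by omega
        positivity
      omega
    · have : 0 < (i - j) * (i - j) := by
        have : 0 < i - j := by omega
        positivity
      omega
  omega

theorem pert_bound (τ : List Bool) (hm : 1 ≤ m) (t : ℕ) (ht : 1 ≤ t) (v : Fin m → ℝ)
    (i : Fin m) : |∑ j : Fin m, cf τ m t i j * v j - (t : ℝ) ^ (2 * m * m - 2) * (t : ℝ) ^ 2 * v i| ≤
      (t : ℝ) ^ (2 * m * m - 2) * ∑ j, |v j| := by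
  have ht' : (1 : ℝ) ≤ t := by exact_mod_cast ht
  have h2 : 2 ≤ 2 * m * m := by
    have : 1 ≤ m * m := Nat.mul_le_mul hm hm
    nlinarith
  have h1 : cf τ m t i i = (t : ℝ) ^ (2 * m * m - 2) * (t : ℝ) ^ 2 := by
    unfold cf
    rw [sg_mul_self, one_mul, ex_self, ← pow_add, Nat.sub_add_cancel h2]
  have h3 : ∑ j : Fin m, cf τ m t i j * v j - (t : ℝ) ^ (2 * m * m - 2) * (t : ℝ) ^ 2 * v i =
      ∑ j ∈ Finset.univ.erase i, cf τ m t i j * v j := by
    rw [← h1, ← Finset.add_sum_erase _ _ (Finset.mem_univ i)]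
    ring
  rw [h3, Finset.mul_sum]
  refine (Finset.abs_sum_le_sum_abs _ _).trans ?_
  refine le_trans ?_ (Finset.sum_le_sum_of_subset_of_nonneg (Finset.erase_subset i _)
    fun j _ _ => by positivity)
  refine Finset.sum_le_sum fun j hj => ?_
  rw [abs_mul]
  refine mul_le_mul_of_nonneg_right ?_ (abs_nonneg _)
  unfold cf
  have h4 : |sg (tf τ i) * sg (tf τ j)| = 1 := by
    cases tf τ i <;> cases tf τ j <;> simp [sg]
  rw [abs_mul, h4, one_mul, abs_of_nonneg (by positivity)]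
  refine pow_le_pow_right₀ ht' (ex_le2 fun h => Finset.ne_of_mem_erase hj (Fin.ext h.symm))

/-- Feasibility of the perturbed instance. -/
def PF (τ : List Bool) (a : Inp m n) (t : ℕ) : Prop :=
  ∃ x : Fin n → ℝ, ∀ r, (pin τ a t).2 r ≤ (pin τ a t).1 r ⬝ᵥ x

theorem pin_dot_even (τ : List Bool) (a : Inp m n) (t : ℕ) (i : Fin m) (x : Fin n → ℝ) :
    (pin τ a t).1 ⟨2 * i, by omega⟩ ⬝ᵥ x = ∑ j : Fin m, cf τ m t i j * (a.1 j ⬝ᵥ x) := by
  rw [← psum_dot, dotProduct]
  refine Finset.sum_congr rfl fun c _ => ?_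
  unfold pin
  simp only
  rw [if_pos (by omega), Nat.mul_div_cancel_left _ (by norm_num : 0 < 2)]

theorem pin_dot_odd (τ : List Bool) (a : Inp m n) (t : ℕ) (i : Fin m) (x : Fin n → ℝ) :
    (pin τ a t).1 ⟨2 * i + 1, by omega⟩ ⬝ᵥ x = -∑ j : Fin m, cf τ m t i j * (a.1 j ⬝ᵥ x) := by
  rw [← psum_dot, dotProduct, ← Finset.sum_neg_distrib]
  refine Finset.sum_congr rfl fun c _ => ?_
  unfold pin
  simp only
  rw [if_neg (by omega)]
  have e : (2 * (i : ℕ) + 1) / 2 = i := by omega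
  rw [e]
  ring

theorem pin_rhs_even (τ : List Bool) (a : Inp m n) (hm : 1 ≤ m) (t : ℕ) (i : Fin m) :
    (pin τ a t).2 ⟨2 * i, by omega⟩ =
      (t : ℝ) ^ (2 * m * m - 2) * ((t : ℝ) ^ 2 * a.2 i - t) := by
  have h2 : 2 ≤ 2 * m * m := by
    have : 1 ≤ m * m := Nat.mul_le_mul hm hm
    nlinarith
  unfold pin
  simp only
  rw [if_pos (by omega), Nat.mul_div_cancel_left _ (by norm_num : 0 < 2)]
  have h1 : start a.1 a.2 [1, (i : ℕ)] = a.2 i := by
    change (if h : (i : ℕ) < m then a.2 ⟨i, h⟩ else 0) = _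
    rw [dif_pos i.2]
  rw [h1]
  have e1 : (t : ℝ) ^ (2 * m * m) = (t : ℝ) ^ (2 * m * m - 2) * (t : ℝ) ^ 2 := by
    rw [← pow_add, Nat.sub_add_cancel h2]
  have e2 : (t : ℝ) ^ (2 * m * m - 1) = (t : ℝ) ^ (2 * m * m - 2) * t := by
    rw [← pow_succ]
    congr 1
    omega
  rw [e1, e2]
  ring

theorem pin_rhs_odd (τ : List Bool) (a : Inp m n) (hm : 1 ≤ m) (t : ℕ) (i : Fin m) :
    (pin τ a t).2 ⟨2 * i + 1, by omega⟩ = -((t : ℝ) ^ (2 * m * m - 2) * (t : ℝ) ^ 3) := by
  have h2 : 2 ≤ 2 * m * m := by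
    have : 1 ≤ m * m := Nat.mul_le_mul hm hm
    nlinarith
  unfold pin
  simp only
  rw [if_neg (by omega), ← pow_add]
  congr 2
  omega

/-- The conditions of the perturbed instance. -/
theorem pf_iff (τ : List Bool) (a : Inp m n) (hm : 1 ≤ m) (t : ℕ) : PF τ a t ↔
    ∃ x : Fin n → ℝ, ∀ i : Fin m,
      (t : ℝ) ^ (2 * m * m - 2) * ((t : ℝ) ^ 2 * a.2 i - t) ≤
        ∑ j : Fin m, cf τ m t i j * (a.1 j ⬝ᵥ x) ∧
      ∑ j : Fin m, cf τ m t i j * (a.1 j ⬝ᵥ x) ≤ (t : ℝ) ^ (2 * m * m - 2) * (t : ℝ) ^ 3 := by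
  constructor
  · rintro ⟨x, hx⟩
    refine ⟨x, fun i => ⟨?_, ?_⟩⟩
    · have := hx ⟨2 * i, by omega⟩
      rwa [pin_dot_even, pin_rhs_even τ a hm] at this
    · have := hx ⟨2 * i + 1, by omega⟩
      rw [pin_dot_odd, pin_rhs_odd τ a hm] at this
      linarith
  · rintro ⟨x, hx⟩
    refine ⟨x, fun r => ?_⟩
    rcases Nat.mod_two_eq_zero_or_one r with h | h
    · have e : r = ⟨2 * ((⟨(r : ℕ) / 2, by omega⟩ : Fin m) : ℕ), by
          simp only
          omega⟩ := by
        refine Fin.ext ?_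
        simp only
        omega
      rw [e, pin_dot_even, pin_rhs_even τ a hm]
      exact (hx _).1
    · have e : r = ⟨2 * ((⟨(r : ℕ) / 2, by omega⟩ : Fin m) : ℕ) + 1, by
          simp only
          omega⟩ := by
        refine Fin.ext ?_
        simp only
        omega
      rw [e, pin_dot_odd, pin_rhs_odd τ a hm]
      have := (hx ⟨(r : ℕ) / 2, by omega⟩).2
      linarith

/-- For large `t` the perturbed instance is feasible if and only if the instance is feasible. -/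
theorem pf_eventually (τ : List Bool) (a : Inp m n) (hm : 1 ≤ m) :
    ∀ᶠ t : ℕ in atTop, (PF τ a t ↔ ∃ x : Fin n → ℝ, ∀ i, a.2 i ≤ a.1 i ⬝ᵥ x) := by
  have hlarge : ∀ C : ℝ, ∀ᶠ t : ℕ in atTop, C ≤ (t : ℝ) := fun C =>
    tendsto_natCast_atTop_atTop.eventually (eventually_ge_atTop C)
  by_cases hF : ∃ x : Fin n → ℝ, ∀ i, a.2 i ≤ a.1 i ⬝ᵥ x
  · obtain ⟨x, hx⟩ := hF
    filter_upwards [hlarge (2 * ∑ j, |a.1 j ⬝ᵥ x|), eventually_ge_atTop 1] with t ht ht1
    refine ⟨fun _ => ⟨x, hx⟩, fun _ => (pf_iff τ a hm t).2 ⟨x, fun i => ?_⟩⟩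
    have h1 := pert_bound τ hm t ht1 (fun j => a.1 j ⬝ᵥ x) i
    set T := (t : ℝ) ^ (2 * m * m - 2) with hT
    set S := ∑ j, |a.1 j ⬝ᵥ x| with hS
    set G := ∑ j : Fin m, cf τ m t i j * (a.1 j ⬝ᵥ x) with hG
    have ht' : (1 : ℝ) ≤ t := by exact_mod_cast ht1
    have hT0 : 0 < T := by positivity
    have hS0 : 0 ≤ S := Finset.sum_nonneg fun j _ => abs_nonneg _
    have h2 := abs_le.1 h1
    have h3 : |a.1 i ⬝ᵥ x| ≤ S :=
      Finset.single_le_sum (f := fun j => |a.1 j ⬝ᵥ x|) (fun j _ => abs_nonneg _)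
        (Finset.mem_univ i)
    have h4 := (abs_le.1 h3).2
    have h5 := hx i
    constructor
    · have h6 : T * ((t : ℝ) ^ 2 * a.2 i - t) ≤ T * ((t : ℝ) ^ 2 * (a.1 i ⬝ᵥ x) - S) := by
        refine mul_le_mul_of_nonneg_left ?_ hT0.le
        have : (t : ℝ) ^ 2 * a.2 i ≤ (t : ℝ) ^ 2 * (a.1 i ⬝ᵥ x) :=
          mul_le_mul_of_nonneg_left h5 (by positivity)
        linarith
      nlinarith [h2.1]
    · have h6 : T * ((t : ℝ) ^ 2 * (a.1 i ⬝ᵥ x) + S) ≤ T * (t : ℝ) ^ 3 := by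
        refine mul_le_mul_of_nonneg_left ?_ hT0.le
        have h7 : (t : ℝ) ^ 2 * (a.1 i ⬝ᵥ x) ≤ (t : ℝ) ^ 2 * S :=
          mul_le_mul_of_nonneg_left h4 (by positivity)
        have h8 : S ≤ (t : ℝ) ^ 2 * S := le_mul_of_one_le_left hS0 (one_le_pow₀ ht')
        have h9 : (t : ℝ) ^ 2 * (2 * S) ≤ (t : ℝ) ^ 2 * t :=
          mul_le_mul_of_nonneg_left ht (by positivity)
        have h10 : (t : ℝ) ^ 2 * t = (t : ℝ) ^ 3 := by ring
        linarith
      nlinarith [h2.2]
  · have hF' : ¬ Feas a := by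
      rintro ⟨x, hx⟩
      exact hF ⟨x, hx⟩
    obtain ⟨y, hy0, hyA, hyb⟩ := (t_FARKAS m n a).1 hF'
    set Y := ∑ i, y i with hY
    set β := ∑ i, y i * a.2 i with hβ
    filter_upwards [hlarge (((2 * (m : ℝ) + 1) * Y + 1) / β), hlarge (2 * m),
      hlarge (∑ i, |a.2 i| + 1), eventually_ge_atTop 1] with t ht ht2 ht3 ht1
    refine ⟨fun h => ?_, fun h => absurd h hF⟩
    exfalso
    obtain ⟨x, hx⟩ := (pf_iff τ a hm t).1 h
    set T := (t : ℝ) ^ (2 * m * m - 2) with hT
    set S := ∑ j, |a.1 j ⬝ᵥ x| with hS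
    have ht' : (1 : ℝ) ≤ t := by exact_mod_cast ht1
    have hT0 : 0 < T := by positivity
    have hS0 : 0 ≤ S := Finset.sum_nonneg fun j _ => abs_nonneg _
    have hm' : (1 : ℝ) ≤ m := by exact_mod_cast hm
    -- bound for the values
    have h1 : ∀ i : Fin m, (t : ℝ) ^ 2 * |a.1 i ⬝ᵥ x| ≤ (t : ℝ) ^ 3 + S := by
      intro i
      have h2 := abs_le.1 (pert_bound τ hm t ht1 (fun j => a.1 j ⬝ᵥ x) i)
      rw [← hT, ← hS] at h2
      obtain ⟨h3, h4⟩ := hx i
      set G := ∑ j : Fin m, cf τ m t i j * (a.1 j ⬝ᵥ x) with hG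
      have h5 : |a.2 i| ≤ ∑ j, |a.2 j| :=
        Finset.single_le_sum (f := fun j => |a.2 j|) (fun j _ => abs_nonneg _) (Finset.mem_univ i)
      have h6 : -(T * (t : ℝ) ^ 3) ≤ G := by
        refine le_trans ?_ h3
        have h7 : -((t : ℝ) ^ 3) ≤ (t : ℝ) ^ 2 * a.2 i - t := by
          have h8 : -|a.2 i| ≤ a.2 i := neg_abs_le _
          have h9 : (t : ℝ) ^ 2 * (|a.2 i| + 1) ≤ (t : ℝ) ^ 2 * t :=
            mul_le_mul_of_nonneg_left (by linarith) (by positivity)
          have h10 : (t : ℝ) ^ 2 * (-|a.2 i|) ≤ (t : ℝ) ^ 2 * a.2 i :=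
            mul_le_mul_of_nonneg_left h8 (by positivity)
          have h11 : (t : ℝ) ≤ (t : ℝ) ^ 2 := by nlinarith
          nlinarith
        nlinarith [mul_le_mul_of_nonneg_left h7 hT0.le]
      have h7 : T * ((t : ℝ) ^ 2 * |a.1 i ⬝ᵥ x|) ≤ T * ((t : ℝ) ^ 3 + S) := by
        have h8 : T * ((t : ℝ) ^ 2 * |a.1 i ⬝ᵥ x|) = |T * (t : ℝ) ^ 2 * (a.1 i ⬝ᵥ x)| := by
          rw [abs_mul, abs_of_nonneg (by positivity : 0 ≤ T * (t : ℝ) ^ 2)]
          ring
        rw [h8, abs_le]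
        constructor
        · nlinarith [h2.2]
        · nlinarith [h2.1]
      exact le_of_mul_le_mul_left h7 hT0
    have h2 : S ≤ 2 * m * t := by
      have h3 : (t : ℝ) ^ 2 * S ≤ m * ((t : ℝ) ^ 3 + S) := by
        rw [hS, Finset.mul_sum]
        refine (Finset.sum_le_sum fun i _ => h1 i).trans ?_
        rw [Finset.sum_const, Finset.card_univ, Fintype.card_fin, nsmul_eq_mul]
      have h4 : (2 * m : ℝ) * S ≤ (t : ℝ) ^ 2 * S := by
        refine mul_le_mul_of_nonneg_right ?_ hS0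
        nlinarith
      have h5 : (t : ℝ) ^ 2 * S ≤ (t : ℝ) ^ 2 * (2 * m * t) := by nlinarith
      exact le_of_mul_le_mul_left h5 (by positivity)
    have h3 : ∀ i : Fin m, a.2 i - (2 * m + 1) / t ≤ a.1 i ⬝ᵥ x := by
      intro i
      have h4 := abs_le.1 (pert_bound τ hm t ht1 (fun j => a.1 j ⬝ᵥ x) i)
      rw [← hT, ← hS] at h4
      have h5 := (hx i).1
      have h6 : T * ((t : ℝ) ^ 2 * a.2 i - t) ≤ T * ((t : ℝ) ^ 2 * (a.1 i ⬝ᵥ x) + S) := by
        nlinarith [h4.2]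
      have h7 : (t : ℝ) ^ 2 * a.2 i - t ≤ (t : ℝ) ^ 2 * (a.1 i ⬝ᵥ x) + S :=
        le_of_mul_le_mul_left h6 hT0
      have ht0 : (0 : ℝ) < t := by linarith
      have h8 : (t : ℝ) ^ 2 * (a.2 i - (2 * m + 1) / t) ≤ (t : ℝ) ^ 2 * (a.1 i ⬝ᵥ x) := by
        have h9 : (t : ℝ) ^ 2 * (a.2 i - (2 * m + 1) / t) =
            (t : ℝ) ^ 2 * a.2 i - t * (2 * m + 1) := by
          field_simp
        rw [h9]
        linarith
      exact le_of_mul_le_mul_left h8 (by positivity)
    have h4 : ∑ i, y i * (a.1 i ⬝ᵥ x) = 0 := by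
      simp only [dotProduct, Finset.mul_sum]
      rw [Finset.sum_comm]
      refine Finset.sum_eq_zero fun c _ => ?_
      have h5 : ∑ i, y i * (a.1 i c * x c) = (∑ i, y i * a.1 i c) * x c := by
        rw [Finset.sum_mul]
        exact Finset.sum_congr rfl fun i _ => by ring
      rw [h5, hyA c, zero_mul]
    have h5 : β - (2 * m + 1) / t * Y ≤ 0 := by
      rw [← h4, hβ, hY, Finset.mul_sum, ← Finset.sum_sub_distrib]
      refine Finset.sum_le_sum fun i _ => ?_
      have := mul_le_mul_of_nonneg_left (h3 i) (hy0 i)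
      linarith
    have ht0 : (0 : ℝ) < t := by linarith
    have h6 : β * t ≤ (2 * m + 1) * Y := by
      have h7 : β ≤ (2 * m + 1) / t * Y := by linarith
      have h8 := mul_le_mul_of_nonneg_right h7 ht0.le
      have h9 : (2 * (m : ℝ) + 1) / t * Y * t = (2 * m + 1) * Y := by
        field_simp
      linarith
    rw [div_le_iff₀ hyb] at ht
    linarith

/-! ### The system of the perturbed instance -/

/-- The system of the perturbed instance. -/
noncomputable def pS {σ : ℝ} (τ : List Bool) (a : Inp m n)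
    (hV : Weak n m (fun i => sg (tf τ i) • An a.1 i) σ) (hn : 0 < n) (t : ℕ) (ht : 2 ≤ t) :
    Sys n where
  m := 2 * m
  N := m
  V := pV m t fun i => sg (tf τ i) • An a.1 i
  σ := σ
  t := fun r => r / 2
  d := fun r => sg (ty τ r)
  b := fun r => if h : r < 2 * m then (pin τ a t).2 ⟨r, h⟩ else 0
  cheb := hV.cheb hn ht
  t_lt := fun r hr => by omega
  t_mono := fun i j hij _ => Nat.div_le_div_right hij
  d_ne := fun r _ => sg_ne _
  pair := fun i j hij hj h => by
    have h1 : i % 2 = 0 := by omega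
    have h2 : j % 2 ≠ 0 := by omega
    unfold ty
    rw [if_pos h1, if_neg h2, h, sg_not, mul_neg, sg_mul_self]
    norm_num

section Sys

variable {σ : ℝ} {τ : List Bool} {a : Inp m n}
  {hV : Weak n m (fun i => sg (tf τ i) • An a.1 i) σ} {hn : 0 < n} {t : ℕ} {ht : 2 ≤ t}

theorem pS_dot (r : Fin (2 * m)) (x : Fin n → ℝ) : (pin τ a t).1 r ⬝ᵥ x =
    (pS τ a hV hn t ht).d r * ((pS τ a hV hn t ht).V ((pS τ a hV hn t ht).t r) ⬝ᵥ x) := by
  rw [dotProduct, dotProduct, Finset.mul_sum]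
  refine Finset.sum_congr rfl fun j _ => ?_
  rw [pin_row]
  change sg (ty τ r) * _ * _ = sg (ty τ r) * (pV m t _ ((r : ℕ) / 2) j * x j)
  ring

theorem pS_slack (r : Fin (2 * m)) (x : Fin n → ℝ) :
    (pS τ a hV hn t ht).slack r x = (pin τ a t).1 r ⬝ᵥ x - (pin τ a t).2 r := by
  rw [pS_dot (hV := hV) (hn := hn) (ht := ht), Sys.slack]
  congr 1
  change (if h : (r : ℕ) < 2 * m then (pin τ a t).2 ⟨r, h⟩ else 0) = _
  rw [dif_pos r.2]

theorem pS_feas : (pS τ a hV hn t ht).Feas (pS τ a hV hn t ht).m ↔ PF τ a t := by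
  constructor
  · rintro ⟨x, hx⟩
    refine ⟨x, fun r => ?_⟩
    have h1 := hx r r.2
    rw [pS_slack] at h1
    linarith
  · rintro ⟨x, hx⟩
    refine ⟨x, fun r hr => ?_⟩
    have h1 := pS_slack (hV := hV) (hn := hn) (ht := ht) ⟨r, hr⟩ x
    simp only at h1
    rw [h1]
    have := hx ⟨r, hr⟩
    linarith

theorem pS_truth {K : List ℕ} {g : ℕ → ℕ → Outcome} (hb : ∀ i, a.2 i ≤ t)
    (hg0 : ∀ i < 2 * m, g i 0 = some (ty τ i))
    (hg1 : ∀ i < 2 * m, ∀ w, 1 ≤ w → w ≤ n → g i w = if i % 2 = 0 then none else some true)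
    (hg2 : ∀ i < 2 * m, g i (n + 1) = none)
    (hg3 : ∀ i < 2 * m, g i (n + 2) =
      signOut (mv (pin τ a t).1 (pin τ a t).2 (lq (2 * m) n (K ++ [i]))))
    (hg4 : ∀ i < 2 * m, ∀ k < 2 * m, g i (n + 3 + k) =
      signOut (mv (pin τ a t).1 (pin τ a t).2
        (lq (2 * m) n (K ++ [i]) ++ [(k, 2 * m + (n + n))]))) :
    Truth (pS τ a hV hn t ht) K g := by
  have hbad : ∀ i < 2 * m, badB n g i = false := by
    intro i hi
    unfold badB
    rw [hg2 i hi]
    simp
  refine ⟨?_, ?_, ?_, ?_, ?_⟩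
  · intro i hi
    unfold tyB
    rw [hg0 i hi, decide_eq_true_eq, Option.some.injEq]
    change ty τ i = true ↔ 0 < sg (ty τ i)
    cases ty τ i <;> simp [sg]
  · intro i hi hn2
    change i + 1 < 2 * m at hi
    change parB n g i = true ↔ i / 2 = (i + 1) / 2
    unfold parB
    rw [List.all_eq_true]
    constructor
    · intro h1
      have h2 := h1 0 (List.mem_range.2 hn)
      rw [decide_eq_true_eq, hg1 i (by omega) (0 + 1) (by omega) (by omega)] at h2
      split_ifs at h2 with h3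
      omega
    · intro h1 j hj
      rw [List.mem_range] at hj
      rw [decide_eq_true_eq, hg1 i (by omega) (j + 1) (by omega) (by omega), if_pos (by omega)]
  · intro i hi hb'
    change i + 1 < 2 * m at hi
    rw [hbad i (by omega)] at hb'
    exact absurd hb' (by simp)
  · intro i hi hti _
    change i + 1 < 2 * m at hi
    change i / 2 = (i + 1) / 2 at hti
    have hm : 1 ≤ m := by omega
    have ht' : (2 : ℝ) ≤ t := by exact_mod_cast ht
    set S := pS τ a hV hn t ht with hS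
    set T := (t : ℝ) ^ (2 * m * m - 2) with hT
    have hT0 : 0 < T := by positivity
    have hi2 : i / 2 < m := by omega
    obtain ⟨x, hx⟩ := S.cheb.interp_le (Q := {i / 2}) (fun q hq => by
      rw [Finset.mem_singleton] at hq
      rw [hq]
      exact hi2) (by rw [Finset.card_singleton]; omega)
      (fun _ => sg (tf τ (i / 2)) * (T * (t : ℝ) ^ 3))
    have hx1 := hx (i / 2) (by simp)
    have he : i = 2 * (i / 2) := by omega
    have hty1 : ty τ i = tf τ (i / 2) := if_pos (by omega)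
    have hty2 : ty τ (i + 1) = !(tf τ (i / 2)) := by
      unfold ty
      rw [if_neg (by omega), ← hti]
    refine ⟨x, ?_, ?_⟩
    · have h1 : S.slack i x = T * (t : ℝ) ^ 3 - T * ((t : ℝ) ^ 2 * a.2 ⟨i / 2, hi2⟩ - t) := by
        rw [Sys.slack]
        congr 1
        · change sg (ty τ i) * (S.V (i / 2) ⬝ᵥ x) = _
          rw [hx1, hty1, ← mul_assoc, sg_mul_self, one_mul]
        · change (if h : i < 2 * m then (pin τ a t).2 ⟨i, h⟩ else 0) = _
          rw [dif_pos (by omega), ← pin_rhs_even τ a hm t ⟨i / 2, hi2⟩]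
          exact congrArg (pin τ a t).2 (Fin.ext he)
      rw [h1]
      have h2 := hb ⟨i / 2, hi2⟩
      have h3 : (t : ℝ) ^ 2 * a.2 ⟨i / 2, hi2⟩ ≤ (t : ℝ) ^ 2 * t :=
        mul_le_mul_of_nonneg_left h2 (by positivity)
      have h4 : 0 ≤ (t : ℝ) ^ 3 - ((t : ℝ) ^ 2 * a.2 ⟨i / 2, hi2⟩ - t) := by nlinarith
      have h5 := mul_nonneg hT0.le h4
      linarith
    · have h1 : S.slack (i + 1) x = 0 := by
        rw [Sys.slack]
        have h2 : S.b (i + 1) = -(T * (t : ℝ) ^ 3) := by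
          change (if h : i + 1 < 2 * m then (pin τ a t).2 ⟨i + 1, h⟩ else 0) = _
          rw [dif_pos hi, ← pin_rhs_odd τ a hm t ⟨i / 2, hi2⟩]
          refine congrArg (pin τ a t).2 (Fin.ext ?_)
          simp only
          omega
        rw [h2]
        change sg (ty τ (i + 1)) * (S.V ((i + 1) / 2) ⬝ᵥ x) - _ = 0
        rw [← hti, hx1, hty2, sg_not, neg_mul, ← mul_assoc, sg_mul_self]
        ring
      rw [h1]
  · intro i k hi hk hK hlen hiK hD x hx
    change i < 2 * m at hi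
    change k < 2 * m at hk
    unfold violB
    by_cases h1 : k ∈ K
    · have h2 := hx k (Finset.mem_insert_of_mem (List.mem_toFinset.2 h1))
      rw [decide_eq_true h1, h2]
      simp
    by_cases h1' : k = i
    · have h2 := hx k (by rw [h1']; exact Finset.mem_insert_self _ _)
      rw [decide_eq_true h1', h2]
      simp
    rw [decide_eq_false h1, decide_eq_false h1', hg3 i hi, hg4 i hi k hk]
    have hL : (K ++ [i]).Nodup := by
      rw [List.nodup_append]
      refine ⟨hK, by simp, ?_⟩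
      intro a ha c hc
      rw [List.mem_singleton] at hc
      rw [hc]
      rintro rfl
      exact hiK ha
    have hLlen : (K ++ [i]).length = n := by
      rw [List.length_append, List.length_singleton]
      exact hlen
    have hLmem : ∀ j, j ∈ K ++ [i] ↔ j ∈ insert i K.toFinset := by
      intro j
      rw [List.mem_append, List.mem_singleton, Finset.mem_insert, List.mem_toFinset]
      tauto
    have hLm : ∀ j ∈ K ++ [i], j < 2 * m := by
      intro j hj
      exact hD.1 j ((hLmem j).1 hj)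
    have hcard : (insert i K.toFinset).card = n := by
      rw [Finset.card_insert_of_notMem (by simpa using hiK), List.toFinset_card_of_nodup hK]
      exact hlen
    have hne : mv (pin τ a t).1 (pin τ a t).2 (lq (2 * m) n (K ++ [i])) ≠ 0 := by
      refine mv_ne_zero hL hLlen hLm fun y hy => ?_
      refine Sys.eq_of_n hD hcard fun j hj => ?_
      have hjm := hLm j ((hLmem j).2 hj)
      have h2 := hy ⟨j, hjm⟩ ((hLmem j).2 hj)
      rw [pS_dot (hV := hV) (hn := hn) (ht := ht)] at h2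
      exact (mul_eq_zero.1 h2).resolve_left (sg_ne _)
    have hsl := mv_slack (A := (pin τ a t).1) (b := (pin τ a t).2) hL hLlen hLm hk (k := k) (by
      rw [hLmem, Finset.mem_insert, List.mem_toFinset, not_or]
      exact ⟨h1', h1⟩) (x := x) (fun r hr => by
        rw [← pS_slack (hV := hV) (hn := hn) (ht := ht)]
        exact hx r ((hLmem r).1 hr))
    have h3 := pS_slack (hV := hV) (hn := hn) (ht := ht) ⟨k, hk⟩ x
    simp only at h3
    rw [← h3] at hsl
    rw [← signOut_opp hne (s := (pS τ a hV hn t ht).slack k x), ← hsl]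
    simp only [Bool.not_false, Bool.true_and]

end Sys

end Pool.Agent.H682.CP
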