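import Pool.Agent.H682.CP.Pert

set_option autoImplicit false

/-!
# The signs of the minors of the perturbed instances
-/

namespace Pool.Agent.H682.CP

open Matrix Pool.Agent.H558R2 Pool.Agent.H622R3.SM Pool.Agent.H682.CH Filter

/-- Polynomials in `t` of degree at most `E`. -/
def PL (E : ℕ) (f : ℕ → ℝ) : Prop :=
  ∃ p : Polynomial ℝ, p.natDegree ≤ E ∧ ∀ t : ℕ, f t = p.eval (t : ℝ)

theorem PL.const (E : ℕ) (c : ℝ) : PL E fun _ => c :=
  ⟨Polynomial.C c, by simp, fun t => by simp⟩

theorem PL.pow {E e : ℕ} (he : e ≤ E) : PL E fun t => (t : ℝ) ^ e :=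
  ⟨Polynomial.X ^ e, by simpa using he, fun t => by simp⟩

theorem PL.mulC {E : ℕ} {f : ℕ → ℝ} (hf : PL E f) (c : ℝ) : PL E fun t => f t * c := by
  obtain ⟨p, h1, h2⟩ := hf
  refine ⟨p * Polynomial.C c, (Polynomial.natDegree_mul_C_le _ _).trans h1, fun t => ?_⟩
  simp [h2]

theorem PL.neg {E : ℕ} {f : ℕ → ℝ} (hf : PL E f) : PL E fun t => -f t := by
  obtain ⟨p, h1, h2⟩ := hf
  exact ⟨-p, by rwa [Polynomial.natDegree_neg], fun t => by simp [h2]⟩

theorem PL.add {E : ℕ} {f g : ℕ → ℝ} (hf : PL E f) (hg : PL E g) : PL E fun t => f t + g t := by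
  obtain ⟨p, h1, h2⟩ := hf
  obtain ⟨q, h3, h4⟩ := hg
  exact ⟨p + q, Polynomial.natDegree_add_le_of_degree_le h1 h3, fun t => by simp [h2, h4]⟩

theorem PL.sub {E : ℕ} {f g : ℕ → ℝ} (hf : PL E f) (hg : PL E g) : PL E fun t => f t - g t := by
  have h := hf.add hg.neg
  simpa [sub_eq_add_neg] using h

theorem PL.sum {E : ℕ} {f : ℕ → ℕ → ℝ} : ∀ l : ℕ, (∀ j < l, PL E fun t => f t j) →
    PL E fun t => ∑ j ∈ Finset.range l, f t j := by
  intro l
  induction l with
  | zero =>
    intro _
    simpa using PL.const E 0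
  | succ l ih =>
    intro h
    have h1 := (ih fun j hj => h j (by omega)).add (h l (by omega))
    simpa [Finset.sum_range_succ] using h1

variable {m n : ℕ} (τ : List Bool) (a : Inp m n)

theorem pl_psum (i c : ℕ) : PL (2 * m * m + 1) fun t => psum τ a t i c m := by
  unfold psum
  refine PL.sum m fun j _ => ?_
  have h1 : PL (2 * m * m + 1) fun t => trm τ a t i c j := by
    unfold trm
    exact (PL.pow ((ex_le m i j).trans (by omega))).mulC _
  by_cases h : eqS τ i j = true
  · simp only [if_pos h]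
    exact h1
  · simp only [if_neg h]
    exact h1.neg

theorem pl_pin1 (r : Fin (2 * m)) (c : Fin n) :
    PL (2 * m * m + 1) fun t => (pin τ a t).1 r c := by
  unfold pin
  by_cases h : (r : ℕ) % 2 = 0
  · simp only [if_pos h]
    exact pl_psum τ a _ _
  · simp only [if_neg h]
    exact (pl_psum τ a _ _).neg

theorem pl_pin2 (r : Fin (2 * m)) : PL (2 * m * m + 1) fun t => (pin τ a t).2 r := by
  unfold pin
  by_cases h : (r : ℕ) % 2 = 0
  · simp only [if_pos h]
    exact ((PL.pow (by omega)).mulC _).sub (PL.pow (by omega))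
  · simp only [if_neg h]
    exact (PL.pow le_rfl).neg

theorem pl_wmat (r : Fin (2 * m)) (k : Option (Fin (2 * m + (n + n)))) :
    PL (2 * m * m + 1) fun t => wmat (pin τ a t).1 (pin τ a t).2 r k := by
  rcases k with _ | k
  · unfold wmat
    exact (pl_pin2 τ a r).neg
  · unfold wmat
    simp only
    rcases (colEquiv (2 * m) n).symm k with c | c | c
    · simp only [colEntry]
      exact PL.const _ _
    · simp only [colEntry]
      exact (pl_pin1 τ a r c).neg
    · simp only [colEntry]
      exact pl_pin1 τ a r c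

theorem pmin_eventually (q : List (ℕ × ℕ)) : ∀ᶠ t : ℕ in atTop, signOut (pmin τ q a t) =
    firstS ((List.range (degT m + 1)).map fun e =>
      signOut (dif (pmin τ q a) (degT m - e) 0)) := by
  choose P h1 h2 using fun r j : Fin (2 * m) => pl_wmat τ a r (betaQ (2 * m) n q j)
  exact eventually_det (D := degT m) (E := 2 * m * m + 1)
    (fun t => Matrix.of fun i j => wmat (pin τ a t).1 (pin τ a t).2 i (betaQ (2 * m) n q j))
    (Matrix.of P) h1 (fun t i j => h2 i j t) (by unfold degT; exact le_rfl)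

end Pool.Agent.H682.CP
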