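import Pool.Agent.H682.CP.Machine

set_option autoImplicit false

/-!
# The program for a minor of the perturbed instance
-/

namespace Pool.Agent.H682.CP

open Pool.Agent.NPC Pool.Agent.NPC.ER Pool.Agent.NPC.H612 Pool.Agent.H558R2
open Pool.Agent.H622R3.SM

/-! ### Execution -/

/-- The registers written by a program. -/
def dsts (P : List Instr) : Set Reg := {r | ∃ I ∈ P, I.dst = r}

/-- The operands are available. -/
def Av : Set Reg → List Instr → Prop
  | _, [] => True
  | S, I :: P => I.fst ∈ S ∧ I.snd ∈ S ∧ Av (insert I.dst S) P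

theorem Av.mono {P : List Instr} : ∀ {S S' : Set Reg}, S ⊆ S' → Av S P → Av S' P := by
  induction P with
  | nil => intro S S' _ _; trivial
  | cons I P ih =>
    intro S S' hS h
    exact ⟨hS h.1, hS h.2.1, ih (Set.insert_subset_insert hS) h.2.2⟩

theorem dsts_nil : dsts [] = ∅ := by
  ext r
  simp [dsts]

theorem dsts_cons (I : Instr) (P : List Instr) : dsts (I :: P) = insert I.dst (dsts P) := by
  ext r
  simp only [dsts, List.mem_cons, exists_eq_or_imp, Set.mem_ofPred_eq, Set.mem_insert_iff]
  constructor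
  · rintro (h | h)
    · exact Or.inl h.symm
    · exact Or.inr h
  · rintro (h | h)
    · exact Or.inl h.symm
    · exact Or.inr h

theorem dsts_append (P P' : List Instr) : dsts (P ++ P') = dsts P ∪ dsts P' := by
  ext r
  simp only [dsts, List.mem_append, Set.mem_ofPred_eq, Set.mem_union]
  constructor
  · rintro ⟨I, h | h, e⟩
    · exact Or.inl ⟨I, h, e⟩
    · exact Or.inr ⟨I, h, e⟩
  · rintro (⟨I, h, e⟩ | ⟨I, h, e⟩)
    · exact ⟨I, Or.inl h, e⟩
    · exact ⟨I, Or.inr h, e⟩

theorem Av.append {P P' : List Instr} : ∀ {S : Set Reg}, Av S P → Av (S ∪ dsts P) P' →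
    Av S (P ++ P') := by
  induction P with
  | nil =>
    intro S _ h
    rwa [dsts_nil, Set.union_empty] at h
  | cons I P ih =>
    intro S h h'
    refine ⟨h.1, h.2.1, ih h.2.2 (h'.mono ?_)⟩
    rw [dsts_cons]
    intro r hr
    rcases hr with hr | hr
    · exact Or.inl (Or.inr hr)
    · rcases hr with hr | hr
      · exact Or.inl (Or.inl hr)
      · exact Or.inr hr

theorem Av.flatMap {f : ℕ → List Instr} {S : Set Reg} (N : ℕ)
    (h : ∀ k < N, Av (S ∪ dsts ((List.range k).flatMap f)) (f k)) :
    Av S ((List.range N).flatMap f) := by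
  induction N with
  | zero => trivial
  | succ N ih =>
    rw [List.range_succ, List.flatMap_append]
    refine Av.append (ih fun k hk => h k (by omega)) ?_
    rw [List.flatMap_singleton]
    exact h N (Nat.lt_succ_self N)

/-- Blocks which do not use each other. -/
theorem Av.flatMap' {f : ℕ → List Instr} {S : Set Reg} (N : ℕ) (h : ∀ k < N, Av S (f k)) :
    Av S ((List.range N).flatMap f) :=
  Av.flatMap N fun k hk => (h k hk).mono Set.subset_union_left

theorem Av.map {f : ℕ → Instr} {S : Set Reg} (N : ℕ)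
    (h : ∀ k < N, (f k).fst ∈ S ∪ dsts ((List.range k).map f) ∧
      (f k).snd ∈ S ∪ dsts ((List.range k).map f)) : Av S ((List.range N).map f) := by
  induction N with
  | zero => trivial
  | succ N ih =>
    rw [List.range_succ, List.map_append]
    refine Av.append (ih fun k hk => h k (by omega)) ?_
    exact ⟨(h N (Nat.lt_succ_self N)).1, (h N (Nat.lt_succ_self N)).2, trivial⟩

theorem mem_dsts {P : List Instr} {r : Reg} : r ∈ dsts P ↔ ∃ I ∈ P, I.dst = r := Iff.rfl

/-- Execution of a program with available operands whose equations are satisfied by `V`. -/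
theorem exec_av (V : Reg → ℝ) : ∀ (P : List Instr) (S : Set Reg) (ρ : Reg → ℝ), Av S P →
    (∀ r ∈ S, ρ r = V r) →
    (∀ I ∈ P, V I.dst = I.op.eval (V I.fst) (V I.snd) ∧ (I.op = Op.div → V I.snd ≠ 0)) →
    ∃ ρ' : Reg → ℝ, exec P ρ = some (ρ', P.map fun I => V I.dst) ∧
      ∀ r ∈ S ∪ dsts P, ρ' r = V r := by
  intro P
  induction P with
  | nil =>
    intro S ρ _ hS _
    refine ⟨ρ, rfl, fun r hr => ?_⟩
    rw [dsts_nil, Set.union_empty] at hr
    exact hS r hr
  | cons I P ih =>
    intro S ρ hA hS hV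
    obtain ⟨h1, h2, h4⟩ := hA
    obtain ⟨hI, hdiv⟩ := hV I List.mem_cons_self
    have hval : I.op.eval (ρ I.fst) (ρ I.snd) = V I.dst := by
      rw [hS _ h1, hS _ h2, hI]
    have hS' : ∀ r ∈ insert I.dst S, Function.update ρ I.dst (V I.dst) r = V r := by
      intro r hr
      by_cases hrd : r = I.dst
      · rw [hrd, Function.update_self]
      · rw [Function.update_of_ne hrd]
        rcases Set.mem_insert_iff.1 hr with hr | hr
        · exact absurd hr hrd
        · exact hS r hr
    obtain ⟨ρ', e1, e2⟩ := ih (insert I.dst S) (Function.update ρ I.dst (V I.dst)) h4 hS'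
      (fun J hJ => hV J (List.mem_cons_of_mem _ hJ))
    refine ⟨ρ', ?_, fun r hr => e2 r ?_⟩
    · have hno : ¬ (I.op = Op.div ∧ ρ I.snd = 0) := by
        rintro ⟨ha, hb⟩
        rw [hS _ h2] at hb
        exact hdiv ha hb
      rw [exec, if_neg hno, hval, e1]
      rfl
    · rw [dsts_cons] at hr
      rcases hr with hr | hr | hr
      · exact Or.inl (Or.inr hr)
      · exact Or.inl (Or.inl hr)
      · exact Or.inr hr

/-- Renaming. -/
def rn (t : ℕ) (I : Instr) : Instr := ⟨I.op, 25 :: t :: I.dst, 25 :: t :: I.fst, 25 :: t :: I.snd⟩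

theorem Av.rename (t : ℕ) {P : List Instr} : ∀ {S : Set Reg}, Av S P →
    Av ((fun r => 25 :: t :: r) '' S) (P.map (rn t)) := by
  induction P with
  | nil => intro S _; trivial
  | cons I P ih =>
    intro S h
    refine ⟨⟨_, h.1, rfl⟩, ⟨_, h.2.1, rfl⟩, ?_⟩
    have h1 := ih h.2.2
    rw [Set.image_insert_eq] at h1
    exact h1

theorem Av.restrict {P : List Instr} {S S' : Set Reg} : ∀ {X : Set Reg}, Av (S ∪ X) P →
    (∀ I ∈ P, (I.fst ∈ S → I.fst ∈ S') ∧ (I.snd ∈ S → I.snd ∈ S')) → Av (S' ∪ X) P := by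
  induction P with
  | nil => intro X _ _; trivial
  | cons I P ih =>
    intro X h hI
    obtain ⟨h1, h2⟩ := hI I List.mem_cons_self
    refine ⟨?_, ?_, ?_⟩
    · rcases h.1 with h3 | h3
      · exact Or.inl (h1 h3)
      · exact Or.inr h3
    · rcases h.2.1 with h3 | h3
      · exact Or.inl (h2 h3)
      · exact Or.inr h3
    · have h3 : Av (S ∪ insert I.dst X) P := by
        rw [Set.union_insert]
        exact h.2.2
      have h4 := ih h3 fun J hJ => hI J (List.mem_cons_of_mem _ hJ)
      rwa [Set.union_insert] at h4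

theorem av_of_ord {P : List Instr} : ∀ {S : Set Reg}, Ord S P → Av S P := by
  induction P with
  | nil => intro S _; trivial
  | cons I P ih =>
    intro S h
    exact ⟨h.1, h.2.1, ih h.2.2.2⟩

/-- The registers of the instance. -/
def BR (m n : ℕ) : Set Reg :=
  {r | r = [2] ∨ r = [3] ∨ (∃ i < m, r = [1, i]) ∨ ∃ i < m, ∃ c < n, r = [0, i, c]}

theorem reads {m n : ℕ} {h : List Outcome} {q : ℕ} {I : Instr}
    (hI : I ∈ minorProg m n h q) (r : Reg) (hr : r = I.fst ∨ r = I.snd) (hb : r ∈ baseReg) :
    r ∈ BR m n := by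
  have h2 : ([2] : Reg) ∈ BR m n := Or.inl rfl
  have h3 : ([3] : Reg) ∈ BR m n := Or.inr (Or.inl rfl)
  rcases TORD.mem_minor hI with hI | hI | ⟨k, hk, hI⟩ | rfl
  · obtain ⟨i, j, hi, hj, rfl⟩ := TORD.mem_entry hI
    unfold entryInstr at hr
    split_ifs at hr with e1 e2 e3 e4
    · rcases hr with rfl | rfl
      · exact h3
      · exact h2
    · rcases hr with rfl | rfl <;> exact h3
    · rcases hr with rfl | rfl
      · exact Or.inr (Or.inr (Or.inr ⟨i, hi, _, by omega, rfl⟩))
      · exact h3
    · rcases hr with rfl | rfl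
      · exact h3
      · exact Or.inr (Or.inr (Or.inr ⟨i, hi, _, by omega, rfl⟩))
    · rcases hr with rfl | rfl
      · exact Or.inr (Or.inr (Or.inl ⟨i, hi, rfl⟩))
      · exact h3
  · rcases TORD.mem_init hI with rfl | ⟨i, j, hi, hj, rfl⟩
    · rcases hr with rfl | rfl <;> exact h3
    · rcases hr with rfl | rfl
      · dsimp only
        split_ifs
        · exact h2
        · exact h3
      · exact h3
  · rcases List.mem_append.1 hI with hI | hI
    · obtain ⟨i, j, hi, hj, rfl | ⟨l, hl, rfl | rfl⟩⟩ := TORD.mem_prod hI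
      · rcases hr with rfl | rfl <;> exact h3
      · rcases hr with rfl | rfl
        · exact absurd hb (by simp [baseReg])
        · exact absurd hb (by simp [baseReg])
      · rcases hr with rfl | rfl
        · exact absurd hb (by simp [baseReg])
        · exact absurd hb (by simp [baseReg])
    · rcases List.mem_append.1 hI with hI | hI
      · rcases TORD.mem_trace hI with rfl | ⟨i, hi, rfl⟩ | rfl | rfl
        · rcases hr with rfl | rfl <;> exact h3
        · rcases hr with rfl | rfl
          · exact absurd hb (by simp [baseReg])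
          · exact absurd hb (by simp [baseReg])
        · rcases hr with rfl | rfl
          · exact absurd hb (by simp [baseReg])
          · exact h2
        · rcases hr with rfl | rfl
          · exact absurd hb (by simp [baseReg])
          · exact absurd hb (by simp [baseReg])
      · obtain ⟨i, j, hi, hj, rfl⟩ := TORD.mem_next hI
        rcases hr with rfl | rfl
        · exact absurd hb (by simp [baseReg])
        · dsimp only at hb ⊢
          split_ifs at hb ⊢
          · exact absurd hb (by simp [baseReg])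
          · exact h3
  · rcases hr with rfl | rfl
    · exact h3
    · exact absurd hb (by simp [baseReg])

theorem av_minor {m n : ℕ} (h : List Outcome) (q : ℕ) (hm : 1 ≤ m) :
    Av (BR m n) (minorProg m n h q) := by
  have h1 := av_of_ord (t_ORD m n h q hm)
  have h2 : Av (baseReg ∪ ∅) (minorProg m n h q) := by rwa [Set.union_empty]
  have h3 := h2.restrict (S' := BR m n) fun I hI =>
    ⟨fun hb => reads hI _ (Or.inl rfl) hb, fun hb => reads hI _ (Or.inr rfl) hb⟩
  rwa [Set.union_empty] at h3

/-! ### The program -/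

/-- The degree of the minors. -/
def degT (m : ℕ) : ℕ := 2 * m * (2 * m * m + 1)

/-- The exponents of the kernel. -/
def ex (m i j : ℕ) : ℕ := 2 * m * m - 2 * ((i - j) * (i - j) + (j - i) * (j - i))

/-- The numbers `0, ..., D` and their powers. -/
def valProg (D E : ℕ) : List Instr :=
  (List.range (D + 1)).flatMap fun t =>
    (⟨Op.add, [20, t], if t = 0 then [3] else [20, t - 1], if t = 0 then [3] else [2]⟩ : Instr) ::
      ⟨Op.add, [21, t, 0], [2], [3]⟩ ::
      (List.range (E + 1)).map fun k => (⟨Op.mul, [21, t, k + 1], [21, t, k], [20, t]⟩ : Instr)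

/-- Whether two signs agree. -/
def eqS (τ : List Bool) (i j : ℕ) : Bool := decide (τ.getD i true = τ.getD j true)

/-- The sums. -/
def sumProg (m n D : ℕ) (τ : List Bool) : List Instr :=
  (List.range (D + 1)).flatMap fun t => (List.range m).flatMap fun i =>
    (List.range n).flatMap fun c =>
      (⟨Op.add, [23, t, i, c, 0], [3], [3]⟩ : Instr) ::
        (List.range m).flatMap fun j =>
          [(⟨Op.mul, [22, t, i, c, j], [21, t, ex m i j], [0, j, c]⟩ : Instr),
            if eqS τ i j = true then ⟨Op.add, [23, t, i, c, j + 1], [23, t, i, c, j], [22, t, i, c, j]⟩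
            else ⟨Op.sub, [23, t, i, c, j + 1], [23, t, i, c, j], [22, t, i, c, j]⟩]

/-- The perturbed instances. -/
def instProg (m n D : ℕ) : List Instr :=
  (List.range (D + 1)).flatMap fun t =>
    (⟨Op.add, [25, t, 2], [2], [3]⟩ : Instr) :: ⟨Op.add, [25, t, 3], [3], [3]⟩ ::
      (List.range m).flatMap fun i =>
        (⟨Op.mul, [24, t, i], [21, t, 2 * m * m], [1, i]⟩ : Instr) ::
        ⟨Op.sub, [25, t, 1, 2 * i], [24, t, i], [21, t, 2 * m * m - 1]⟩ ::
        ⟨Op.sub, [25, t, 1, 2 * i + 1], [3], [21, t, 2 * m * m + 1]⟩ ::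
        (List.range n).flatMap fun c =>
          [(⟨Op.add, [25, t, 0, 2 * i, c], [23, t, i, c, m], [3]⟩ : Instr),
            ⟨Op.sub, [25, t, 0, 2 * i + 1, c], [3], [23, t, i, c, m]⟩]

/-- The minors. -/
def minsProg (m n D : ℕ) (q : List (ℕ × ℕ)) : List Instr :=
  (List.range (D + 1)).flatMap fun t =>
    (minorProg (2 * m) n (CH.enc (2 * m) n q) 0).map (rn t)

/-- The differences. -/
def difProg (D : ℕ) : List Instr :=
  ((List.range (D + 1)).map fun t => (⟨Op.add, [26, 0, t], [25, t, 11], [3]⟩ : Instr)) ++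
    (List.range D).flatMap fun k => (List.range (D - k)).map fun j =>
      (⟨Op.sub, [26, k + 1, j], [26, k, j + 1], [26, k, j]⟩ : Instr)

/-- The whole program: the difference of order `D - k` of a minor of the perturbed instances. -/
def perProg (m n : ℕ) (τ : List Bool) (q : List (ℕ × ℕ)) (k : ℕ) : List Instr :=
  valProg (degT m) (2 * m * m) ++ (sumProg m n (degT m) τ ++ (instProg m n (degT m) ++
    (minsProg m n (degT m) q ++ (difProg (degT m) ++
      [(⟨Op.add, [27], [26, degT m - k, 0], [3]⟩ : Instr)]))))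

/-! ### The values -/

/-- Iterated differences. -/
noncomputable def dif (f : ℕ → ℝ) : ℕ → ℕ → ℝ
  | 0, j => f j
  | k + 1, j => dif f k (j + 1) - dif f k j

/-- A term of the sums. -/
noncomputable def trm {m n : ℕ} (τ : List Bool) (a : Inp m n) (t i c j : ℕ) : ℝ :=
  (t : ℝ) ^ ex m i j * start a.1 a.2 [0, j, c]

/-- The sums. -/
noncomputable def psum {m n : ℕ} (τ : List Bool) (a : Inp m n) (t i c l : ℕ) : ℝ :=
  ∑ j ∈ Finset.range l, (if eqS τ i j = true then trm τ a t i c j else -trm τ a t i c j)

/-- The perturbed instances. -/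
noncomputable def pin {m n : ℕ} (τ : List Bool) (a : Inp m n) (t : ℕ) : Inp (2 * m) n :=
  (fun r c => if (r : ℕ) % 2 = 0 then psum τ a t (r / 2) c m else -psum τ a t (r / 2) c m,
    fun r => if (r : ℕ) % 2 = 0 then
      (t : ℝ) ^ (2 * m * m) * start a.1 a.2 [1, r / 2] - (t : ℝ) ^ (2 * m * m - 1)
      else -(t : ℝ) ^ (2 * m * m + 1))

/-- The minor of the perturbed instances. -/
noncomputable def pmin {m n : ℕ} (τ : List Bool) (q : List (ℕ × ℕ)) (a : Inp m n) (t : ℕ) : ℝ :=
  dd (wmat (pin τ a t).1 (pin τ a t).2) (CH.betaQ (2 * m) n q)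

/-- The values of the registers. -/
noncomputable def pval {m n : ℕ} (τ : List Bool) (q : List (ℕ × ℕ)) (k : ℕ) (a : Inp m n) :
    Reg → ℝ
  | [20, t] => (t : ℝ)
  | [21, t, k] => (t : ℝ) ^ k
  | [22, t, i, c, j] => trm τ a t i c j
  | [23, t, i, c, l] => psum τ a t i c l
  | [24, t, i] => (t : ℝ) ^ (2 * m * m) * start a.1 a.2 [1, i]
  | 25 :: t :: r => vreg (2 * m) n (CH.enc (2 * m) n q) 0 (pin τ a t) r
  | [26, k, j] => dif (pmin τ q a) k j
  | [27] => dif (pmin τ q a) (degT m - k) 0
  | r => start a.1 a.2 r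

theorem pval_base {m n : ℕ} (τ : List Bool) (q : List (ℕ × ℕ)) (k : ℕ) (a : Inp m n) :
    ∀ r ∈ baseReg, pval τ q k a r = start a.1 a.2 r := by
  intro r hr
  unfold pval
  split
  all_goals first | rfl | exact absurd hr (by simp [baseReg])

end Pool.Agent.H682.CP
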