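import Pool.Agent.H682.CP.Prog

set_option autoImplicit false

/-!
# The program for a minor of the perturbed instance: execution
-/

namespace Pool.Agent.H682.CP

open Pool.Agent.NPC Pool.Agent.NPC.ER Pool.Agent.NPC.H612 Pool.Agent.H558R2
open Pool.Agent.H622R3.SM

/-! ### Membership -/

theorem mem_val {D E : ℕ} {I : Instr} : I ∈ valProg D E ↔ ∃ t < D + 1,
    I = ⟨Op.add, [20, t], if t = 0 then [3] else [20, t - 1], if t = 0 then [3] else [2]⟩ ∨
    I = ⟨Op.add, [21, t, 0], [2], [3]⟩ ∨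
    ∃ k < E + 1, I = ⟨Op.mul, [21, t, k + 1], [21, t, k], [20, t]⟩ := by
  unfold valProg
  simp only [List.mem_flatMap, List.mem_range, List.mem_cons, List.mem_map]
  constructor
  · rintro ⟨t, ht, h | h | ⟨k, hk, h⟩⟩
    · exact ⟨t, ht, Or.inl h⟩
    · exact ⟨t, ht, Or.inr (Or.inl h)⟩
    · exact ⟨t, ht, Or.inr (Or.inr ⟨k, hk, h.symm⟩)⟩
  · rintro ⟨t, ht, h | h | ⟨k, hk, h⟩⟩
    · exact ⟨t, ht, Or.inl h⟩
    · exact ⟨t, ht, Or.inr (Or.inl h)⟩
    · exact ⟨t, ht, Or.inr (Or.inr ⟨k, hk, h.symm⟩)⟩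

/-- The instruction of the sums. -/
def sumI (τ : List Bool) (t i c j : ℕ) : Instr :=
  if eqS τ i j = true then ⟨Op.add, [23, t, i, c, j + 1], [23, t, i, c, j], [22, t, i, c, j]⟩
  else ⟨Op.sub, [23, t, i, c, j + 1], [23, t, i, c, j], [22, t, i, c, j]⟩

theorem sumI_dst (τ : List Bool) (t i c j : ℕ) : (sumI τ t i c j).dst = [23, t, i, c, j + 1] := by
  unfold sumI
  split_ifs <;> rfl

theorem sumI_fst (τ : List Bool) (t i c j : ℕ) : (sumI τ t i c j).fst = [23, t, i, c, j] := by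
  unfold sumI
  split_ifs <;> rfl

theorem sumI_snd (τ : List Bool) (t i c j : ℕ) : (sumI τ t i c j).snd = [22, t, i, c, j] := by
  unfold sumI
  split_ifs <;> rfl

theorem mem_sum {m n D : ℕ} {τ : List Bool} {I : Instr} : I ∈ sumProg m n D τ ↔
    ∃ t < D + 1, ∃ i < m, ∃ c < n, I = ⟨Op.add, [23, t, i, c, 0], [3], [3]⟩ ∨
      ∃ j < m, I = ⟨Op.mul, [22, t, i, c, j], [21, t, ex m i j], [0, j, c]⟩ ∨
        I = sumI τ t i c j := by
  unfold sumProg sumI
  simp only [List.mem_flatMap, List.mem_range, List.mem_cons, List.not_mem_nil, or_false]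

theorem mem_inst {m n D : ℕ} {I : Instr} : I ∈ instProg m n D ↔
    ∃ t < D + 1, I = ⟨Op.add, [25, t, 2], [2], [3]⟩ ∨ I = ⟨Op.add, [25, t, 3], [3], [3]⟩ ∨
      ∃ i < m, I = ⟨Op.mul, [24, t, i], [21, t, 2 * m * m], [1, i]⟩ ∨
        I = ⟨Op.sub, [25, t, 1, 2 * i], [24, t, i], [21, t, 2 * m * m - 1]⟩ ∨
        I = ⟨Op.sub, [25, t, 1, 2 * i + 1], [3], [21, t, 2 * m * m + 1]⟩ ∨
        ∃ c < n, I = ⟨Op.add, [25, t, 0, 2 * i, c], [23, t, i, c, m], [3]⟩ ∨
          I = ⟨Op.sub, [25, t, 0, 2 * i + 1, c], [3], [23, t, i, c, m]⟩ := by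
  unfold instProg
  simp only [List.mem_flatMap, List.mem_range, List.mem_cons, List.not_mem_nil, or_false]

theorem mem_mins {m n D : ℕ} {q : List (ℕ × ℕ)} {I : Instr} : I ∈ minsProg m n D q ↔
    ∃ t < D + 1, ∃ J ∈ minorProg (2 * m) n (CH.enc (2 * m) n q) 0, I = rn t J := by
  unfold minsProg
  simp only [List.mem_flatMap, List.mem_range, List.mem_map]
  constructor
  · rintro ⟨t, ht, J, hJ, h⟩
    exact ⟨t, ht, J, hJ, h.symm⟩
  · rintro ⟨t, ht, J, hJ, h⟩
    exact ⟨t, ht, J, hJ, h.symm⟩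

theorem mem_dif {D : ℕ} {I : Instr} : I ∈ difProg D ↔
    (∃ t < D + 1, I = ⟨Op.add, [26, 0, t], [25, t, 11], [3]⟩) ∨
      ∃ k < D, ∃ j < D - k, I = ⟨Op.sub, [26, k + 1, j], [26, k, j + 1], [26, k, j]⟩ := by
  unfold difProg
  simp only [List.mem_append, List.mem_flatMap, List.mem_range, List.mem_map]
  constructor
  · rintro (⟨t, ht, h⟩ | ⟨k, hk, j, hj, h⟩)
    · exact Or.inl ⟨t, ht, h.symm⟩
    · exact Or.inr ⟨k, hk, j, hj, h.symm⟩
  · rintro (⟨t, ht, h⟩ | ⟨k, hk, j, hj, h⟩)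
    · exact Or.inl ⟨t, ht, h.symm⟩
    · exact Or.inr ⟨k, hk, j, hj, h.symm⟩

theorem mem_per {m n : ℕ} {τ : List Bool} {q : List (ℕ × ℕ)} {k : ℕ} {I : Instr} :
    I ∈ perProg m n τ q k ↔ I ∈ valProg (degT m) (2 * m * m) ∨ I ∈ sumProg m n (degT m) τ ∨
      I ∈ instProg m n (degT m) ∨ I ∈ minsProg m n (degT m) q ∨ I ∈ difProg (degT m) ∨
      I = ⟨Op.add, [27], [26, degT m - k, 0], [3]⟩ := by
  unfold perProg
  simp only [List.mem_append, List.mem_singleton]

/-! ### The equations -/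

section Eqs

variable {m n : ℕ} (τ : List Bool) (q : List (ℕ × ℕ)) (k : ℕ) (a : Inp m n)

theorem p2 : pval τ q k a [2] = 1 := rfl
theorem p3 : pval τ q k a [3] = 0 := rfl
theorem p20 (t : ℕ) : pval τ q k a [20, t] = (t : ℝ) := rfl
theorem p21 (t e : ℕ) : pval τ q k a [21, t, e] = (t : ℝ) ^ e := rfl
theorem p22 (t i c j : ℕ) : pval τ q k a [22, t, i, c, j] = trm τ a t i c j := rfl
theorem p23 (t i c l : ℕ) : pval τ q k a [23, t, i, c, l] = psum τ a t i c l := rfl
theorem p24 (t i : ℕ) :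
    pval τ q k a [24, t, i] = (t : ℝ) ^ (2 * m * m) * start a.1 a.2 [1, i] := rfl
theorem p25 (t : ℕ) (r : Reg) : pval τ q k a (25 :: t :: r) =
    vreg (2 * m) n (CH.enc (2 * m) n q) 0 (pin τ a t) r := rfl
theorem p26 (e j : ℕ) : pval τ q k a [26, e, j] = dif (pmin τ q a) e j := rfl
theorem p27 : pval τ q k a [27] = dif (pmin τ q a) (degT m - k) 0 := rfl
theorem p0 (j c : ℕ) : pval τ q k a [0, j, c] = start a.1 a.2 [0, j, c] := rfl
theorem p1 (j : ℕ) : pval τ q k a [1, j] = start a.1 a.2 [1, j] := rfl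

theorem p11 (t : ℕ) : pval τ q k a [25, t, 11] = pmin τ q a t := by
  rw [p25, TEQ.v11, CH.beta_enc]
  rfl

theorem good_per (hm : 1 ≤ m) : ∀ I ∈ perProg m n τ q k, TEQ.Good (pval τ q k a) I := by
  intro I hI
  rw [mem_per] at hI
  rcases hI with hI | hI | hI | hI | hI | rfl
  · obtain ⟨t, _, rfl | rfl | ⟨e, _, rfl⟩⟩ := mem_val.1 hI
    · refine ⟨?_, by simp⟩
      simp only [Op.eval]
      by_cases h0 : t = 0
      · rw [if_pos h0, if_pos h0, p20, p3, h0]
        simp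
      · rw [if_neg h0, if_neg h0, p20, p20, p2]
        have : 1 ≤ t := by omega
        push_cast [Nat.cast_sub this]
        ring
    · refine ⟨?_, by simp⟩
      simp only [Op.eval]
      rw [p21, p2, p3, pow_zero, add_zero]
    · refine ⟨?_, by simp⟩
      simp only [Op.eval]
      rw [p21, p21, p20, pow_succ]
  · obtain ⟨t, _, i, _, c, _, rfl | ⟨j, _, rfl | rfl⟩⟩ := mem_sum.1 hI
    · refine ⟨?_, by simp⟩
      simp only [Op.eval]
      rw [p23, p3]
      simp [psum]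
    · refine ⟨?_, by simp⟩
      simp only [Op.eval]
      rw [p22, p21, p0, trm]
    · unfold TEQ.Good sumI
      by_cases h : eqS τ i j = true
      · rw [if_pos h]
        refine ⟨?_, by simp⟩
        simp only [Op.eval]
        rw [p23, p23, p22, psum, Finset.sum_range_succ, if_pos h]
        rfl
      · rw [if_neg h]
        refine ⟨?_, by simp⟩
        simp only [Op.eval]
        rw [p23, p23, p22, psum, Finset.sum_range_succ, if_neg h, sub_eq_add_neg]
        rfl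
  · obtain ⟨t, _, rfl | rfl | ⟨i, hi, rfl | rfl | rfl | ⟨c, hc, rfl | rfl⟩⟩⟩ := mem_inst.1 hI
    · refine ⟨?_, by simp⟩
      simp only [Op.eval]
      rw [p25, TEQ.v2, p2, p3, add_zero]
    · refine ⟨?_, by simp⟩
      simp only [Op.eval]
      rw [p25, TEQ.v3, p3, add_zero]
    · refine ⟨?_, by simp⟩
      simp only [Op.eval]
      rw [p24, p21, p1]
    · refine ⟨?_, by simp⟩
      simp only [Op.eval]
      rw [p25, TEQ.v1 _ _ _ _ (by omega : 2 * i < 2 * m), p24, p21]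
      unfold pin
      simp only
      rw [if_pos (by omega), Nat.mul_div_cancel_left _ (by norm_num : 0 < 2)]
    · refine ⟨?_, by simp⟩
      simp only [Op.eval]
      rw [p25, TEQ.v1 _ _ _ _ (by omega : 2 * i + 1 < 2 * m), p3, p21, zero_sub]
      unfold pin
      simp only
      rw [if_neg (by omega)]
    · refine ⟨?_, by simp⟩
      simp only [Op.eval]
      rw [p25, TEQ.v0 _ _ _ _ _ (by omega : 2 * i < 2 * m) hc, p23, p3, add_zero]
      unfold pin
      simp only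
      rw [if_pos (by omega), Nat.mul_div_cancel_left _ (by norm_num : 0 < 2)]
    · refine ⟨?_, by simp⟩
      simp only [Op.eval]
      rw [p25, TEQ.v0 _ _ _ _ _ (by omega : 2 * i + 1 < 2 * m) hc, p23, p3, zero_sub]
      unfold pin
      simp only
      rw [if_neg (by omega)]
      have e : (2 * i + 1) / 2 = i := by omega
      rw [e]
  · obtain ⟨t, _, J, hJ, rfl⟩ := mem_mins.1 hI
    exact TEQ.good_minorProg (CH.enc (2 * m) n q) 0 (pin τ a t) (by omega) J hJ
  · obtain ⟨t, _, rfl⟩ | ⟨e, _, j, _, rfl⟩ := mem_dif.1 hI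
    · refine ⟨?_, by simp⟩
      simp only [Op.eval]
      rw [p26, p11, p3, add_zero]
      rfl
    · refine ⟨?_, by simp⟩
      simp only [Op.eval]
      rw [p26, p26, p26]
      rfl
  · refine ⟨?_, by simp⟩
    simp only [Op.eval]
    rw [p27, p26, p3, add_zero]

end Eqs

/-! ### Availability -/

theorem ex_le (m i j : ℕ) : ex m i j ≤ 2 * m * m := Nat.sub_le _ _

theorem av_val (D E : ℕ) : Av baseReg (valProg D E) := by
  have h3 : ∀ X : Set Reg, ([3] : Reg) ∈ baseReg ∪ X := fun X => Or.inl (by simp [baseReg])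
  have h2 : ∀ X : Set Reg, ([2] : Reg) ∈ baseReg ∪ X := fun X => Or.inl (by simp [baseReg])
  unfold valProg
  refine Av.flatMap _ fun t ht => ?_
  refine ⟨?_, ?_, ?_, ?_, ?_⟩
  · dsimp only
    by_cases h0 : t = 0
    · rw [if_pos h0]
      exact h3 _
    · rw [if_neg h0]
      refine Or.inr (mem_dsts.2 ⟨⟨Op.add, [20, t - 1], if t - 1 = 0 then [3] else [20, t - 1 - 1],
        if t - 1 = 0 then [3] else [2]⟩, ?_, rfl⟩)
      rw [List.mem_flatMap]
      exact ⟨t - 1, List.mem_range.2 (by omega), List.mem_cons_self⟩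
  · dsimp only
    by_cases h0 : t = 0
    · rw [if_pos h0]
      exact h3 _
    · rw [if_neg h0]
      exact h2 _
  · exact Or.inr (h2 _)
  · exact Or.inr (h3 _)
  · refine Av.map _ fun k _ => ⟨?_, ?_⟩
    · rcases Nat.eq_zero_or_pos k with rfl | hk
      · exact Or.inl (Or.inl rfl)
      · refine Or.inr (mem_dsts.2 ⟨⟨Op.mul, [21, t, k - 1 + 1], [21, t, k - 1], [20, t]⟩, ?_, ?_⟩)
        · rw [List.mem_map]
          exact ⟨k - 1, List.mem_range.2 (by omega), rfl⟩
        · dsimp only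
          rw [Nat.sub_add_cancel hk]
    · exact Or.inl (Or.inr (Or.inl rfl))

theorem mem_val20 {D E t : ℕ} (ht : t ≤ D) : ([20, t] : Reg) ∈ dsts (valProg D E) :=
  mem_dsts.2 ⟨_, mem_val.2 ⟨t, by omega, Or.inl rfl⟩, rfl⟩

theorem mem_val21 {D E t e : ℕ} (ht : t ≤ D) (he : e ≤ E + 1) :
    ([21, t, e] : Reg) ∈ dsts (valProg D E) := by
  rcases Nat.eq_zero_or_pos e with rfl | h
  · exact mem_dsts.2 ⟨_, mem_val.2 ⟨t, by omega, Or.inr (Or.inl rfl)⟩, rfl⟩
  · refine mem_dsts.2 ⟨_, mem_val.2 ⟨t, by omega, Or.inr (Or.inr ⟨e - 1, by omega, rfl⟩)⟩, ?_⟩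
    dsimp only
    rw [Nat.sub_add_cancel h]

theorem av_sum (m n D : ℕ) (τ : List Bool) :
    Av (baseReg ∪ dsts (valProg D (2 * m * m))) (sumProg m n D τ) := by
  unfold sumProg
  refine Av.flatMap' _ fun t ht => Av.flatMap' _ fun i hi => Av.flatMap' _ fun c hc => ?_
  refine ⟨Or.inl (by simp [baseReg]), Or.inl (by simp [baseReg]), ?_⟩
  refine Av.flatMap _ fun j hj => ?_
  change Av _ [_, sumI τ t i c j]
  refine ⟨Or.inl (Or.inr (Or.inr (mem_val21 (by omega) ((ex_le m i j).trans (by omega))))),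
    Or.inl (Or.inr (Or.inl (by simp [baseReg]))), ?_, ?_, trivial⟩
  · rw [sumI_fst]
    rcases Nat.eq_zero_or_pos j with rfl | h
    · exact Or.inr (Or.inl (Or.inl rfl))
    · refine Or.inr (Or.inr (mem_dsts.2 ⟨sumI τ t i c (j - 1), ?_, ?_⟩))
      · rw [List.mem_flatMap]
        exact ⟨j - 1, List.mem_range.2 (by omega), by
          unfold sumI
          exact List.mem_cons_of_mem _ List.mem_cons_self⟩
      · rw [sumI_dst, Nat.sub_add_cancel h]
  · rw [sumI_snd]
    exact Or.inl rfl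

theorem mem_sum23 {m n D t i c : ℕ} (τ : List Bool) (ht : t ≤ D) (hi : i < m) (hc : c < n) :
    ([23, t, i, c, m] : Reg) ∈ dsts (sumProg m n D τ) := by
  refine mem_dsts.2 ⟨_, mem_sum.2 ⟨t, by omega, i, hi, c, hc, Or.inr ⟨m - 1, by omega,
    Or.inr rfl⟩⟩, ?_⟩
  rw [sumI_dst, Nat.sub_add_cancel (by omega)]

theorem av_inst (m n D : ℕ) (τ : List Bool) :
    Av ((baseReg ∪ dsts (valProg D (2 * m * m))) ∪ dsts (sumProg m n D τ)) (instProg m n D) := by
  have hb : ∀ (r : Reg), r ∈ baseReg →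
      r ∈ (baseReg ∪ dsts (valProg D (2 * m * m))) ∪ dsts (sumProg m n D τ) :=
    fun r hr => Or.inl (Or.inl hr)
  have h3 := hb [3] (by simp [baseReg])
  have h2 := hb [2] (by simp [baseReg])
  have h21 : ∀ t ≤ D, ∀ e ≤ 2 * m * m + 1, ([21, t, e] : Reg) ∈
      (baseReg ∪ dsts (valProg D (2 * m * m))) ∪ dsts (sumProg m n D τ) :=
    fun t ht e he => Or.inl (Or.inr (mem_val21 ht he))
  unfold instProg
  refine Av.flatMap' _ fun t ht => ?_
  refine ⟨h2, h3, Or.inr h3, Or.inr h3, ?_⟩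
  refine Av.flatMap' _ fun i hi => ?_
  refine ⟨Or.inr (Or.inr (h21 t (by omega) _ (by omega))),
    Or.inr (Or.inr (hb [1, i] (by simp [baseReg]))), Or.inl rfl,
    Or.inr (Or.inr (Or.inr (h21 t (by omega) _ (by omega)))),
    Or.inr (Or.inr (Or.inr (Or.inr h3))),
    Or.inr (Or.inr (Or.inr (Or.inr (h21 t (by omega) _ (by omega))))), ?_⟩
  refine Av.flatMap' _ fun c hc => ?_
  have h23 := mem_sum23 (n := n) (D := D) τ (by omega : t ≤ D) hi hc
  refine ⟨Or.inr (Or.inr (Or.inr (Or.inr (Or.inr (Or.inr h23))))),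
    Or.inr (Or.inr (Or.inr (Or.inr (Or.inr h3)))),
    Or.inr (Or.inr (Or.inr (Or.inr (Or.inr (Or.inr h3))))),
    Or.inr (Or.inr (Or.inr (Or.inr (Or.inr (Or.inr (Or.inr h23)))))), trivial⟩

theorem mem_instBR {m n D t : ℕ} (ht : t ≤ D) {r : Reg} (hr : r ∈ BR (2 * m) n) :
    (25 :: t :: r : Reg) ∈ dsts (instProg m n D) := by
  rcases hr with rfl | rfl | ⟨i, hi, rfl⟩ | ⟨i, hi, c, hc, rfl⟩
  · exact mem_dsts.2 ⟨_, mem_inst.2 ⟨t, by omega, Or.inl rfl⟩, rfl⟩
  · exact mem_dsts.2 ⟨_, mem_inst.2 ⟨t, by omega, Or.inr (Or.inl rfl)⟩, rfl⟩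
  · rcases Nat.mod_two_eq_zero_or_one i with h | h
    · refine mem_dsts.2 ⟨_, mem_inst.2 ⟨t, by omega, Or.inr (Or.inr ⟨i / 2, by omega,
        Or.inr (Or.inl rfl)⟩)⟩, ?_⟩
      dsimp only
      rw [show 2 * (i / 2) = i by omega]
    · refine mem_dsts.2 ⟨_, mem_inst.2 ⟨t, by omega, Or.inr (Or.inr ⟨i / 2, by omega,
        Or.inr (Or.inr (Or.inl rfl))⟩)⟩, ?_⟩
      dsimp only
      rw [show 2 * (i / 2) + 1 = i by omega]
  · rcases Nat.mod_two_eq_zero_or_one i with h | h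
    · refine mem_dsts.2 ⟨_, mem_inst.2 ⟨t, by omega, Or.inr (Or.inr ⟨i / 2, by omega,
        Or.inr (Or.inr (Or.inr ⟨c, hc, Or.inl rfl⟩))⟩)⟩, ?_⟩
      dsimp only
      rw [show 2 * (i / 2) = i by omega]
    · refine mem_dsts.2 ⟨_, mem_inst.2 ⟨t, by omega, Or.inr (Or.inr ⟨i / 2, by omega,
        Or.inr (Or.inr (Or.inr ⟨c, hc, Or.inr rfl⟩))⟩)⟩, ?_⟩
      dsimp only
      rw [show 2 * (i / 2) + 1 = i by omega]

theorem av_mins (m n D : ℕ) (q : List (ℕ × ℕ)) (hm : 1 ≤ m) (S : Set Reg) :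
    Av (S ∪ dsts (instProg m n D)) (minsProg m n D q) := by
  unfold minsProg
  refine Av.flatMap' _ fun t ht => ?_
  refine (Av.rename t (av_minor (CH.enc (2 * m) n q) 0 (by omega : 1 ≤ 2 * m))).mono ?_
  rintro _ ⟨r, hr, rfl⟩
  exact Or.inr (mem_instBR (by omega) hr)

theorem mem_mins11 {m n D t : ℕ} (q : List (ℕ × ℕ)) (ht : t ≤ D) :
    ([25, t, 11] : Reg) ∈ dsts (minsProg m n D q) := by
  refine mem_dsts.2 ⟨_, mem_mins.2 ⟨t, by omega, ⟨Op.sub, [11], [3], [10, 2 * m - 1]⟩, ?_, rfl⟩,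
    rfl⟩
  unfold minorProg
  simp

theorem av_dif (D : ℕ) (S : Set Reg) (h3 : ([3] : Reg) ∈ S)
    (h11 : ∀ t ≤ D, ([25, t, 11] : Reg) ∈ S) : Av S (difProg D) := by
  unfold difProg
  refine Av.append ?_ ?_
  · exact Av.map _ fun t ht => ⟨Or.inl (h11 t (by omega)), Or.inl h3⟩
  · have key : ∀ N ≤ D, ∀ e ≤ N, ∀ j ≤ D - e, ([26, e, j] : Reg) ∈
        (S ∪ dsts ((List.range (D + 1)).map fun t =>
          (⟨Op.add, [26, 0, t], [25, t, 11], [3]⟩ : Instr))) ∪
        dsts ((List.range N).flatMap fun k => (List.range (D - k)).map fun j =>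
          (⟨Op.sub, [26, k + 1, j], [26, k, j + 1], [26, k, j]⟩ : Instr)) := by
      intro N hN e he j hj
      rcases Nat.eq_zero_or_pos e with rfl | h
      · refine Or.inl (Or.inr (mem_dsts.2 ⟨⟨Op.add, [26, 0, j], [25, j, 11], [3]⟩, ?_, rfl⟩))
        rw [List.mem_map]
        exact ⟨j, List.mem_range.2 (by omega), rfl⟩
      · refine Or.inr (mem_dsts.2 ⟨⟨Op.sub, [26, e - 1 + 1, j], [26, e - 1, j + 1],
          [26, e - 1, j]⟩, ?_, ?_⟩)
        · rw [List.mem_flatMap]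
          refine ⟨e - 1, List.mem_range.2 (by omega), ?_⟩
          rw [List.mem_map]
          exact ⟨j, List.mem_range.2 (by omega), rfl⟩
        · dsimp only
          rw [Nat.sub_add_cancel h]
    refine Av.flatMap _ fun k hk => ?_
    refine Av.map _ fun j hj => ⟨?_, ?_⟩
    · exact Or.inl (key k (by omega) k le_rfl (j + 1) (by omega))
    · exact Or.inl (key k (by omega) k le_rfl j (by omega))

theorem mem_dif26 {D e : ℕ} (he : e ≤ D) : ([26, e, 0] : Reg) ∈ dsts (difProg D) := by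
  rcases Nat.eq_zero_or_pos e with rfl | h
  · exact mem_dsts.2 ⟨_, mem_dif.2 (Or.inl ⟨0, by omega, rfl⟩), rfl⟩
  · refine mem_dsts.2 ⟨_, mem_dif.2 (Or.inr ⟨e - 1, by omega, 0, by omega, rfl⟩), ?_⟩
    dsimp only
    rw [Nat.sub_add_cancel h]

theorem av_per {m n : ℕ} (τ : List Bool) (q : List (ℕ × ℕ)) (k : ℕ) (hm : 1 ≤ m) :
    Av baseReg (perProg m n τ q k) := by
  unfold perProg
  refine Av.append (av_val _ _) ?_
  refine Av.append (av_sum _ _ _ _) ?_
  refine Av.append (av_inst _ _ _ _) ?_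
  refine Av.append (av_mins _ _ _ _ hm _) ?_
  refine Av.append (av_dif _ _ ?_ fun t ht => Or.inr (mem_mins11 q ht)) ?_
  · exact Or.inl (Or.inl (Or.inl (Or.inl (by simp [baseReg]))))
  · exact ⟨Or.inr (mem_dif26 (Nat.sub_le _ _)),
      Or.inl (Or.inl (Or.inl (Or.inl (Or.inl (by simp [baseReg]))))), trivial⟩

/-! ### Lengths -/

/-- A bound for the length. -/
def lenP (m n : ℕ) : ℕ :=
  (degT m + 1) * (2 * m * m + 3) + (degT m + 1) * (m * (n * (2 * m + 1))) +
    (degT m + 1) * (2 + m * (3 + 2 * n)) + (degT m + 1) * (12 * (2 * m) ^ 4) +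
    ((degT m + 1) + degT m * degT m) + 1

theorem len_le {β : Type} (f : ℕ → List β) (c : ℕ) : ∀ N : ℕ, (∀ k < N, (f k).length ≤ c) →
    ((List.range N).flatMap f).length ≤ N * c := by
  intro N
  induction N with
  | zero => intro _; simp
  | succ N ih =>
    intro h
    rw [List.range_succ, List.flatMap_append, List.length_append, List.flatMap_singleton]
    have h1 := ih fun k hk => h k (by omega)
    have h2 := h N (by omega)
    rw [Nat.succ_mul]
    omega

theorem len_per {m n : ℕ} (τ : List Bool) (q : List (ℕ × ℕ)) (k : ℕ) (hm : 1 ≤ m) :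
    (perProg m n τ q k).length ≤ lenP m n := by
  have h1 : (valProg (degT m) (2 * m * m)).length ≤ (degT m + 1) * (2 * m * m + 3) := by
    unfold valProg
    refine len_le _ _ _ fun t _ => ?_
    simp
  have h2 : (sumProg m n (degT m) τ).length ≤ (degT m + 1) * (m * (n * (2 * m + 1))) := by
    unfold sumProg
    refine len_le _ _ _ fun t _ => len_le _ _ _ fun i _ => len_le _ _ _ fun c _ => ?_
    rw [List.length_cons]
    have := len_le (fun j => [(⟨Op.mul, [22, t, i, c, j], [21, t, ex m i j], [0, j, c]⟩ : Instr),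
            if eqS τ i j = true then ⟨Op.add, [23, t, i, c, j + 1], [23, t, i, c, j], [22, t, i, c, j]⟩
            else ⟨Op.sub, [23, t, i, c, j + 1], [23, t, i, c, j], [22, t, i, c, j]⟩]) 2 m
            (fun j _ => by simp)
    omega
  have h3 : (instProg m n (degT m)).length ≤ (degT m + 1) * (2 + m * (3 + 2 * n)) := by
    unfold instProg
    refine len_le _ _ _ fun t _ => ?_
    rw [List.length_cons, List.length_cons]
    have := len_le (fun i => (⟨Op.mul, [24, t, i], [21, t, 2 * m * m], [1, i]⟩ : Instr) ::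
        ⟨Op.sub, [25, t, 1, 2 * i], [24, t, i], [21, t, 2 * m * m - 1]⟩ ::
        ⟨Op.sub, [25, t, 1, 2 * i + 1], [3], [21, t, 2 * m * m + 1]⟩ ::
        (List.range n).flatMap fun c =>
          [(⟨Op.add, [25, t, 0, 2 * i, c], [23, t, i, c, m], [3]⟩ : Instr),
            ⟨Op.sub, [25, t, 0, 2 * i + 1, c], [3], [23, t, i, c, m]⟩]) (3 + 2 * n) m
            (fun i _ => by
              rw [List.length_cons, List.length_cons, List.length_cons]
              have := len_le (fun c => [(⟨Op.add, [25, t, 0, 2 * i, c], [23, t, i, c, m], [3]⟩ :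
                Instr), ⟨Op.sub, [25, t, 0, 2 * i + 1, c], [3], [23, t, i, c, m]⟩]) 2 n
                (fun _ _ => by simp)
              omega)
    omega
  have h4 : (minsProg m n (degT m) q).length ≤ (degT m + 1) * (12 * (2 * m) ^ 4) := by
    unfold minsProg
    refine len_le _ _ _ fun t _ => ?_
    rw [List.length_map]
    exact t_LEN (2 * m) n _ 0 (by omega)
  have h5 : (difProg (degT m)).length ≤ (degT m + 1) + degT m * degT m := by
    unfold difProg
    rw [List.length_append, List.length_map, List.length_range]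
    refine Nat.add_le_add_left (len_le _ _ _ fun k _ => ?_) _
    rw [List.length_map, List.length_range]
    exact Nat.sub_le _ _
  unfold perProg lenP
  simp only [List.length_append, List.length_singleton]
  omega

end Pool.Agent.H682.CP
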