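import Pool.Agent.H682.CP.Prog2
import Pool.Agent.H682.CH.Det

set_option autoImplicit false

/-!
# The numbers are small
-/

namespace Pool.Agent.H682.CP

open Pool.Agent.NPC Pool.Agent.NPC.ER Pool.Agent.NPC.H612 Pool.Agent.H558R2
open Pool.Agent.H622R3.SM

/-- A common denominator. -/
theorem common {m n : ℕ} (A : Matrix (Fin m) (Fin n) ℚ) (b : Fin m → ℚ) :
    m ≤ inputLength A b ∧ ∃ (D : ℕ) (X : Idx m n → ℤ), 1 ≤ D ∧ D ≤ 4 ^ inputLength A b ∧
      (∀ k, |X k| ≤ ((4 ^ inputLength A b : ℕ) : ℤ)) ∧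
      ∀ k, ((X k : ℤ) : ℝ) / D = ((ratInput A b k : ℚ) : ℝ) := by
  set r := ratInput A b with hr
  set ℓ := inputLength A b with hℓ
  have hℓ' : ℓ = ∑ k, bitLength (r k) := inputLength_eq A b
  have hmℓ : m ≤ ℓ := by
    have h1 : ∀ i : Fin m, 1 ≤ bitLength (b i) := fun i => by unfold bitLength; omega
    have h2 : m ≤ ∑ i, bitLength (b i) := by
      calc m = ∑ _i : Fin m, 1 := by simp
        _ ≤ ∑ i, bitLength (b i) := Finset.sum_le_sum fun i _ => h1 i
    rw [hℓ, inputLength]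
    omega
  set D := ∏ k, (r k).den with hD
  have hDpos : 1 ≤ D := Finset.prod_pos fun k _ => (r k).den_pos
  have hDle : D ≤ 2 ^ ℓ := by
    calc D ≤ ∏ k, 2 ^ bitLength (r k) := by
          apply Finset.prod_le_prod'
          intro k _
          refine (le_two_pow_size _).trans (Nat.pow_le_pow_right (by omega) ?_)
          unfold bitLength
          omega
      _ = 2 ^ ℓ := by rw [Finset.prod_pow_eq_pow_sum, hℓ']
  have hdvd : ∀ k, (r k).den ∣ D := fun k => Finset.dvd_prod_of_mem _ (Finset.mem_univ k)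
  set X : Idx m n → ℤ := fun k => (r k).num * (D / (r k).den : ℕ) with hX
  have hXval : ∀ k, ((X k : ℤ) : ℝ) / D = ((r k : ℚ) : ℝ) := by
    intro k
    obtain ⟨c, hc⟩ := hdvd k
    have hdk : 0 < (r k).den := (r k).den_pos
    have hdiv : D / (r k).den = c := by
      rw [hc, Nat.mul_div_cancel_left _ hdk]
    have hD0 : (D : ℝ) ≠ 0 := by positivity
    have hc0 : (c : ℝ) ≠ 0 := by
      intro h
      have : c = 0 := by exact_mod_cast h
      rw [this, mul_zero] at hc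
      omega
    have hdk' : ((r k).den : ℝ) ≠ 0 := by positivity
    have e : ((r k : ℚ) : ℝ) = ((r k).num : ℝ) / ((r k).den : ℝ) := by
      conv_lhs => rw [← Rat.num_div_den (r k)]
      push_cast
      rfl
    rw [e]
    simp only [hX]
    rw [hdiv]
    have hDc : (D : ℝ) = (r k).den * c := by exact_mod_cast hc
    rw [hDc]
    push_cast
    field_simp
  have hXle : ∀ k, |X k| ≤ ((4 ^ ℓ : ℕ) : ℤ) := by
    intro k
    simp only [hX]
    rw [abs_mul]
    have h1 : |(r k).num| ≤ ((2 ^ ℓ : ℕ) : ℤ) := by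
      rw [← Int.natCast_natAbs]
      have h2 : bitLength (r k) ≤ ℓ := by
        rw [hℓ']
        exact Finset.single_le_sum (f := fun k => bitLength (r k)) (fun _ _ => Nat.zero_le _)
          (Finset.mem_univ k)
      have h3 : (r k).num.natAbs ≤ 2 ^ ℓ :=
        (le_two_pow_size _).trans (Nat.pow_le_pow_right (by omega) (by
          unfold bitLength at h2; omega))
      exact_mod_cast h3
    have h2 : |((D / (r k).den : ℕ) : ℤ)| ≤ ((2 ^ ℓ : ℕ) : ℤ) := by
      rw [abs_of_nonneg (by positivity)]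
      exact_mod_cast (Nat.div_le_self _ _).trans hDle
    calc |(r k).num| * |((D / (r k).den : ℕ) : ℤ)| ≤ ((2 ^ ℓ : ℕ) : ℤ) * ((2 ^ ℓ : ℕ) : ℤ) :=
          mul_le_mul h1 h2 (abs_nonneg _) (by positivity)
      _ = ((4 ^ ℓ : ℕ) : ℤ) := by
          rw [← Nat.cast_mul, ← mul_pow]
          norm_num
  have hDH : D ≤ 4 ^ ℓ := hDle.trans (Nat.pow_le_pow_left (by omega) _)
  exact ⟨hmℓ, D, X, hDpos, hDH, hXle, hXval⟩

/-! ### Small values -/

/-- Numerator and denominator are small. -/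
def Sm (K : ℕ) (v : ℝ) : Prop := ∃ E B, 1 ≤ E ∧ E ≤ 2 ^ K ∧ B ≤ 2 ^ K ∧ IB v E B

theorem Sm.bits {K : ℕ} {v : ℝ} (h : Sm K v) : ∃ r : ℚ, (r : ℝ) = v ∧ bitLength r ≤ 2 * K + 3 := by
  obtain ⟨E, B, h1, h2, h3, h4⟩ := h
  exact bitLength_of_IB h4 h1 h2 h3

theorem IB.neg {v : ℝ} {E B : ℕ} (h : IB v E B) : IB (-v) E B := by
  obtain ⟨N, h1, h2⟩ := h
  exact ⟨-N, by push_cast; rw [← h1]; ring, by rw [abs_neg]; exact h2⟩

theorem IB.nat {v B : ℕ} (h : v ≤ B) : IB (v : ℝ) 1 B :=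
  ⟨v, by push_cast; ring, by rw [abs_of_nonneg (by positivity)]; exact_mod_cast h⟩

theorem IB.one_mul' {v : ℝ} {E B : ℕ} (h : IB v (1 * E) B) : IB v E B := by rwa [one_mul] at h

/-- The number of bits of `H`. -/
def hB (l : ℕ) : ℕ := 1 + l + degT l * (2 * l * l + 1) + 2 * l

/-- The number of bits of the results. -/
def KB (l : ℕ) : ℕ := (1 + 3 * (2 * l) + hB l) * (2 * l + 1) + degT l

/-- The bound for the powers. -/
def TT (m : ℕ) : ℕ := degT m ^ (2 * m * m + 1)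

/-- The bound for the entries. -/
def HH (m l : ℕ) : ℕ := 2 * m * (TT m * 4 ^ l)

theorem degT_mono {m l : ℕ} (h : m ≤ l) : degT m ≤ degT l := by
  unfold degT
  gcongr

theorem degT_pos {m : ℕ} (hm : 1 ≤ m) : 1 ≤ degT m := by
  unfold degT
  have : 0 < 2 * m * (2 * m * m + 1) := by positivity
  exact this

theorem TT_pos {m : ℕ} (hm : 1 ≤ m) : 1 ≤ TT m := Nat.one_le_pow _ _ (degT_pos hm)

theorem TT_le {m l : ℕ} (h : m ≤ l) : TT m ≤ 2 ^ (degT l * (2 * l * l + 1)) := by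
  unfold TT
  rw [pow_mul]
  refine (Nat.pow_le_pow_left ((degT_mono h).trans Nat.lt_two_pow_self.le) _).trans
    (Nat.pow_le_pow_right (Nat.pow_pos (by norm_num)) ?_)
  gcongr

theorem HH_le {m l : ℕ} (h : m ≤ l) : HH m l ≤ 2 ^ hB l := by
  unfold HH hB
  have e : 2 ^ (1 + l + degT l * (2 * l * l + 1) + 2 * l) =
      2 * 2 ^ l * (2 ^ (degT l * (2 * l * l + 1)) * 4 ^ l) := by
    rw [pow_add, pow_add, pow_add, pow_mul 2 2 l]
    norm_num
    ring
  rw [e]
  refine Nat.mul_le_mul (Nat.mul_le_mul_left _ (h.trans Nat.lt_two_pow_self.le))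
    (Nat.mul_le_mul_right _ (TT_le h))

theorem big_le {m l : ℕ} (h : m ≤ l) :
    big (2 * m) (HH m l) ≤ 2 ^ ((1 + 3 * (2 * l) + hB l) * (2 * l + 1)) := by
  unfold big
  rw [pow_mul]
  have h1 : 2 * (2 * m) ^ 3 * HH m l ≤ 2 ^ (1 + 3 * (2 * l) + hB l) := by
    rw [pow_add, pow_add, pow_one]
    refine Nat.mul_le_mul (Nat.mul_le_mul_left _ ?_) (HH_le h)
    rw [mul_comm 3, pow_mul]
    refine Nat.pow_le_pow_left ?_ 3
    have : 2 * l ≤ 2 ^ (2 * l) := Nat.lt_two_pow_self.le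
    omega
  refine (Nat.pow_le_pow_left h1 _).trans (Nat.pow_le_pow_right (Nat.pow_pos (by norm_num)) ?_)
  omega

theorem big_pos {m H : ℕ} (hm : 1 ≤ m) (hH : 1 ≤ H) : 1 ≤ big m H := by
  unfold big
  refine Nat.one_le_pow _ _ ?_
  have : 1 ≤ m ^ 3 := Nat.one_le_pow _ _ hm
  have : 0 < 2 * m ^ 3 * H := by positivity
  exact this

section Vals

variable {m n : ℕ} (τ : List Bool) (q : List (ℕ × ℕ)) {a : Inp m n} {D l : ℕ} {X : Idx m n → ℤ}
  (hm : 1 ≤ m) (hml : m ≤ l) (hD : 1 ≤ D) (hDl : D ≤ 4 ^ l)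
  (hX : ∀ k, |X k| ≤ ((4 ^ l : ℕ) : ℤ)) (ha : a = TSMALL.toInp fun k => (X k : ℝ) / D)

include hm in
theorem pow_le_TT {t e : ℕ} (ht : t ≤ degT m) (he : e ≤ 2 * m * m + 1) : t ^ e ≤ TT m := by
  unfold TT
  exact (Nat.pow_le_pow_left ht _).trans (Nat.pow_le_pow_right (degT_pos hm) he)

include hD hX ha

theorem ib_start (r : Reg) (hr : (∃ j c, r = [0, j, c]) ∨ ∃ j, r = [1, j]) :
    IB (start a.1 a.2 r) D (4 ^ l) := by
  have hD' : (D : ℝ) ≠ 0 := by positivity
  rcases hr with ⟨j, c, rfl⟩ | ⟨j, rfl⟩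
  · change IB (if h : j < m ∧ c < n then a.1 ⟨j, h.1⟩ ⟨c, h.2⟩ else 0) D (4 ^ l)
    split_ifs with h
    · rw [ha]
      refine ⟨X (Sum.inl (⟨j, h.1⟩, ⟨c, h.2⟩)), ?_, hX _⟩
      unfold TSMALL.toInp
      simp only
      field_simp
    · exact IB.zero _ _
  · change IB (if h : j < m then a.2 ⟨j, h⟩ else 0) D (4 ^ l)
    split_ifs with h
    · rw [ha]
      refine ⟨X (Sum.inr ⟨j, h⟩), ?_, hX _⟩
      unfold TSMALL.toInp
      simp only
      field_simp
    · exact IB.zero _ _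

include hm

theorem ib_trm {t i c j : ℕ} (ht : t ≤ degT m) : IB (trm τ a t i c j) D (TT m * 4 ^ l) := by
  unfold trm
  have h1 : IB (((t ^ ex m i j : ℕ) : ℝ)) 1 (TT m) :=
    IB.nat (pow_le_TT hm ht ((ex_le m i j).trans (by omega)))
  have h2 := h1.mul (ib_start hD hX ha [0, j, c] (Or.inl ⟨j, c, rfl⟩))
  rw [one_mul] at h2
  push_cast at h2
  exact h2

theorem ib_psum {t i c e : ℕ} (ht : t ≤ degT m) (he : e ≤ m) :
    IB (psum τ a t i c e) D (m * (TT m * 4 ^ l)) := by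
  unfold psum
  refine (IB.sum (B := TT m * 4 ^ l) (Finset.range e) fun j _ => ?_).mono ?_
  · split_ifs
    · exact ib_trm τ hm hD hX ha ht
    · exact IB.neg (ib_trm τ hm hD hX ha ht)
  · rw [Finset.card_range]
    exact Nat.mul_le_mul_right _ he

theorem ib_24 {t i : ℕ} (ht : t ≤ degT m) :
    IB ((t : ℝ) ^ (2 * m * m) * start a.1 a.2 [1, i]) D (TT m * 4 ^ l) := by
  have h1 : IB (((t ^ (2 * m * m) : ℕ) : ℝ)) 1 (TT m) := IB.nat (pow_le_TT hm ht (by omega))
  have h2 := h1.mul (ib_start hD hX ha [1, i] (Or.inr ⟨i, rfl⟩))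
  rw [one_mul] at h2
  push_cast at h2
  exact h2

omit hD hX ha in
theorem ib_pow {t e : ℕ} (hDl : D ≤ 4 ^ l) (ht : t ≤ degT m) (he : e ≤ 2 * m * m + 1) :
    IB ((t : ℝ) ^ e) D (TT m * 4 ^ l) := by
  have h1 : IB (((t ^ e : ℕ) : ℝ)) 1 (TT m) := IB.nat (pow_le_TT hm ht he)
  have h2 := h1.scale D
  rw [one_mul] at h2
  push_cast at h2
  exact h2.mono (Nat.mul_le_mul_left _ hDl)

theorem ib_pin {t : ℕ} (hDl : D ≤ 4 ^ l) (ht : t ≤ degT m) (k : Idx (2 * m) n) :
    IB (val (pin τ a t) k) D (HH m l) := by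
  have e1 : m * (TT m * 4 ^ l) ≤ HH m l := by
    unfold HH
    have : m * (TT m * 4 ^ l) ≤ 2 * m * (TT m * 4 ^ l) := Nat.mul_le_mul_right _ (by omega)
    exact this
  have e2 : TT m * 4 ^ l + TT m * 4 ^ l ≤ HH m l := by
    unfold HH
    calc TT m * 4 ^ l + TT m * 4 ^ l = 2 * (TT m * 4 ^ l) := by ring
      _ ≤ 2 * m * (TT m * 4 ^ l) := Nat.mul_le_mul_right _ (by omega)
  rcases k with ⟨r, c⟩ | r
  · change IB (if (r : ℕ) % 2 = 0 then psum τ a t (r / 2) c m else -psum τ a t (r / 2) c m) D _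
    split_ifs
    · exact (ib_psum τ hm hD hX ha ht le_rfl).mono e1
    · exact (IB.neg (ib_psum τ hm hD hX ha ht le_rfl)).mono e1
  · change IB (if (r : ℕ) % 2 = 0 then
      (t : ℝ) ^ (2 * m * m) * start a.1 a.2 [1, r / 2] - (t : ℝ) ^ (2 * m * m - 1)
      else -(t : ℝ) ^ (2 * m * m + 1)) D _
    split_ifs
    · exact ((ib_24 hm hD hX ha ht).sub (ib_pow hm hDl ht (by omega))).mono e2
    · exact (IB.neg (ib_pow hm hDl ht le_rfl)).mono (by omega)

theorem pin_toInp {t : ℕ} (hDl : D ≤ 4 ^ l) (ht : t ≤ degT m) : ∃ X' : Idx (2 * m) n → ℤ,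
    (∀ k, |X' k| ≤ ((HH m l : ℕ) : ℤ)) ∧ pin τ a t = TSMALL.toInp fun k => (X' k : ℝ) / D := by
  have hD' : (D : ℝ) ≠ 0 := by positivity
  choose X' h1 h2 using ib_pin τ hm hD hX ha hDl ht
  refine ⟨X', h2, ?_⟩
  have h3 : ∀ k, (X' k : ℝ) / D = val (pin τ a t) k := by
    intro k
    rw [← h1 k]
    field_simp
  simp only [h3]
  rfl

theorem sm_minor {t : ℕ} (hDl : D ≤ 4 ^ l) (hml : m ≤ l) (ht : t ≤ degT m) :
    ∀ I ∈ minorProg (2 * m) n (CH.enc (2 * m) n q) 0,
      Sm (KB l) (vreg (2 * m) n (CH.enc (2 * m) n q) 0 (pin τ a t) I.dst) := by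
  intro I hI
  obtain ⟨X', h1, h2⟩ := pin_toInp τ hm hD hX ha hDl ht
  have hDH : D ≤ HH m l := by
    unfold HH
    calc D ≤ 4 ^ l := hDl
      _ = 1 * (1 * 4 ^ l) := by ring
      _ ≤ 2 * m * (TT m * 4 ^ l) := Nat.mul_le_mul (by omega)
        (Nat.mul_le_mul_right _ (TT_pos hm))
  obtain ⟨E, h3, h4, h5⟩ := TSMALL.small_all (CH.enc (2 * m) n q) 0 (by omega : 1 ≤ 2 * m) I hI
    D (HH m l) X' hD hDH h1
  have h6 : big (2 * m) (HH m l) ≤ 2 ^ KB l := (big_le hml).trans (Nat.pow_le_pow_right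
    (by norm_num) (by unfold KB; omega))
  have h5 : IB (vreg (2 * m) n (CH.enc (2 * m) n q) 0 (TSMALL.toInp fun k => (X' k : ℝ) / D)
    I.dst) E (big (2 * m) (HH m l)) := h5
  rw [← h2] at h5
  exact ⟨E, big (2 * m) (HH m l), h3, h4.trans h6, h6, h5⟩

theorem ib_pmin {t : ℕ} (hDl : D ≤ 4 ^ l) (ht : t ≤ degT m) :
    IB (pmin τ q a t) ((2 * m - 1 + 1).factorial * D ^ (2 * m - 1 + 1))
      (big (2 * m) (HH m l)) := by
  obtain ⟨X', h1, h2⟩ := pin_toInp τ hm hD hX ha hDl ht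
  have hDH : D ≤ HH m l := by
    unfold HH
    calc D ≤ 4 ^ l := hDl
      _ = 1 * (1 * 4 ^ l) := by ring
      _ ≤ 2 * m * (TT m * 4 ^ l) := Nat.mul_le_mul (by omega)
        (Nat.mul_le_mul_right _ (TT_pos hm))
  have hN := ib_Nf (CH.betaQ (2 * m) n q) hD hDH h1 (by omega) (2 * m - 1) (by omega)
  have h3 := (IB.zero ((2 * m - 1 + 1).factorial * D ^ (2 * m - 1 + 1)) 0).sub
    (ib_Qf (CH.betaQ (2 * m) n q) hD hDH h1 (2 * m - 1) hN)
  rw [zero_add, ← Df_eq (CH.betaQ (2 * m) n q) (by omega)] at h3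
  have h4 := h3.mono (big_B hD hDH (by omega : 1 ≤ 2 * m) (2 * m - 1) (by omega))
  unfold pmin
  rw [h2]
  exact h4

theorem ib_dif (hDl : D ≤ 4 ^ l) : ∀ e j : ℕ, e + j ≤ degT m →
    IB (dif (pmin τ q a) e j) ((2 * m - 1 + 1).factorial * D ^ (2 * m - 1 + 1))
      (2 ^ e * big (2 * m) (HH m l)) := by
  intro e
  induction e with
  | zero =>
    intro j hj
    rw [pow_zero, one_mul]
    exact ib_pmin τ q hm hD hX ha hDl (by omega)
  | succ e ih =>
    intro j hj
    have h1 := (ih (j + 1) (by omega)).sub (ih j (by omega))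
    have e1 : 2 ^ e * big (2 * m) (HH m l) + 2 ^ e * big (2 * m) (HH m l) =
        2 ^ (e + 1) * big (2 * m) (HH m l) := by ring
    rw [e1] at h1
    exact h1

theorem sm_dif (hDl : D ≤ 4 ^ l) (hml : m ≤ l) (e j : ℕ) (hej : e + j ≤ degT m) :
    Sm (KB l) (dif (pmin τ q a) e j) := by
  have hDH : D ≤ HH m l := by
    unfold HH
    calc D ≤ 4 ^ l := hDl
      _ = 1 * (1 * 4 ^ l) := by ring
      _ ≤ 2 * m * (TT m * 4 ^ l) := Nat.mul_le_mul (by omega)
        (Nat.mul_le_mul_right _ (TT_pos hm))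
  have h6 : big (2 * m) (HH m l) ≤ 2 ^ KB l := (big_le hml).trans (Nat.pow_le_pow_right
    (by norm_num) (by unfold KB; omega))
  obtain ⟨h1, h2⟩ := big_E hD hDH (by omega : 1 ≤ 2 * m) (2 * m - 1 + 1) (2 * m - 1 + 1)
    (by omega) (by omega)
  refine ⟨_, _, h1, h2.trans h6, ?_, ib_dif τ q hm hD hX ha hDl e j hej⟩
  unfold KB
  rw [pow_add, mul_comm]
  refine Nat.mul_le_mul (big_le hml) (Nat.pow_le_pow_right (by norm_num) ?_)
  have := degT_mono hml
  omega

theorem sm_per (hDl : D ≤ 4 ^ l) (hml : m ≤ l) (k : ℕ) :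
    ∀ I ∈ perProg m n τ q k, Sm (KB l) (pval τ q k a I.dst) := by
  have hT0 := TT_pos hm
  have hH : 1 ≤ HH m l := by
    unfold HH
    have : 0 < 2 * m * (TT m * 4 ^ l) := by positivity
    exact this
  have e0 : 2 ^ hB l ≤ 2 ^ KB l := by
    refine Nat.pow_le_pow_right (by norm_num) ?_
    unfold KB
    nlinarith [Nat.zero_le (hB l * l), Nat.zero_le l, Nat.zero_le (degT l)]
  have e1 : HH m l ≤ 2 ^ KB l := (HH_le hml).trans e0
  have e2 : TT m * 4 ^ l ≤ HH m l := by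
    unfold HH
    exact Nat.le_mul_of_pos_left _ (by omega)
  have e3 : m * (TT m * 4 ^ l) ≤ HH m l := by
    unfold HH
    exact Nat.mul_le_mul_right _ (by omega)
  have e4 : TT m ≤ HH m l := le_trans (Nat.le_mul_of_pos_right _ (by positivity)) e2
  have e5 : 4 ^ l ≤ HH m l := le_trans (Nat.le_mul_of_pos_left _ hT0) e2
  have hDK : D ≤ 2 ^ KB l := hDl.trans (e5.trans e1)
  have h1K : 1 ≤ 2 ^ KB l := Nat.one_le_two_pow
  have smD : ∀ {v : ℝ}, IB v D (HH m l) → Sm (KB l) v := fun h => ⟨D, HH m l, hD, hDK, e1, h⟩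
  have sm1 : ∀ {v : ℕ}, v ≤ HH m l → Sm (KB l) (v : ℝ) := fun h =>
    ⟨1, HH m l, le_rfl, h1K, e1, IB.nat h⟩
  intro I hI
  rw [mem_per] at hI
  rcases hI with hI | hI | hI | hI | hI | rfl
  · obtain ⟨t, ht, rfl | rfl | ⟨e, he, rfl⟩⟩ := mem_val.1 hI
    · dsimp only
      rw [p20]
      refine sm1 ?_
      have := pow_le_TT (t := t) (e := 1) hm (by omega) (by omega)
      rw [pow_one] at this
      omega
    · dsimp only
      rw [p21]
      have := sm1 (v := t ^ 0) (by rw [pow_zero]; exact hH)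
      push_cast at this
      exact this
    · dsimp only
      rw [p21]
      have := sm1 (v := t ^ (e + 1)) ((pow_le_TT hm (by omega) (by omega)).trans e4)
      push_cast at this
      exact this
  · obtain ⟨t, ht, i, _, c, _, rfl | ⟨j, hj, rfl | rfl⟩⟩ := mem_sum.1 hI
    · dsimp only
      rw [p23]
      exact smD ((ib_psum τ hm hD hX ha (by omega) (by omega)).mono e3)
    · dsimp only
      rw [p22]
      exact smD ((ib_trm τ hm hD hX ha (by omega)).mono e2)
    · rw [sumI_dst, p23]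
      exact smD ((ib_psum τ hm hD hX ha (by omega) (by omega)).mono e3)
  · obtain ⟨t, ht, rfl | rfl | ⟨i, hi, rfl | rfl | rfl | ⟨c, hc, rfl | rfl⟩⟩⟩ := mem_inst.1 hI
    · dsimp only
      rw [p25, TEQ.v2]
      have := sm1 (v := 1) hH
      push_cast at this
      exact this
    · dsimp only
      rw [p25, TEQ.v3]
      exact smD (IB.zero _ _)
    · dsimp only
      rw [p24]
      exact smD ((ib_24 hm hD hX ha (by omega)).mono e2)
    · dsimp only
      rw [p25, TEQ.v1 _ _ _ _ (by omega : 2 * i < 2 * m)]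
      exact smD (ib_pin τ hm hD hX ha hDl (by omega) (Sum.inr ⟨2 * i, by omega⟩))
    · dsimp only
      rw [p25, TEQ.v1 _ _ _ _ (by omega : 2 * i + 1 < 2 * m)]
      exact smD (ib_pin τ hm hD hX ha hDl (by omega) (Sum.inr ⟨2 * i + 1, by omega⟩))
    · dsimp only
      rw [p25, TEQ.v0 _ _ _ _ _ (by omega : 2 * i < 2 * m) hc]
      exact smD (ib_pin τ hm hD hX ha hDl (by omega) (Sum.inl (⟨2 * i, by omega⟩, ⟨c, hc⟩)))
    · dsimp only
      rw [p25, TEQ.v0 _ _ _ _ _ (by omega : 2 * i + 1 < 2 * m) hc]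
      exact smD (ib_pin τ hm hD hX ha hDl (by omega) (Sum.inl (⟨2 * i + 1, by omega⟩, ⟨c, hc⟩)))
  · obtain ⟨t, ht, J, hJ, rfl⟩ := mem_mins.1 hI
    exact sm_minor τ q hm hD hX ha hDl hml (by omega) J hJ
  · obtain ⟨t, ht, rfl⟩ | ⟨e, he, j, hj, rfl⟩ := mem_dif.1 hI
    · dsimp only
      rw [p26]
      exact sm_dif τ q hm hD hX ha hDl hml 0 t (by omega)
    · dsimp only
      rw [p26]
      exact sm_dif τ q hm hD hX ha hDl hml (e + 1) j (by omega)
  · dsimp only
    rw [p27]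
    exact sm_dif τ q hm hD hX ha hDl hml _ 0 (by omega)

end Vals

/-! ### The questions -/

/-- The questions: whether about the perturbed instances; signs; minor; number of the
difference. -/
abbrev Qn : Type := Bool × (List Bool × (List (ℕ × ℕ) × ℕ))

/-- The program of a question. -/
def qprog (m n : ℕ) (q : Qn) : List Instr :=
  if q.1 = true then perProg m n q.2.1 q.2.2.1 q.2.2.2
  else minorProg m n (CH.enc m n q.2.2.1) 0 ++ [⟨Op.add, [27], [11], [3]⟩]

/-- The kind of questions. -/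
noncomputable def qk : QK Qn where
  prog := qprog
  out := [27]
  val := fun {m _} a q => if q.1 = true then dif (pmin q.2.1 q.2.2.1 a) (degT m - q.2.2.2) 0
    else CH.mv a.1 a.2 q.2.2.1

theorem exec_snoc : ∀ (P : List Instr) (ρ ρ' : Reg → ℝ) (nums : List ℝ),
    exec P ρ = some (ρ', nums) → ∀ I : Instr, I.op ≠ Op.div →
    exec (P ++ [I]) ρ = some (Function.update ρ' I.dst (I.op.eval (ρ' I.fst) (ρ' I.snd)),
      nums ++ [I.op.eval (ρ' I.fst) (ρ' I.snd)]) := by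
  intro P
  induction P with
  | nil =>
    intro ρ ρ' nums h I hI
    rw [exec, Option.some.injEq, Prod.mk.injEq] at h
    obtain ⟨rfl, rfl⟩ := h
    rw [List.nil_append, exec, if_neg (fun h => hI h.1), exec]
    rfl
  | cons J P ih =>
    intro ρ ρ' nums h I hI
    rw [exec] at h
    rw [List.cons_append, exec]
    split_ifs at h ⊢
    cases h1 : exec P (Function.update ρ J.dst (J.op.eval (ρ J.fst) (ρ J.snd))) with
    | none => rw [h1] at h; simp at h
    | some r =>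
      rw [h1, Option.map_some, Option.some.injEq, Prod.mk.injEq] at h
      obtain ⟨h2, h3⟩ := h
      rw [ih _ r.1 r.2 h1 I hI, Option.map_some, ← h2, ← h3]
      rfl

/-- The bound for the lengths. -/
noncomputable def plP : Polynomial ℕ :=
  let d : Polynomial ℕ := 2 * Polynomial.X * (2 * Polynomial.X * Polynomial.X + 1)
  (d + 1) * (2 * Polynomial.X * Polynomial.X + 3) +
    (d + 1) * (Polynomial.X * (Polynomial.X * (2 * Polynomial.X + 1))) +
    (d + 1) * (2 + Polynomial.X * (3 + 2 * Polynomial.X)) +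
    (d + 1) * (12 * (2 * Polynomial.X) ^ 4) +
    ((d + 1) + d * d) + 1 + (12 * Polynomial.X ^ 4 + 1)

theorem plP_eval (x : ℕ) : plP.eval x = lenP x x + (12 * x ^ 4 + 1) := by
  unfold plP lenP degT
  simp [Polynomial.eval_add, Polynomial.eval_mul]

/-- The bound for the numbers. -/
noncomputable def pbP : Polynomial ℕ :=
  let d : Polynomial ℕ := 2 * Polynomial.X * (2 * Polynomial.X * Polynomial.X + 1)
  2 * ((1 + 3 * (2 * Polynomial.X) + (1 + Polynomial.X +
    d * (2 * Polynomial.X * Polynomial.X + 1) + 2 * Polynomial.X)) * (2 * Polynomial.X + 1) + d) +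
    3 + 30 * Polynomial.X ^ 2

theorem pbP_eval (x : ℕ) : pbP.eval x = 2 * KB x + 3 + 30 * x ^ 2 := by
  unfold pbP KB hB degT
  simp [Polynomial.eval_add, Polynomial.eval_mul]

theorem lenP_mono {m n x : ℕ} (hm : m ≤ x) (hn : n ≤ x) : lenP m n ≤ lenP x x := by
  have h := degT_mono hm
  unfold lenP
  gcongr

/-- The programs are correct. -/
theorem spec : qk.Spec plP pbP := by
  intro m n q a ρ hm hρ
  change ∃ ρ' nums, exec (qprog m n q) ρ = some (ρ', nums) ∧
      (∀ r ∈ baseReg, ρ' r = start a.1 a.2 r) ∧ ρ' [27] = (if q.1 = true then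
        dif (pmin q.2.1 q.2.2.1 a) (degT m - q.2.2.2) 0 else CH.mv a.1 a.2 q.2.2.1) ∧
      nums.length ≤ plP.eval (m + n) ∧ SmallNums pbP a nums
  unfold qprog
  cases hq : q.1
  · rw [if_neg (by simp), if_neg (by simp)]
    obtain ⟨ρ', hex, hb, h11⟩ := h_MINOR m n (CH.enc m n q.2.2.1) 0 a ρ hm hρ
    rw [CH.beta_enc] at h11
    have h1 := exec_snoc _ _ _ _ hex ⟨Op.add, [27], [11], [3]⟩ (by simp)
    refine ⟨_, _, h1, ?_, ?_, ?_, ?_⟩
    · intro r hr
      rw [Function.update_of_ne, hb r hr]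
      rintro rfl
      simp [baseReg] at hr
    · rw [Function.update_self]
      simp only [Op.eval]
      rw [hb [3] (by simp [baseReg]), h11]
      change dd (wmat a.1 a.2) (CH.betaQ m n q.2.2.1) + 0 = _
      rw [add_zero]
      rfl
    · rw [List.length_append, List.length_map, List.length_singleton, plP_eval]
      have h7 := t_LEN m n (CH.enc m n q.2.2.1) 0 hm
      have h8 : m ^ 4 ≤ (m + n) ^ 4 := Nat.pow_le_pow_left (by omega) 4
      omega
    · intro A' b' hA hb' v hv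
      have hAb : ((fun i j => ((A' i j : ℚ) : ℝ), fun i => ((b' i : ℚ) : ℝ)) : Inp m n) = a := by
        refine Prod.ext ?_ ?_
        · funext i j
          exact hA i j
        · funext i
          exact hb' i
      have key : ∀ I ∈ minorProg m n (CH.enc m n q.2.2.1) 0, ∃ r : ℚ,
          (r : ℝ) = vreg m n (CH.enc m n q.2.2.1) 0 a I.dst ∧
          bitLength r ≤ pbP.eval (inputLength A' b') := by
        intro I hI
        obtain ⟨r, hr1, hr2⟩ := t_SMALL m n (CH.enc m n q.2.2.1) 0 A' b' hm I hI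
        rw [hAb] at hr1
        refine ⟨r, hr1, ?_⟩
        rw [pbP_eval]
        omega
      rw [List.mem_append, List.mem_map, List.mem_singleton] at hv
      rcases hv with ⟨I, hI, rfl⟩ | rfl
      · exact key I hI
      · simp only [Op.eval]
        rw [hb [3] (by simp [baseReg]), h11]
        have h2 := key ⟨Op.sub, [11], [3], [10, m - 1]⟩ (by unfold minorProg; simp)
        dsimp only at h2
        rw [TEQ.v11, CH.beta_enc] at h2
        change ∃ r : ℚ, (r : ℝ) = dd (wmat a.1 a.2) (CH.betaQ m n q.2.2.1) + 0 ∧ _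
        rw [add_zero]
        exact h2
  · rw [if_pos rfl, if_pos rfl]
    obtain ⟨ρ', h1, h2⟩ := exec_av (pval q.2.1 q.2.2.1 q.2.2.2 a)
      (perProg m n q.2.1 q.2.2.1 q.2.2.2) baseReg ρ (av_per _ _ _ hm)
      (fun r hr => by rw [hρ r hr, pval_base _ _ _ _ r hr])
      (good_per _ _ _ _ hm)
    refine ⟨_, _, h1, ?_, ?_, ?_, ?_⟩
    · intro r hr
      rw [h2 r (Or.inl hr), pval_base _ _ _ _ r hr]
    · have h3 : ([27] : Reg) ∈ baseReg ∪ dsts (perProg m n q.2.1 q.2.2.1 q.2.2.2) :=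
        Or.inr (mem_dsts.2 ⟨_, mem_per.2 (Or.inr (Or.inr (Or.inr (Or.inr (Or.inr rfl))))), rfl⟩)
      rw [h2 _ h3]
      rfl
    · rw [List.length_map, plP_eval]
      have h3 := len_per (n := n) q.2.1 q.2.2.1 q.2.2.2 hm
      have h4 := lenP_mono (m := m) (n := n) (x := m + n) (by omega) (by omega)
      omega
    · intro A' b' hA hb' v hv
      rw [List.mem_map] at hv
      obtain ⟨I, hI, rfl⟩ := hv
      obtain ⟨hml, D, X, hD, hDl, hX, hval⟩ := common A' b'
      have ha : a = TSMALL.toInp fun k => (X k : ℝ) / D := by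
        simp only [hval]
        refine Prod.ext ?_ ?_
        · funext i j
          exact (hA i j).symm
        · funext i
          exact (hb' i).symm
      obtain ⟨r, hr1, hr2⟩ := (sm_per q.2.1 q.2.2.1 hm hD hX ha hDl hml q.2.2.2 I hI).bits
      refine ⟨r, hr1, ?_⟩
      rw [pbP_eval]
      omega

end Pool.Agent.H682.CP
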