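import Pool.Agent.H682.CP.MachinePoly
import Pool.Agent.H682.CP.Prog3

set_option autoImplicit false

/-!
# The programs are computed in polynomial time
-/

namespace Pool.Agent.H682.CP

open Pool.Agent.NPC Pool.Agent.NPC.ER Pool.Agent.NPC.H612 Pool.Agent.H558R2
open Pool.Agent.H622R3.SM

attribute [local fun_prop] TPM.pInstr Poly.range_length

variable {α : Type} [TEnc α] {U V W X : α → List Unit} {q : α → List (ℕ × ℕ)} {τ : α → List Bool}
  {k : α → ℕ}

theorem range_succ' {l : α → List Unit} (hl : Poly l) :
    Poly (fun a => List.range ((l a).length + 1)) :=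
  Poly.range_length (l := fun a => () :: l a) (by fun_prop)

attribute [local fun_prop] range_succ'

theorem pVal (hW : Poly W) (hX : Poly X) :
    Poly (fun a => valProg (W a).length (X a).length) := by
  unfold valProg
  fun_prop

theorem pEqS {i j : α → ℕ} (hτ : Poly τ) (hi : Poly i) (hj : Poly j) :
    Poly (fun a => eqS (τ a) (i a) (j a)) := by
  unfold eqS
  fun_prop

theorem pEx {i j : α → ℕ} (hU : Poly U) (hi : Poly i) (hj : Poly j) :
    Poly (fun a => ex (U a).length (i a) (j a)) := by
  unfold ex
  fun_prop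

attribute [local fun_prop] pEqS pEx

theorem pSum (hU : Poly U) (hV : Poly V) (hW : Poly W) (hτ : Poly τ) :
    Poly (fun a => sumProg (U a).length (V a).length (W a).length (τ a)) := by
  unfold sumProg
  fun_prop

theorem pInst (hU : Poly U) (hV : Poly V) (hW : Poly W) :
    Poly (fun a => instProg (U a).length (V a).length (W a).length) := by
  unfold instProg
  fun_prop

theorem pRn {t : α → ℕ} {I : α → Instr} (ht : Poly t) (hI : Poly I) :
    Poly (fun a => rn (t a) (I a)) := by
  have h1 : Poly (fun a => (I a).code) := hI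
  obtain ⟨c, hc⟩ : ∃ c : α → ℕ × Reg × Reg × Reg, c = fun a => (I a).code := ⟨_, rfl⟩
  rw [← hc] at h1
  have h2 : Poly (fun a => (((c a).1, 25 :: t a :: (c a).2.1, 25 :: t a :: (c a).2.2.1,
      25 :: t a :: (c a).2.2.2) : ℕ × Reg × Reg × Reg)) := by
    fun_prop
  have h3 : (fun a => (((c a).1, 25 :: t a :: (c a).2.1, 25 :: t a :: (c a).2.2.1,
      25 :: t a :: (c a).2.2.2) : ℕ × Reg × Reg × Reg)) = fun a => (rn (t a) (I a)).code := by
    rw [hc]
    rfl
  rw [h3] at h2
  exact h2

theorem pMinor2 (hU : Poly U) (hV : Poly V) (hq : Poly q) :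
    Poly (fun a => minorProg (2 * (U a).length) (V a).length
      (CH.enc (2 * (U a).length) (V a).length (q a)) 0) := by
  have h1 := CH.pEnc (U := fun a => U a ++ U a) (V := V) (q := q) (by fun_prop) hV hq
  have h2 := TPM.pMinorProg (U := fun a => U a ++ U a) (V := V) (q := fun _ => 0)
    (by fun_prop) hV h1 (NPC.Poly.const 0)
  refine h2.congr fun a => ?_
  rw [List.length_append, ← two_mul]

theorem pMins (hU : Poly U) (hV : Poly V) (hW : Poly W) (hq : Poly q) :
    Poly (fun a => minsProg (U a).length (V a).length (W a).length (q a)) := by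
  unfold minsProg
  refine Poly.flatMap (range_succ' hW) (NPC.Poly.map ?_ ?_)
  · exact pMinor2 (U := fun p : α × ℕ => U p.1) (V := fun p => V p.1) (q := fun p => q p.1)
      (by fun_prop) (by fun_prop) (by fun_prop)
  · exact pRn (t := fun p : (α × ℕ) × Instr => p.1.2) (I := fun p => p.2) (by fun_prop)
      (by fun_prop)

theorem pDif (hW : Poly W) : Poly (fun a => difProg (W a).length) := by
  unfold difProg
  refine Poly.append (by fun_prop) (Poly.flatMap (by fun_prop) (NPC.Poly.map ?_ (by fun_prop)))
  exact (UPoly.of_le (m := fun p : α × ℕ => (W p.1).length - p.2) (by fun_prop)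
    (UPoly.length (l := fun p : α × ℕ => W p.1) (by fun_prop)) (fun a => Nat.sub_le _ _)).range

/-- The unary list of length `degT`. -/
theorem uDeg (hU : Poly U) : UPoly (fun a => degT (U a).length) := by
  unfold degT
  have h := UPoly.length hU
  exact UPoly.mul (UPoly.mul (UPoly.const 2) h) (UPoly.add (UPoly.mul (UPoly.mul (UPoly.const 2)
    h) h) (UPoly.const 1))

theorem pDeg (hU : Poly U) : Poly (fun a => degT (U a).length) := (uDeg hU).toPoly

theorem pPer (hU : Poly U) (hV : Poly V) (hτ : Poly τ) (hq : Poly q) (hk : Poly k) :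
    Poly (fun a => perProg (U a).length (V a).length (τ a) (q a) (k a)) := by
  obtain ⟨W, hW, hWe⟩ : ∃ W : α → List Unit, Poly W ∧ ∀ a, (W a).length = degT (U a).length :=
    ⟨fun a => List.replicate (degT (U a).length) (), uDeg hU, fun a => List.length_replicate⟩
  obtain ⟨X, hX, hXe⟩ : ∃ X : α → List Unit, Poly X ∧
      ∀ a, (X a).length = 2 * (U a).length * (U a).length :=
    ⟨fun a => List.replicate (2 * (U a).length * (U a).length) (),
      UPoly.mul (UPoly.mul (UPoly.const 2) (UPoly.length hU)) (UPoly.length hU),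
      fun a => List.length_replicate⟩
  unfold perProg
  have h1 := Poly.append (pVal hW hX) (Poly.append (pSum hU hV hW hτ) (Poly.append
    (pInst hU hV hW) (Poly.append (pMins hU hV hW hq) (Poly.append (pDif hW)
    (l' := fun a => [(⟨Op.add, [27], [26, (W a).length - k a, 0], [3]⟩ : Instr)])
      (by fun_prop)))))
  refine h1.congr fun a => ?_
  rw [hWe, hXe]

theorem pProg {Q : α → Qn} (hU : Poly U) (hV : Poly V) (hQ : Poly Q) :
    Poly (fun a => qprog (U a).length (V a).length (Q a)) := by
  unfold qprog
  refine Poly.ite (Poly.decide_bool (by fun_prop)) ?_ ?_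
  · exact pPer hU hV (by fun_prop) (by fun_prop) (by fun_prop)
  · have h1 := CH.pEnc (U := U) (V := V) (q := fun a => (Q a).2.2.1) hU hV (by fun_prop)
    have h2 := TPM.pMinorProg (U := U) (V := V) (q := fun _ => 0) hU hV h1 (NPC.Poly.const 0)
    exact Poly.append h2 (NPC.Poly.const _)

end Pool.Agent.H682.CP
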