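import Pool.Agent.H682.CP.Prog3
import Pool.Agent.H682.CH.Correct

set_option autoImplicit false

/-!
# Signs at infinity
-/

namespace Pool.Agent.H682.CP

open Pool.Agent.H558R2 Pool.Agent.H622R3.SM Filter

/-- The first outcome which is not zero. -/
def firstS (L : List Outcome) : Outcome := ((L.filter fun o => o.isSome).head?).getD none

theorem firstS_append {A B : List Outcome} {x : Outcome} (hA : ∀ o ∈ A, o = none)
    (hx : x ≠ none) : firstS (A ++ x :: B) = x := by
  unfold firstS
  rw [List.filter_append, List.filter_eq_nil_iff.2 (fun o ho => by rw [hA o ho]; simp),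
    List.nil_append, List.filter_cons_of_pos (by
      cases x with
      | none => exact absurd rfl hx
      | some b => rfl)]
  rfl

theorem firstS_none {A : List Outcome} (hA : ∀ o ∈ A, o = none) : firstS A = none := by
  unfold firstS
  rw [List.filter_eq_nil_iff.2 (fun o ho => by rw [hA o ho]; simp)]
  rfl

theorem firstS_range (D : ℕ) (u : ℕ → ℝ) (d : ℕ) (hd : d ≤ D)
    (h0 : ∀ k, d < k → k ≤ D → u k = 0) (hne : u d ≠ 0) :
    firstS ((List.range (D + 1)).map fun k => signOut (u (D - k))) = signOut (u d) := by
  have e1 : D + 1 = (D - d) + (d + 1) := by omega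
  rw [e1, List.range_add, List.map_append, List.range_succ_eq_map, List.map_cons, List.map_cons]
  have e2 : D - (D - d + 0) = d := by omega
  rw [e2]
  refine firstS_append ?_ ?_
  · intro o ho
    rw [List.mem_map] at ho
    obtain ⟨k, hk, rfl⟩ := ho
    rw [List.mem_range] at hk
    rw [CH.signOut_none]
    exact h0 _ (by omega) (by omega)
  · rw [Ne, CH.signOut_none]
    exact hne

theorem dif_eq (P : Polynomial ℝ) : ∀ k j : ℕ,
    dif (fun t => P.eval (t : ℝ)) k j = (fwdDiff (1 : ℝ))^[k] P.eval (j : ℝ) := by
  intro k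
  induction k with
  | zero => intro j; rfl
  | succ k ih =>
    intro j
    rw [dif, ih, ih, Function.iterate_succ_apply', fwdDiff]
    push_cast
    rfl

theorem eventually_pos {P : Polynomial ℝ} (h : 0 < P.leadingCoeff) :
    ∀ᶠ t : ℕ in atTop, 0 < P.eval (t : ℝ) := by
  by_cases hd : P.natDegree = 0
  · rw [Polynomial.eq_C_of_natDegree_eq_zero hd] at h ⊢
    refine Eventually.of_forall fun t => ?_
    rw [Polynomial.leadingCoeff_C] at h
    rw [Polynomial.eval_C]
    exact h
  · have h1 := P.tendsto_atTop_of_leadingCoeff_nonneg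
      (Polynomial.natDegree_pos_iff_degree_pos.1 (Nat.pos_of_ne_zero hd)) h.le
    exact (h1.comp tendsto_natCast_atTop_atTop).eventually (eventually_gt_atTop 0)

theorem eventually_sign {P : Polynomial ℝ} {D : ℕ} (hD : P.natDegree ≤ D) :
    ∀ᶠ t : ℕ in atTop, signOut (P.eval (t : ℝ)) = firstS ((List.range (D + 1)).map fun k =>
      signOut (dif (fun t => P.eval (t : ℝ)) (D - k) 0)) := by
  rcases eq_or_ne P 0 with rfl | hP
  · refine Eventually.of_forall fun t => ?_
    rw [firstS_none]
    · rw [Polynomial.eval_zero, CH.signOut_none]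
    · intro o ho
      rw [List.mem_map] at ho
      obtain ⟨k, hk, rfl⟩ := ho
      rw [CH.signOut_none]
      have : ∀ e j : ℕ, dif (fun t => (0 : Polynomial ℝ).eval (t : ℝ)) e j = 0 := by
        intro e
        induction e with
        | zero => intro j; exact Polynomial.eval_zero
        | succ e ih => intro j; rw [dif, ih, ih, sub_zero]
      exact this _ _
  · have hlc : P.leadingCoeff ≠ 0 := Polynomial.leadingCoeff_ne_zero.2 hP
    have hd : dif (fun t => P.eval (t : ℝ)) P.natDegree 0 =
        P.leadingCoeff * (P.natDegree.factorial : ℝ) := by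
      rw [dif_eq, P.fwdDiff_iter_degree_eq_factorial]
      simp
    have hf : (0 : ℝ) < (P.natDegree.factorial : ℝ) := by
      exact_mod_cast P.natDegree.factorial_pos
    rw [firstS_range D (fun k => dif (fun t => P.eval (t : ℝ)) k 0) P.natDegree hD ?_ ?_]
    · rw [hd]
      rcases lt_or_gt_of_ne hlc with h | h
      · have h1 : 0 < (-P).leadingCoeff := by
          rw [Polynomial.leadingCoeff_neg]
          linarith
        filter_upwards [eventually_pos h1] with t ht
        rw [Polynomial.eval_neg] at ht
        rw [CH.signOut_false.2 (by linarith : P.eval (t : ℝ) < 0),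
          CH.signOut_false.2 (mul_neg_of_neg_of_pos h hf)]
      · filter_upwards [eventually_pos h] with t ht
        rw [CH.signOut_true.2 ht, CH.signOut_true.2 (mul_pos h hf)]
    · intro k hk _
      rw [dif_eq, Polynomial.fwdDiff_iter_eq_zero_of_degree_lt hk]
      rfl
    · rw [hd]
      exact mul_ne_zero hlc hf.ne'

/-- A matrix of polynomials in `t`. -/
theorem eventually_det {k D E : ℕ} (M : ℕ → Matrix (Fin k) (Fin k) ℝ)
    (P : Matrix (Fin k) (Fin k) (Polynomial ℝ)) (hP : ∀ i j, (P i j).natDegree ≤ E)
    (hM : ∀ t i j, M t i j = (P i j).eval (t : ℝ)) (hD : k * E ≤ D) :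
    ∀ᶠ t : ℕ in atTop, signOut (M t).det = firstS ((List.range (D + 1)).map fun e =>
      signOut (dif (fun t => (M t).det) (D - e) 0)) := by
  have h1 : ∀ t : ℕ, (M t).det = P.det.eval (t : ℝ) := by
    intro t
    have h2 : M t = (Polynomial.evalRingHom (t : ℝ)).mapMatrix P := by
      ext i j
      rw [RingHom.mapMatrix_apply, Matrix.map_apply, Polynomial.coe_evalRingHom]
      exact hM t i j
    rw [h2, ← RingHom.map_det, Polynomial.coe_evalRingHom]
  have h3 : P.det.natDegree ≤ D := by
    rw [Matrix.det_apply]
    refine (Polynomial.natDegree_sum_le _ _).trans ?_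
    rw [Finset.fold_max_le]
    refine ⟨Nat.zero_le _, fun s _ => ?_⟩
    simp only [Function.comp]
    refine (Polynomial.natDegree_smul_le _ _).trans ?_
    refine (Polynomial.natDegree_prod_le _ _).trans ?_
    refine (Finset.sum_le_sum fun i _ => hP (s i) i).trans ?_
    rw [Finset.sum_const, Finset.card_univ, Fintype.card_fin, smul_eq_mul]
    exact hD
  have h4 := eventually_sign h3
  have h5 : (fun t : ℕ => (M t).det) = fun t : ℕ => P.det.eval (t : ℝ) := funext h1
  rw [h5]
  filter_upwards [h4] with t ht
  rw [h1, ht]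

end Pool.Agent.H682.CP
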