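import Pool.Agent.H682.CH.Snake
import Pool.Agent.H682.CP.Sign
import Pool.Graph.R_pool_sql_team_22c7b01f.H4.TP1

set_option autoImplicit false

/-!
# Systems with weakly positive maximal minors
-/

namespace Pool.Agent.H682.CP

open Matrix Pool.Agent.H682.CH

/-- All maximal minors have weakly one sign, and some maximal minor does not vanish. -/
structure Weak (n m : ℕ) (V : ℕ → Fin n → ℝ) (σ : ℝ) : Prop where
  /-- weak signs -/
  nonneg : ∀ s : Fin n → ℕ, StrictMono s → (∀ k, s k < m) →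
    0 ≤ σ * (Matrix.of fun k j => V (s k) j).det
  /-- full rank -/
  pos : ∃ s : Fin n → ℕ, StrictMono s ∧ (∀ k, s k < m) ∧
    0 < σ * (Matrix.of fun k j => V (s k) j).det

variable {n m : ℕ} {V : ℕ → Fin n → ℝ} {σ : ℝ}

/-- The signs of a vector orthogonal to `n - 1` rows. -/
theorem Weak.sign (hV : Weak n m V σ) {K : Finset ℕ} {i j : ℕ} (hKm : ∀ k ∈ K, k < m)
    (hi : i < m) (hj : j < m) (hiK : i ∉ K) (hjK : j ∉ K) (hc : K.card + 1 = n)
    (hind : ∀ y : Fin n → ℝ, (∀ k ∈ insert j K, V k ⬝ᵥ y = 0) → y = 0) {x : Fin n → ℝ}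
    (hx : ∀ k ∈ K, V k ⬝ᵥ x = 0) :
    0 ≤ (-1 : ℝ) ^ (rk K i + rk K j) * ((V i ⬝ᵥ x) * (V j ⬝ᵥ x)) := by
  rcases eq_or_ne i j with rfl | hij
  · rw [← two_mul, pow_mul, neg_one_sq, one_pow, one_mul]
    exact mul_self_nonneg _
  have hiJ : i ∉ insert j K := by
    rw [Finset.mem_insert]
    rintro (h | h)
    · exact hij h
    · exact hiK h
  set J := insert i (insert j K) with hJ
  have hcard : J.card = n + 1 := by
    rw [hJ, Finset.card_insert_of_notMem hiJ, Finset.card_insert_of_notMem hjK, hc]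
  set s := J.orderEmbOfFin hcard with hs
  have hsm : StrictMono fun k => s k := s.strictMono
  have hJm : ∀ k ∈ J, k < m := by
    intro k hk
    rw [hJ, Finset.mem_insert, Finset.mem_insert] at hk
    rcases hk with rfl | rfl | hk
    · exact hi
    · exact hj
    · exact hKm k hk
  have hD : ∀ k : Fin (n + 1), 0 ≤ σ *
      (Matrix.of fun (l : Fin n) (c : Fin n) => V (s (k.succAbove l)) c).det := fun k =>
    hV.nonneg (fun l => s (k.succAbove l)) (hsm.comp (Fin.strictMono_succAbove k)) fun l =>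
      hJm _ (Finset.orderEmbOfFin_mem J hcard _)
  have hmem : ∀ k ∈ J, ∃ a : Fin (n + 1), s a = k := by
    intro k hk
    have h4 : k ∈ Set.range (J.orderEmbOfFin hcard) := by
      rw [Finset.range_orderEmbOfFin]
      exact hk
    exact h4
  obtain ⟨a, ha⟩ := hmem i (by rw [hJ]; exact Finset.mem_insert_self _ _)
  obtain ⟨c, hcj⟩ := hmem j (by
    rw [hJ]
    exact Finset.mem_insert_of_mem (Finset.mem_insert_self _ _))
  have hac : a ≠ c := fun h => hij (by rw [← ha, ← hcj, h])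
  have h1 := kernel_dot V (fun k => s k) x
  rw [Fintype.sum_eq_add a c hac] at h1
  · rw [ha, hcj] at h1
    set Da := (Matrix.of fun (l : Fin n) (c : Fin n) => V (s (a.succAbove l)) c).det with hDa
    set Dc := (Matrix.of fun (l : Fin n) (j : Fin n) => V (s (c.succAbove l)) j).det with hDc
    have ha0 := hD a
    have hc0 := hD c
    rw [← hDa] at ha0
    rw [← hDc] at hc0
    have hσ : σ ≠ 0 := by
      rintro rfl
      obtain ⟨s, _, _, h⟩ := hV.pos
      rw [zero_mul] at h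
      exact lt_irrefl _ h
    have hDa0 : Da ≠ 0 := by
      intro h0
      obtain ⟨y, hy0, hy⟩ := exists_mulVec_eq_zero_iff.2 h0
      apply hy0
      refine hind y fun k hk => ?_
      obtain ⟨l', hl'⟩ := hmem k (by
        rw [hJ]
        exact Finset.mem_insert_of_mem hk)
      have hla : l' ≠ a := by
        rintro rfl
        rw [ha] at hl'
        rw [hl'] at hiJ
        exact hiJ hk
      obtain ⟨l, rfl⟩ := Fin.exists_succAbove_eq hla
      have h2 := congrFun hy l
      rw [← hl']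
      exact h2
    have hpos : 0 < σ * Da := lt_of_le_of_ne ha0 (mul_ne_zero hσ hDa0).symm
    have r1 := rk_orderEmb J hcard a
    have r2 := rk_orderEmb J hcard c
    rw [← hs, ha] at r1
    rw [← hs, hcj] at r2
    have r3 : rk J i = rk K i + if i < j then 1 else 0 := by
      rw [hJ, rk_insert hiJ, rk_insert hjK, if_neg (lt_irrefl i), add_zero]
    have r4 : rk J j = rk K j + if j < i then 1 else 0 := by
      rw [hJ, rk_insert hiJ, rk_insert hjK, if_neg (lt_irrefl j), add_zero]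
    have hpar : (-1 : ℝ) ^ (rk K i + rk K j) = -((-1) ^ (a : ℕ) * (-1) ^ (c : ℕ)) := by
      have h5 : rk K i + rk K j + 1 + (a + c) = 2 * n := by
        have h6 : ((if i < j then 1 else 0) + (if j < i then 1 else 0) : ℕ) = 1 := by
          rcases lt_or_gt_of_ne hij with h | h
          · rw [if_pos h, if_neg (by omega)]
          · rw [if_neg (by omega), if_pos h]
        have h7 := a.2
        have h8 := c.2
        omega
      have h9 : (-1 : ℝ) ^ (rk K i + rk K j + 1 + (a + c)) = 1 := by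
        rw [h5, pow_mul, neg_one_sq, one_pow]
      rw [pow_add _ _ ((a : ℕ) + c), pow_succ, pow_add _ (a : ℕ)] at h9
      have h10 : ((-1 : ℝ) ^ (a : ℕ) * (-1) ^ (c : ℕ)) * ((-1) ^ (a : ℕ) * (-1) ^ (c : ℕ)) = 1 := by
        rw [← pow_add, ← pow_add, ← two_mul, pow_mul, neg_one_sq, one_pow]
      linear_combination (-((-1 : ℝ) ^ (a : ℕ) * (-1) ^ (c : ℕ))) * h9 +
        (-1 : ℝ) ^ (rk K i + rk K j) * (-1) * (-1) * h10 * (-1) * (-1) * (-1)
    rw [hpar]
    have haa : (-1 : ℝ) ^ (a : ℕ) * (-1) ^ (a : ℕ) = 1 := by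
      rw [← pow_add, ← two_mul, pow_mul, neg_one_sq, one_pow]
    have h3 : (σ * Da) * (-((-1) ^ (a : ℕ) * (-1) ^ (c : ℕ)) * ((V i ⬝ᵥ x) * (V j ⬝ᵥ x))) =
        (σ * Dc) * ((-1 : ℝ) ^ (c : ℕ) * (-1) ^ (c : ℕ)) * (V j ⬝ᵥ x) ^ 2 := by
      linear_combination (-(σ * (-1) ^ (c : ℕ) * (V j ⬝ᵥ x))) * h1
    have hcc : (-1 : ℝ) ^ (c : ℕ) * (-1) ^ (c : ℕ) = 1 := by
      rw [← pow_add, ← two_mul, pow_mul, neg_one_sq, one_pow]
    rw [hcc, mul_one] at h3
    have h4 : 0 ≤ (σ * Da) * (-((-1) ^ (a : ℕ) * (-1) ^ (c : ℕ)) *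
        ((V i ⬝ᵥ x) * (V j ⬝ᵥ x))) := by
      rw [h3]
      exact mul_nonneg hc0 (sq_nonneg _)
    exact nonneg_of_mul_nonneg_right h4 hpos
  · rintro k ⟨hka, hkc⟩
    have h2 : s k ∈ J := Finset.orderEmbOfFin_mem J hcard k
    rw [hJ, Finset.mem_insert, Finset.mem_insert] at h2
    rcases h2 with h2 | h2 | h2
    · exact absurd (s.injective (h2.trans ha.symm)) hka
    · exact absurd (s.injective (h2.trans hcj.symm)) hkc
    · rw [hx _ h2, mul_zero]

/-! ### The perturbation -/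

/-- The perturbed rows. -/
noncomputable def pV (m t : ℕ) (V : ℕ → Fin n → ℝ) (i : ℕ) : Fin n → ℝ := fun c =>
  ∑ j ∈ Finset.range m, (t : ℝ) ^ ex m i j * V j c

theorem ker_eq {m t i j : ℕ} (ht : 2 ≤ t) (hi : i < m) (hj : j < m) :
    (t : ℝ) ^ ex m i j = (t : ℝ) ^ (2 * m * m) *
      Real.exp (-(2 * Real.log t * ((i : ℝ) - j) ^ 2)) := by
  have ht0 : (0 : ℝ) < t := by exact_mod_cast (by omega : 0 < t)
  set e := 2 * ((i - j) * (i - j) + (j - i) * (j - i)) with he
  have h1 : e ≤ 2 * m * m := by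
    rw [he]
    rcases le_total i j with h | h
    · rw [Nat.sub_eq_zero_of_le h]
      have : (j - i) * (j - i) ≤ m * m := Nat.mul_le_mul (by omega) (by omega)
      nlinarith
    · rw [Nat.sub_eq_zero_of_le h]
      have : (i - j) * (i - j) ≤ m * m := Nat.mul_le_mul (by omega) (by omega)
      nlinarith
  have h2 : (e : ℝ) = 2 * ((i : ℝ) - j) ^ 2 := by
    rw [he]
    rcases le_total i j with h | h
    · rw [Nat.sub_eq_zero_of_le h]
      push_cast [Nat.cast_sub h]
      ring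
    · rw [Nat.sub_eq_zero_of_le h]
      push_cast [Nat.cast_sub h]
      ring
  have h3 : Real.exp (2 * Real.log t * ((i : ℝ) - j) ^ 2) = (t : ℝ) ^ e := by
    have h4 : 2 * Real.log t * ((i : ℝ) - j) ^ 2 = (e : ℝ) * Real.log t := by
      rw [h2]
      ring
    rw [h4, Real.exp_nat_mul, Real.exp_log ht0]
  rw [Real.exp_neg, h3]
  have h5 : ex m i j + e = 2 * m * m := by
    unfold ex
    omega
  rw [← h5, pow_add]
  field_simp

theorem ker_pos {m t : ℕ} (ht : 2 ≤ t) {s g : Fin n → ℕ} (hs : StrictMono s)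
    (hg : StrictMono g) (hsm : ∀ k, s k < m) (hgm : ∀ k, g k < m) :
    0 < (Matrix.of fun a b => (t : ℝ) ^ ex m (s a) (g b)).det := by
  have ht0 : (0 : ℝ) < t := by exact_mod_cast (by omega : 0 < t)
  have h1 : (Matrix.of fun a b => (t : ℝ) ^ ex m (s a) (g b)) =
      (t : ℝ) ^ (2 * m * m) • (Matrix.of fun a b : Fin n =>
        Real.exp (-(2 * Real.log t * (((s a : ℕ) : ℝ) - ((g b : ℕ) : ℝ)) ^ 2))) := by
    ext a b
    rw [Matrix.smul_apply, of_apply, of_apply, smul_eq_mul]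
    exact ker_eq ht (hsm a) (hgm b)
  rw [h1, det_smul]
  refine mul_pos (pow_pos (pow_pos ht0 _) _) ?_
  refine H4.TP1.gauss_tp (β := 2 * Real.log t) ?_ (fun a => ((s a : ℕ) : ℝ))
    (fun b => ((g b : ℕ) : ℝ)) (fun a b h => Nat.cast_lt.2 (hs h))
    (fun a b h => Nat.cast_lt.2 (hg h))
  have : 0 < Real.log t := Real.log_pos (by exact_mod_cast (by omega : 1 < t))
  linarith

theorem Weak.cheb (hV : Weak n m V σ) (hn : 0 < n) {t : ℕ} (ht : 2 ≤ t) :
    Cheb n m (pV m t V) σ := by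
  obtain ⟨g, hg1, hg2, hg3⟩ := hV.pos
  refine ⟨?_, fun s hs hsm => ?_⟩
  · have := Fintype.card_le_of_injective (fun k : Fin n => (⟨g k, hg2 k⟩ : Fin m)) (by
      intro a b hab
      exact hg1.injective (congrArg Fin.val hab))
    simpa using this
  · set A' : Matrix (Fin n) (Fin m) ℝ := Matrix.of fun k j => (t : ℝ) ^ ex m (s k) (j : ℕ)
      with hA'
    set B' : Matrix (Fin m) (Fin n) ℝ := Matrix.of fun j c => V (j : ℕ) c with hB'
    set d : Fin n → ℝ := Function.update (fun _ => 1) ⟨0, hn⟩ σ with hd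
    have hdp : ∏ i, d i = σ := by
      rw [hd, Finset.prod_update_of_mem (Finset.mem_univ _)]
      simp
    have hdet : ∀ M : Matrix (Fin n) (Fin n) ℝ, (M * diagonal d).det = σ * M.det := by
      intro M
      rw [det_mul, det_diagonal, hdp, mul_comm]
    have hsub : ∀ p : Fin n → Fin m, (B' * diagonal d).submatrix p id =
        (Matrix.of fun k j => V (p k : ℕ) j) * diagonal d := by
      intro p
      ext a b
      simp [mul_apply, hB', diagonal_apply]
    have hprod : (Matrix.of fun k j => pV m t V (s k) j) = A' * B' := by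
      ext k c
      rw [of_apply, mul_apply, pV, Finset.sum_range]
      rfl
    have hgg : StrictMono fun k : Fin n => (⟨g k, hg2 k⟩ : Fin m) := fun a b hab => hg1 hab
    have h1 := H4.TP1.cb_lower A' (B' * diagonal d) (fun p hp => by
        refine (ker_pos (m := m) (t := t) ht hs (g := fun k => (p k : ℕ)) (fun a b h => hp h) hsm
          (fun k => (p k).2)).le) (fun p hp => by
        rw [hsub, hdet]
        exact hV.nonneg (fun k => (p k : ℕ)) (fun a b h => hp h) (fun k => (p k).2))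
      (fun k => ⟨g k, hg2 k⟩)
    rw [hsub, hdet, ← Matrix.mul_assoc, hdet, ← hprod] at h1
    have h2 : 0 < (A'.submatrix id fun k : Fin n => (⟨g k, hg2 k⟩ : Fin m)).det :=
      ker_pos (m := m) (t := t) ht hs hg1 hsm hg2
    have h3 : (0 : ℝ) < n.factorial := by exact_mod_cast n.factorial_pos
    have h4 := mul_pos h2 hg3
    have h5 := h4.trans_le h1
    exact pos_of_mul_pos_right h5 h3.le

/-! ### Changing the labels -/

theorem Weak.trans (hV : Weak n m V σ) {V' : ℕ → Fin n → ℝ} (G : Matrix (Fin n) (Fin n) ℝ)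
    (hG : G.det ≠ 0) (h : ∀ i < m, V' i = V i ᵥ* G) : ∃ σ', Weak n m V' σ' := by
  have key : ∀ s : Fin n → ℕ, (∀ k, s k < m) → σ / G.det * (Matrix.of fun k j => V' (s k) j).det =
      σ * (Matrix.of fun k j => V (s k) j).det := by
    intro s hs
    have h1 : (Matrix.of fun k j => V' (s k) j) = (Matrix.of fun k j => V (s k) j) * G := by
      ext k j
      rw [of_apply, h _ (hs k)]
      rfl
    rw [h1, det_mul]
    field_simp
  refine ⟨σ / G.det, fun s h1 h2 => ?_, ?_⟩
  · rw [key s h2]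
    exact hV.nonneg s h1 h2
  · obtain ⟨s, h1, h2, h3⟩ := hV.pos
    exact ⟨s, h1, h2, by rw [key s h2]; exact h3⟩

theorem Weak.relabel (hV : Weak n m V σ) (L : Fin n → ℕ)
    (hB : (Matrix.of fun p j => V (L p) j).det ≠ 0) (D : ℕ → ℝ) (hD : ∀ p, D (L p) ≠ 0)
    (h : ∀ i < m, ∀ p : Fin n,
      V i ⬝ᵥ (fun k => (Matrix.of fun p j => V (L p) j)⁻¹ k p) ≠ 0 → D i = D (L p)) :
    ∃ σ', Weak n m (fun i => D i • V i) σ' := by
  set B : Matrix (Fin n) (Fin n) ℝ := Matrix.of fun p j => V (L p) j with hBdef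
  have hBu : IsUnit B.det := isUnit_iff_ne_zero.2 hB
  refine hV.trans (B⁻¹ * diagonal (fun p => D (L p)) * B) ?_ ?_
  · rw [det_mul, det_mul, det_diagonal, mul_right_comm, ← det_mul, nonsing_inv_mul _ hBu,
      det_one, one_mul]
    exact Finset.prod_ne_zero_iff.2 fun p _ => hD p
  · intro i hi
    have h1 : V i ᵥ* B⁻¹ ᵥ* diagonal (fun p => D (L p)) = D i • (V i ᵥ* B⁻¹) := by
      ext p
      rw [vecMul_diagonal, Pi.smul_apply, smul_eq_mul, mul_comm]
      by_cases h0 : (V i ᵥ* B⁻¹) p = 0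
      · rw [h0, mul_zero, mul_zero]
      · rw [h i hi p h0]
    rw [← vecMul_vecMul, ← vecMul_vecMul, h1, smul_vecMul, vecMul_vecMul,
      nonsing_inv_mul _ hBu, vecMul_one]

end Pool.Agent.H682.CP
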